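import Pool.Agent.N993.CP.Main

/-!
The final theorem.
-/

namespace Pool.Agent.N993.CP

open Pool.Agent.H916R2 Pool.Agent.H916T Pool.Agent.N993

/-- `m` is the product of a number `m0 ≤ 135` other than 87, 95, 105, 111, 116, 123 and of odd primes
dividing `m0`. -/
def SmallDegree (m : ℕ) : Prop :=
  ∃ m0 k : ℕ, k * m0 = m ∧ m0 ≤ 135 ∧ m0 ∉ [87, 95, 105, 111, 116, 123] ∧
    ∀ q : ℕ, q.Prime → q ∣ k → q ≠ 2 ∧ q ∣ m0

theorem final (p m : ℕ) [NeZero m] (hp : p.Prime) (hpm : p.Coprime m)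
    (hm : SmallDegree m ∨ (Odd (orderOf (p : ZMod m)) ∧ (MutualSquares m ∨ ThreePrimes m)))
    (s : Multiset (ZMod m)) (hs : IsTate p m s) (hne : s ≠ 0) :
    ∃ N : ℕ, 0 < N ∧ p.Coprime N ∧
      Pool.Agent.H916T.Generated (N * m) (CBase p (N * m))
        (s.map fun a => ((N * a.val : ℕ) : ZMod (N * m))) := by
  rcases hm with ⟨m0, k, hkm, hm0, hexc, hk⟩ | ⟨hodd, hm⟩
  · have he : excB m0 = false := by
      unfold excB
      rw [← Bool.not_eq_true, List.contains_iff_mem]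
      exact hexc
    obtain ⟨N, hN, hpN, H⟩ := small_case hp hpm hkm hk hm0 he hs hne
    exact ⟨N, hN, hpN, H (N * m) rfl⟩
  · obtain ⟨N, hN, hpN, H⟩ := odd_case hp hpm (hm.imp id Or.inl) hodd hs hne
    exact ⟨N, hN, hpN, H (N * m) rfl⟩

end Pool.Agent.N993.CP
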