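import Pool.Agent.N993.CP.Norm
import Pool.Agent.N993.ThreeP
import Pool.Agent.N214.FT.Main

/-!
The base family for Fermat varieties of all degrees up to 86 in positive characteristic, and the
odd order case.
-/

set_option linter.unusedSectionVars false

namespace Pool.Agent.N993.CP

open Finset Pool.Agent.H916R2 Pool.Agent.H916T Pool.Agent.H916U Pool.Agent.H916Z Pool.Agent.H916Q
  Pool.Agent.H916Y Pool.Agent.N992 Pool.Agent.Y2.Cv

/-- The Tate characters which are the union of two curve characters. -/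
def CurveProductTate (p m : ℕ) (s : Multiset (ZMod m)) : Prop :=
  IsTate p m s ∧ ∃ s₁ s₂ : Multiset (ZMod m), CurveCharacter m s₁ ∧ CurveCharacter m s₂ ∧
    s = s₁ + s₂

/-- The Hodge characters `s` of degree `m` for which there is `l` such that the character `l s` of
degree `l m` is generated by the standard characters and the members of `FourBase`. -/
def HodgeFour (m : ℕ) (s : Multiset (ZMod m)) : Prop :=
  IsHodge m s ∧ ∃ (l M : ℕ) (_ : NeZero M), l * m = M ∧
    H916R2.Generated M (FourBase M) (s.map fun a => ((l * a.val : ℕ) : ZMod M))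

/-- The base in characteristic `p`. -/
def CBase (p m : ℕ) (s : Multiset (ZMod m)) : Prop :=
  SurfaceTate p m s ∨ CurveProductTate p m s ∨ HodgeFour m s ∨
    ∃ q : ℕ, q.Prime ∧ q ∣ m ∧ Standard q m s

lemma gen_lift {k m0 m : ℕ} [NeZero m0] [NeZero m] (h : k * m0 = m)
    {B : Multiset (ZMod m0) → Prop} {B' : Multiset (ZMod m) → Prop}
    (hB : ∀ s, B s → B' (s.map (iota k : ZMod m0 → ZMod m))) {s : Multiset (ZMod m0)}
    (hs : H916R2.Generated m0 B s) : H916R2.Generated m B' (s.map (iota k : ZMod m0 → ZMod m)) := by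
  have hdiv : ∀ q : ℕ, 0 < q → q ∣ m0 → (iota k ((m0 / q : ℕ) : ZMod m0) : ZMod m) =
      ((m / q : ℕ) : ZMod m) := by
    intro q hq hqm
    rw [iota_natCast h]
    obtain ⟨d, hd⟩ := hqm
    have h1 : m0 / q = d := by rw [hd, Nat.mul_div_cancel_left d hq]
    have h2 : m / q = k * d := by
      rw [← h, hd, show k * (q * d) = q * (k * d) by ring, Nat.mul_div_cancel_left _ hq]
    rw [h1, h2]
  induction hs with
  | ofBase s hs => exact H916R2.Generated.ofBase _ (hB s hs)
  | pair a ha =>
    have h1 : ({a, -a} : Multiset (ZMod m0)).map (iota k : ZMod m0 → ZMod m) =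
        {(iota k a : ZMod m), -(iota k a : ZMod m)} := by
      rw [Multiset.insert_eq_cons, Multiset.map_cons, Multiset.map_singleton, iota_neg h]
      rfl
    rw [h1]
    exact H916R2.Generated.pair _ (fun h2 => ha (iota_eq_zero h h2))
  | standard q hq hq2 hqm a ha =>
    have hqm' : q ∣ m := hqm.trans (Dvd.intro_left k h)
    have h1 : (-((q : ZMod m0) * a) ::ₘ (Multiset.range q).map
        fun i : ℕ => a + (i : ZMod m0) * ((m0 / q : ℕ) : ZMod m0)).map
          (iota k : ZMod m0 → ZMod m) =
        -((q : ZMod m) * (iota k a : ZMod m)) ::ₘ (Multiset.range q).map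
          fun i : ℕ => (iota k a : ZMod m) + (i : ZMod m) * ((m / q : ℕ) : ZMod m) := by
      rw [Multiset.map_cons, Multiset.map_map, iota_neg h, iota_natMul h]
      congr 1
      refine Multiset.map_congr rfl fun i _ => ?_
      simp only [Function.comp_apply]
      rw [iota_add h, iota_natMul h, hdiv q hq.pos hqm]
    rw [h1]
    refine H916R2.Generated.standard q hq hq2 hqm' _ ?_
    intro h2
    rw [← iota_natMul h] at h2
    exact ha (iota_eq_zero h h2)
  | standardTwo h2m a ha =>
    have h2m' : 2 ∣ m := h2m.trans (Dvd.intro_left k h)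
    have h2a : (iota k (2 * a : ZMod m0) : ZMod m) = 2 * (iota k a : ZMod m) := by
      have := iota_natMul h 2 a
      push_cast at this
      exact this
    have h1 : ({a, a + ((m0 / 2 : ℕ) : ZMod m0), -(2 * a), ((m0 / 2 : ℕ) : ZMod m0)} :
        Multiset (ZMod m0)).map (iota k : ZMod m0 → ZMod m) =
        {(iota k a : ZMod m), (iota k a : ZMod m) + ((m / 2 : ℕ) : ZMod m),
          -(2 * (iota k a : ZMod m)), ((m / 2 : ℕ) : ZMod m)} := by
      simp only [Multiset.insert_eq_cons, Multiset.map_cons, Multiset.map_singleton]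
      rw [iota_add h, hdiv 2 (by norm_num) h2m, iota_neg h, h2a]
    rw [h1]
    refine H916R2.Generated.standardTwo h2m' _ ?_
    intro h2
    rw [← h2a] at h2
    exact ha (iota_eq_zero h h2)
  | join s t _ _ ihs iht =>
    rw [Multiset.map_add]
    exact H916R2.Generated.join _ _ ihs iht
  | cancel a s _ ih =>
    rw [Multiset.map_cons, Multiset.map_cons, iota_neg h] at ih
    exact H916R2.Generated.cancel _ _ ih

lemma HodgeFour.lift {k m0 m : ℕ} [NeZero m0] [NeZero m] (h : k * m0 = m)
    {s : Multiset (ZMod m0)} (hs : HodgeFour m0 s) :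
    HodgeFour m (s.map (iota k : ZMod m0 → ZMod m)) := by
  obtain ⟨hH, l, M, hM, hlM, hG⟩ := hs
  refine ⟨hH.iota h, l, k * M, ?_, by rw [← h, ← hlM]; ring, ?_⟩
  · have hk : k ≠ 0 := by
      rintro rfl
      rw [zero_mul] at h
      exact NeZero.ne m h.symm
    exact ⟨Nat.mul_ne_zero hk (NeZero.ne M)⟩
  · have hk : k ≠ 0 := by
      rintro rfl
      rw [zero_mul] at h
      exact NeZero.ne m h.symm
    have hz : NeZero (k * M) := ⟨Nat.mul_ne_zero hk (NeZero.ne M)⟩
    have h1 := gen_lift (k := k) (m0 := M) (m := k * M) rfl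
      (B := FourBase M) (B' := FourBase (k * M)) (fun s hs => FourBase.lift rfl hs) hG
    have h2 : ((s.map fun a => ((l * a.val : ℕ) : ZMod M)).map
        (iota k : ZMod M → ZMod (k * M))) =
        ((s.map (iota k : ZMod m0 → ZMod m)).map
          fun a => ((l * a.val : ℕ) : ZMod (k * M))) := by
      rw [Multiset.map_map, Multiset.map_map]
      refine Multiset.map_congr rfl fun a _ => ?_
      simp only [Function.comp_apply]
      have e1 : (iota k ((l * a.val : ℕ) : ZMod M) : ZMod (k * M)) =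
          ((k * (l * a.val) : ℕ) : ZMod (k * M)) := iota_natCast rfl _
      rw [e1]
      have e2 : (iota k a : ZMod m).val = k * a.val := by
        unfold iota
        rw [ZMod.val_natCast]
        apply Nat.mod_eq_of_lt
        rw [← h]
        exact Nat.mul_lt_mul_of_pos_left (ZMod.val_lt a) (Nat.pos_of_ne_zero hk)
      rw [e2]
      congr 1
      ring
    rw [← h2]
    exact h1

lemma hodge_isTate {p m : ℕ} [NeZero m] (hpm : p.Coprime m) {s : Multiset (ZMod m)}
    (hs : IsHodge m s) : IsTate p m s := by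
  obtain ⟨h0, he, hsum, hH⟩ := hs
  refine ⟨h0, he, hsum, fun t => ?_⟩
  have hu : IsUnit (p : ZMod m) := isUnit_p hpm
  rw [mul_sum]
  have h1 : ∀ j ∈ range (orderOf (p : ZMod m)),
      2 * (s.map fun a => ((p : ZMod m) ^ j * ((t : ZMod m) * a)).val).sum =
        m * Multiset.card s := by
    intro j _
    have h2 := hH (hu.unit ^ j * t)
    simp only [Units.val_mul, Units.val_pow_eq_pow_val, IsUnit.unit_spec, mul_assoc] at h2
    exact h2
  rw [sum_congr rfl h1, sum_const, card_range, smul_eq_mul]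

/-- `x` is in the base after all liftings and negation. -/
def KB (p m : ℕ) (x : Multiset (ZMod m)) : Prop :=
  IsTate p m x ∧ ∀ (k M : ℕ) [NeZero M], k * m = M → p.Coprime M →
    CBase p M ((x.map (iota k : ZMod m → ZMod M)).map Neg.neg)

lemma KB.of_surface {p m : ℕ} [NeZero m] {x : Multiset (ZMod m)} (hx : SurfaceTate p m x) :
    KB p m x := by
  refine ⟨hx.1, fun k M _ hkM hpM => ?_⟩
  exact Or.inl ((surface_iota hkM hpM hx).neg hpM)

lemma KB.of_curve {p m : ℕ} [NeZero m] {x : Multiset (ZMod m)} (hx : CurveProductTate p m x) :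
    KB p m x := by
  refine ⟨hx.1, fun k M _ hkM hpM => ?_⟩
  right; left
  obtain ⟨hT, s₁, s₂, h1, h2, rfl⟩ := hx
  refine ⟨(isTate_iota hkM hpM hT).neg hpM, (s₁.map (iota k : ZMod m → ZMod M)).map Neg.neg,
    (s₂.map (iota k : ZMod m → ZMod M)).map Neg.neg, ?_, ?_, ?_⟩
  · have h3 := (h1.lift hkM).mul (-1) (isUnit_one.neg)
    have e : (fun a : ZMod M => -1 * a) = Neg.neg := by
      funext a; simp
    rwa [e] at h3
  · have h3 := (h2.lift hkM).mul (-1) (isUnit_one.neg)
    have e : (fun a : ZMod M => -1 * a) = Neg.neg := by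
      funext a; simp
    rwa [e] at h3
  · rw [Multiset.map_add, Multiset.map_add]

lemma KB.of_hodge {p m : ℕ} [NeZero m] (hpm : p.Coprime m)
    (hm : MutualSquares m ∨ ThreePrimes m ∨ m ≤ 86) {x : Multiset (ZMod m)} (hx : IsHodge m x)
    (hne : x ≠ 0) : KB p m x := by
  refine ⟨hodge_isTate hpm hx, fun k M _ hkM hpM => ?_⟩
  right; right; left
  obtain ⟨l, hl, _, H⟩ := mainT m hm
  have hne' : x.map Neg.neg ≠ 0 := fun h => hne (Multiset.map_eq_zero.mp h)
  have h1 : HodgeFour m (x.map Neg.neg) := ⟨hx.neg, l, l * m, hl, rfl, H _ hx.neg hne'⟩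
  have h2 := h1.lift hkM
  have h3 : (x.map (iota k : ZMod m → ZMod M)).map Neg.neg =
      (x.map Neg.neg).map (iota k : ZMod m → ZMod M) := by
    rw [Multiset.map_map, Multiset.map_map]
    refine Multiset.map_congr rfl fun a _ => ?_
    simp only [Function.comp_apply]
    rw [iota_neg hkM]
  rw [h3]
  exact h2


open scoped Classical in
/-- **The reduction to parities.** -/
theorem reduce {p m : ℕ} [NeZero m] (hp : p.Prime) (hpm : p.Coprime m)
    {s : Multiset (ZMod m)} (hs : IsTate p m s) (hne : s ≠ 0)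
    (l : Multiset (Multiset (ZMod m))) (hl : ∀ x ∈ l, KB p m x)
    (hpar : ∀ S : Finset ℕ, S.Nonempty → 2 ∉ S → ¬ Dead p S →
      Even ((s + l.sum).countP (Supp S))) :
    ∃ N : ℕ, 0 < N ∧ p.Coprime N ∧ ∀ M : ℕ, N * m = M →
      H916T.Generated M (CBase p M) (s.map (iota N : ZMod m → ZMod M)) := by
  have hm : 0 < m := NeZero.pos m
  have hT : IsTate p m (s + l.sum) := isTate_add hpm hs (N214.FT.isTate_msum hpm l fun x hx => (hl x hx).1)
  have hne' : s + l.sum ≠ 0 := by
    intro h
    have h2 := congrArg Multiset.card h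
    rw [Multiset.card_add, Multiset.card_zero] at h2
    exact hne (Multiset.card_eq_zero.mp (by omega))
  have hpar' : ∀ a : ZMod m, Even ((s + l.sum).countP (fun b => Relation.EqvGen (Link p) a b)) := by
    refine link_parity2 hT.1 hT.2.1 (fun S => S.Nonempty ∧ Dead p S) ?_ ?_
    · rintro S ⟨hSne, hSD⟩ a ha
      exact dead_elem S hSne hSD a ha
    · intro S hSne h2S hSD
      exact hpar S hSne h2S (fun h => hSD ⟨hSne, h⟩)
  obtain ⟨N, hN, hpN, H⟩ := parity_main hp hm hpm hT hne' hpar'
  refine ⟨N, hN, hpN, ?_⟩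
  intro M hM
  have h2 := H M hM
  have hM0 : 0 < M := by rw [← hM]; exact Nat.mul_pos hN hm
  have hzM : NeZero M := ⟨hM0.ne'⟩
  have hpM : p.Coprime M := by rw [← hM]; exact Nat.Coprime.mul_right hpN hpm
  rw [Multiset.map_add, map_multiset_sum] at h2
  refine N214.FT.remove_base (l.map fun x => x.map (iota N : ZMod m → ZMod M)) ?_ _
    (generated_mono (base := ZBase p M) ?_ h2)
  · intro x hx
    obtain ⟨y, hy, rfl⟩ := Multiset.mem_map.mp hx
    exact (hl y hy).2 N M hM hpM
  · rintro t (ht | ht)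
    · exact Or.inl ht
    · exact Or.inr (Or.inr (Or.inr ht))

end Pool.Agent.N993.CP
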