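import Pool.Agent.N993.CP.Codes

/-!
The checker for the parities of Tate characters.
-/

set_option linter.unusedSectionVars false

namespace Pool.Agent.N993.CP

open Finset Pool.Agent.H916R2 Pool.Agent.H916T Pool.Agent.H916U Pool.Agent.H916Z Pool.Agent.H916Q
  Pool.Agent.H916Y Pool.Agent.N992 Pool.Agent.Y2.Cv

/-- the sum of the residues `h ^ j * y`, `j < n` -/
def orb (m h : ℕ) : ℕ → ℕ → ℕ
  | 0, _ => 0
  | n + 1, y => y + orb m h n (h * y % m)

/-- a combination of such sums -/
def aval (m h o : ℕ) : List (ℕ × ℕ) → ℕ → ℕ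
  | [], _ => 0
  | tc :: cs, x => tc.2 * orb m h o (tc.1 * x % m) + aval m h o cs x

/-- the sum of the coefficients -/
def csum : List (ℕ × ℕ) → ℕ
  | [] => 0
  | tc :: cs => tc.2 + csum cs

/-- check of a parity relation: `L` mask, `v` exponent, coefficients -/
def dualB (m h o : ℕ) (pr : List ℕ) (d : ℕ × ℕ × List (ℕ × ℕ)) : Bool :=
  (d.2.2.all fun tc => Nat.gcd tc.1 m == 1) &&
  (List.range m).all fun x => (x == 0) ||
    ((2 * aval m h o d.2.2 x) % 2 ^ (d.2.1 + 1) ==
      (o * m * csum d.2.2 + (if d.1.testBit (code m pr x) then 2 ^ d.2.1 else 0)) %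
        2 ^ (d.2.1 + 1))

/-- check of the Tate property -/
def tateB (m h o : ℕ) (L : List ℕ) : Bool :=
  (L.all fun a => decide (0 < a) && decide (a < m)) && ((L.length % 2 == 0) && ((L.sum % m == 0) &&
    (List.range m).all fun t => (Nat.gcd t m != 1) ||
      (2 * (L.map fun a => orb m h o (t * a % m)).sum == o * m * L.length)))

variable {m : ℕ} [NeZero m]

lemma orb_eq (h n y : ℕ) (hy : y < m) :
    ((orb m h n y : ℕ) : ℤ) = ∑ j ∈ range n, ((((h : ZMod m) ^ j * (y : ZMod m)).val : ℕ) : ℤ) := by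
  induction n generalizing y with
  | zero => simp [orb]
  | succ n ih =>
    rw [orb, sum_range_succ', Nat.cast_add, ih _ (Nat.mod_lt _ (NeZero.pos m))]
    have h1 : (((h : ZMod m) ^ 0 * (y : ZMod m)).val : ℤ) = (y : ℤ) := by
      rw [pow_zero, one_mul, ZMod.val_natCast, Nat.mod_eq_of_lt hy]
    rw [h1, add_comm]
    congr 1
    refine sum_congr rfl fun j _ => ?_
    congr 2
    have h2 : ((h * y % m : ℕ) : ZMod m) = (h : ZMod m) * (y : ZMod m) := by
      rw [ZMod.natCast_mod]; push_cast; rfl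
    rw [h2, pow_succ, mul_assoc]

lemma WW_orb {h : ℕ} (hh : h.Coprime m) (n : ℕ) {t x : ℕ} (ht : t.Coprime m) (h0 : 0 < x)
    (hx : x < m) :
    WW (h : ZMod m) n ((t : ZMod m) * (x : ZMod m)) =
      2 * (orb m h n (t * x % m) : ℤ) - n * m := by
  rw [orb_eq h n _ (Nat.mod_lt _ (NeZero.pos m))]
  unfold WW
  have h1 : ∀ j ∈ range n, saw ((h : ZMod m) ^ j * ((t : ZMod m) * (x : ZMod m))) =
      2 * ((((h : ZMod m) ^ j * ((t * x % m : ℕ) : ZMod m)).val : ℕ) : ℤ) - m := by
    intro j _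
    have hu : IsUnit ((h : ZMod m) ^ j) := ((ZMod.isUnit_iff_coprime h m).mpr hh).pow j
    have hu2 : IsUnit (t : ZMod m) := (ZMod.isUnit_iff_coprime t m).mpr ht
    have hne : (h : ZMod m) ^ j * ((t : ZMod m) * (x : ZMod m)) ≠ 0 := by
      intro h2
      rw [hu.mul_right_eq_zero, hu2.mul_right_eq_zero] at h2
      exact ne_zero_of_lt h0 hx h2
    rw [saw_of_ne_zero hne]
    have h3 : ((t * x % m : ℕ) : ZMod m) = (t : ZMod m) * (x : ZMod m) := by
      rw [ZMod.natCast_mod]; push_cast; rfl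
    rw [h3]
  rw [sum_congr rfl h1, sum_sub_distrib, ← mul_sum, sum_const, card_range, nsmul_eq_mul]

/-- the combination of relations -/
noncomputable def FF (h o : ℕ) : List (ℕ × ℕ) → ZMod m → ℤ
  | [], _ => 0
  | tc :: cs, a => tc.2 * WW (h : ZMod m) o ((tc.1 : ZMod m) * a) + FF h o cs a

lemma FF_eq {h o : ℕ} (hh : h.Coprime m) (cs : List (ℕ × ℕ))
    (hcs : ∀ tc ∈ cs, Nat.gcd tc.1 m = 1) {x : ℕ} (h0 : 0 < x) (hx : x < m) :
    FF h o cs (x : ZMod m) = 2 * (aval m h o cs x : ℤ) - o * m * csum cs := by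
  induction cs with
  | nil => simp [FF, aval, csum]
  | cons tc cs ih =>
    rw [FF, aval, csum, ih fun tc h => hcs tc (List.mem_cons_of_mem _ h),
      WW_orb hh o (hcs tc List.mem_cons_self) h0 hx]
    push_cast
    ring

lemma FF_sum {h o : ℕ} (cs : List (ℕ × ℕ)) (hcs : ∀ tc ∈ cs, Nat.gcd tc.1 m = 1)
    {s : Multiset (ZMod m)}
    (hs : ∀ t : (ZMod m)ˣ, (s.map fun a => WW (h : ZMod m) o ((t : ZMod m) * a)).sum = 0) :
    (s.map (FF h o cs)).sum = 0 := by
  induction cs with
  | nil => simp [FF]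
  | cons tc cs ih =>
    have h1 : s.map (FF h o (tc :: cs)) =
        s.map (fun a => (tc.2 : ℤ) * WW (h : ZMod m) o ((tc.1 : ZMod m) * a) + FF h o cs a) := rfl
    rw [h1, Multiset.sum_map_add, ih fun tc h => hcs tc (List.mem_cons_of_mem _ h),
      Multiset.sum_map_mul_left, add_zero]
    have hu : IsUnit (tc.1 : ZMod m) :=
      (ZMod.isUnit_iff_coprime tc.1 m).mpr (hcs tc List.mem_cons_self)
    have h2 := hs hu.unit
    simp only [IsUnit.unit_spec] at h2
    rw [h2, mul_zero]

lemma even_of_pow {v : ℕ} {s : Multiset (ZMod m)} {F b : ZMod m → ℤ}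
    (hF : ∀ a ∈ s, ∃ z : ℤ, F a = 2 ^ v * (b a + 2 * z)) (h0 : (s.map F).sum = 0) :
    Even (s.map b).sum := by
  have key : ∃ Z : ℤ, (s.map F).sum = 2 ^ v * ((s.map b).sum + 2 * Z) := by
    clear h0
    induction s using Multiset.induction_on with
    | empty => exact ⟨0, by simp⟩
    | cons a s ih =>
      obtain ⟨z, hz⟩ := hF a (Multiset.mem_cons_self _ _)
      obtain ⟨Z, hZ⟩ := ih fun a ha => hF a (Multiset.mem_cons_of_mem ha)
      refine ⟨z + Z, ?_⟩
      rw [Multiset.map_cons, Multiset.sum_cons, Multiset.map_cons, Multiset.sum_cons, hz, hZ]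
      ring
  obtain ⟨Z, hZ⟩ := key
  rw [h0] at hZ
  have h1 : (2 : ℤ) ^ v ≠ 0 := pow_ne_zero _ two_ne_zero
  have h2 := (mul_eq_zero.mp hZ.symm).resolve_left h1
  exact ⟨-Z, by linarith⟩

theorem dual_sound {h o : ℕ} (hh : h.Coprime m) (pr : List ℕ) {d : ℕ × ℕ × List (ℕ × ℕ)}
    (hd : dualB m h o pr d = true) {s : Multiset (ZMod m)} (h0 : (0 : ZMod m) ∉ s)
    (hs : ∀ t : (ZMod m)ˣ, (s.map fun a => WW (h : ZMod m) o ((t : ZMod m) * a)).sum = 0) :
    Even (s.map fun a => if d.1.testBit (code m pr a.val) then 1 else 0).sum := by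
  simp only [dualB, Bool.and_eq_true, List.all_eq_true, List.mem_range, Bool.or_eq_true,
    beq_iff_eq] at hd
  obtain ⟨hcs, hall⟩ := hd
  have h1 : Even (s.map fun a => if d.1.testBit (code m pr a.val) then (1 : ℤ) else 0).sum := by
    refine even_of_pow (v := d.2.1) (F := FF h o d.2.2) ?_ (FF_sum _ hcs hs)
    intro a ha
    have ha0 : a ≠ 0 := fun h => h0 (h ▸ ha)
    have hpos : 0 < a.val := Nat.pos_of_ne_zero (fun h => ha0 ((ZMod.val_eq_zero a).mp h))
    have hlt : a.val < m := ZMod.val_lt a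
    have h2 := (hall a.val hlt).resolve_left (by omega)
    have h3 : ((2 * aval m h o d.2.2 a.val : ℕ) : ℤ) ≡
        ((o * m * csum d.2.2 + (if d.1.testBit (code m pr a.val) then 2 ^ d.2.1 else 0) : ℕ) : ℤ)
          [ZMOD ((2 ^ (d.2.1 + 1) : ℕ) : ℤ)] := by
      rw [Int.natCast_modEq_iff]
      exact h2
    obtain ⟨z, hz⟩ := (Int.modEq_iff_dvd.mp h3.symm)
    refine ⟨z, ?_⟩
    have h4 := FF_eq (o := o) hh d.2.2 hcs hpos hlt
    rw [ZMod.natCast_zmod_val] at h4
    rw [h4]
    push_cast at hz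
    split_ifs at hz ⊢ with h5
    · rw [pow_succ] at hz
      linear_combination hz
    · rw [pow_succ] at hz
      linear_combination hz
  have h6 : (((s.map fun a => if d.1.testBit (code m pr a.val) then 1 else 0).sum : ℕ) : ℤ) =
      (s.map fun a => if d.1.testBit (code m pr a.val) then (1 : ℤ) else 0).sum := by
    clear h1 hs h0
    induction s using Multiset.induction_on with
    | empty => simp
    | cons a s ih =>
      rw [Multiset.map_cons, Multiset.sum_cons, Multiset.map_cons, Multiset.sum_cons,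
        Nat.cast_add, ih]
      split_ifs <;> simp
  rw [← h6] at h1
  exact_mod_cast h1

theorem tateB_sound {h o : ℕ} (hh : h.Coprime m) {L : List ℕ} (hL : tateB m h o L = true) :
    (∀ a ∈ L, 0 < a ∧ a < m) ∧ (0 : ZMod m) ∉ ms m L ∧ Even (Multiset.card (ms m L)) ∧
      (ms m L).sum = 0 ∧
      ∀ t : (ZMod m)ˣ, ((ms m L).map fun a => WW (h : ZMod m) o ((t : ZMod m) * a)).sum = 0 := by
  simp only [tateB, Bool.and_eq_true, decide_eq_true_eq, beq_iff_eq, List.all_eq_true,
    List.mem_range, Bool.or_eq_true, bne_iff_ne, ne_eq] at hL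
  obtain ⟨hpos, heven, hsum, hall⟩ := hL
  refine ⟨hpos, ms_zero L hpos, ?_, ms_sum L hsum, ?_⟩
  · unfold ms
    rw [Multiset.coe_card, List.length_map]
    exact Nat.even_iff.mpr heven
  · intro t
    have hcop : Nat.gcd (t : ZMod m).val m = 1 := ZMod.val_coe_unit_coprime t
    have h1 := (hall (t : ZMod m).val (ZMod.val_lt _)).resolve_left (fun h => h hcop)
    have h2 : ∀ L : List ℕ, (∀ a ∈ L, 0 < a ∧ a < m) →
        ((ms m L).map fun a => WW (h : ZMod m) o ((t : ZMod m) * a)).sum =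
        2 * (((L.map fun a => orb m h o ((t : ZMod m).val * a % m)).sum : ℕ) : ℤ) -
          o * m * L.length := by
      intro L
      induction L with
      | nil => intro _; simp [ms]
      | cons x L ih =>
        intro hp
        have h3 : ms m (x :: L) = (x : ZMod m) ::ₘ ms m L := by
          unfold ms; rw [List.map_cons, Multiset.cons_coe]
        rw [h3, Multiset.map_cons, Multiset.sum_cons, ih fun a ha => hp a (List.mem_cons_of_mem _ ha)]
        have h4 := WW_orb (m := m) hh o (t := (t : ZMod m).val) (x := x) hcop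
          (hp x List.mem_cons_self).1 (hp x List.mem_cons_self).2
        rw [ZMod.natCast_zmod_val] at h4
        rw [h4, List.map_cons, List.sum_cons, List.length_cons]
        push_cast
        ring
    rw [h2 L hpos]
    have h5 : ((2 * (L.map fun a => orb m h o ((t : ZMod m).val * a % m)).sum : ℕ) : ℤ) =
        ((o * m * L.length : ℕ) : ℤ) := by rw [h1]
    push_cast at h5 ⊢
    linarith

end Pool.Agent.N993.CP
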