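import Pool.Agent.N993.CP.Data2

/-!
Checks of the table.
-/

namespace Pool.Agent.N993.CP

theorem chk121 : ((List.range 7).all fun i => excB (i + 121) || degB (i + 121)) = true := by
  decide +kernel

end Pool.Agent.N993.CP
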