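import Pool.Agent.N993.CP.Chk1
import Pool.Agent.N993.CP.Chk2
import Pool.Agent.N993.CP.Chk3
import Pool.Agent.N993.CP.Chk4
import Pool.Agent.N993.CP.Chk5
import Pool.Agent.N993.CP.Chk6

/-!
The check of all degrees.
-/

namespace Pool.Agent.N993.CP

theorem degB_all {m : ℕ} (h3 : 3 ≤ m) (hm : m ≤ 135) (hexc : excB m = false) : degB m = true := by
  by_cases h3 : m ≤ 45
  · have h := List.all_eq_true.mp chk3 (m - 3) (List.mem_range.mpr (by omega))
    rw [Nat.sub_add_cancel (by omega), hexc, Bool.false_or] at h
    exact h
  by_cases h46 : m ≤ 64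
  · have h := List.all_eq_true.mp chk46 (m - 46) (List.mem_range.mpr (by omega))
    rw [Nat.sub_add_cancel (by omega), hexc, Bool.false_or] at h
    exact h
  by_cases h65 : m ≤ 76
  · have h := List.all_eq_true.mp chk65 (m - 65) (List.mem_range.mpr (by omega))
    rw [Nat.sub_add_cancel (by omega), hexc, Bool.false_or] at h
    exact h
  by_cases h77 : m ≤ 86
  · have h := List.all_eq_true.mp chk77 (m - 77) (List.mem_range.mpr (by omega))
    rw [Nat.sub_add_cancel (by omega), hexc, Bool.false_or] at h
    exact h
  by_cases h87 : m ≤ 96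
  · have h := List.all_eq_true.mp chk87 (m - 87) (List.mem_range.mpr (by omega))
    rw [Nat.sub_add_cancel (by omega), hexc, Bool.false_or] at h
    exact h
  by_cases h97 : m ≤ 105
  · have h := List.all_eq_true.mp chk97 (m - 97) (List.mem_range.mpr (by omega))
    rw [Nat.sub_add_cancel (by omega), hexc, Bool.false_or] at h
    exact h
  by_cases h106 : m ≤ 114
  · have h := List.all_eq_true.mp chk106 (m - 106) (List.mem_range.mpr (by omega))
    rw [Nat.sub_add_cancel (by omega), hexc, Bool.false_or] at h
    exact h
  by_cases h115 : m ≤ 120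
  · have h := List.all_eq_true.mp chk115 (m - 115) (List.mem_range.mpr (by omega))
    rw [Nat.sub_add_cancel (by omega), hexc, Bool.false_or] at h
    exact h
  by_cases h121 : m ≤ 127
  · have h := List.all_eq_true.mp chk121 (m - 121) (List.mem_range.mpr (by omega))
    rw [Nat.sub_add_cancel (by omega), hexc, Bool.false_or] at h
    exact h
  by_cases h128 : m ≤ 135
  · have h := List.all_eq_true.mp chk128 (m - 128) (List.mem_range.mpr (by omega))
    rw [Nat.sub_add_cancel (by omega), hexc, Bool.false_or] at h
    exact h
  omega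

end Pool.Agent.N993.CP
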