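import Pool.Agent.N993.CP.OddOrd
import Pool.Agent.Y2.Cv.Check

/-!
Codes of supports, parity masks.
-/

set_option linter.unusedSectionVars false

namespace Pool.Agent.N993.CP

open Finset Pool.Agent.H916R2 Pool.Agent.H916T Pool.Agent.H916U Pool.Agent.H916Z Pool.Agent.H916Q
  Pool.Agent.H916Y Pool.Agent.N992 Pool.Agent.Y2.Cv

/-- the code of the set of the primes in the list which divide `n` -/
def codeL : List ℕ → ℕ → ℕ
  | [], _ => 0
  | q :: qs, n => (if n % q = 0 then 1 else 0) + 2 * codeL qs n

/-- the code of a set -/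
def cdL : List ℕ → Finset ℕ → ℕ
  | [], _ => 0
  | q :: qs, S => (if q ∈ S then 1 else 0) + 2 * cdL qs S

/-- the product of the primes with a given code -/
def prodL : List ℕ → ℕ → ℕ
  | [], _ => 1
  | q :: qs, c => (if c % 2 = 1 then q else 1) * prodL qs (c / 2)

lemma codeL_lt (pr : List ℕ) (n : ℕ) : codeL pr n < 2 ^ pr.length := by
  induction pr with
  | nil => simp [codeL]
  | cons q qs ih =>
    rw [codeL, List.length_cons, pow_succ]
    split_ifs <;> omega

lemma cdL_lt (pr : List ℕ) (S : Finset ℕ) : cdL pr S < 2 ^ pr.length := by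
  induction pr with
  | nil => simp [cdL]
  | cons q qs ih =>
    rw [cdL, List.length_cons, pow_succ]
    split_ifs <;> omega

lemma codeL_eq_iff (pr : List ℕ) (n : ℕ) (S : Finset ℕ) :
    codeL pr n = cdL pr S ↔ ∀ q ∈ pr, (q ∣ n ↔ q ∈ S) := by
  induction pr with
  | nil => simp [codeL, cdL]
  | cons q qs ih =>
    rw [codeL, cdL, List.forall_mem_cons, ← ih, Nat.dvd_iff_mod_eq_zero]
    by_cases h1 : n % q = 0 <;> by_cases h2 : q ∈ S <;> simp [h1, h2] <;> omega

lemma cdL_ne_zero {pr : List ℕ} {S : Finset ℕ} (hS : ∀ q ∈ S, q ∈ pr) (hne : S.Nonempty) :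
    cdL pr S ≠ 0 := by
  obtain ⟨q, hq⟩ := hne
  have h1 := hS q hq
  clear hS
  induction pr with
  | nil => simp at h1
  | cons a qs ih =>
    rw [cdL]
    rcases List.mem_cons.mp h1 with rfl | h1
    · rw [if_pos hq]; omega
    · have := ih h1
      omega

lemma prodL_cdL {pr : List ℕ} (hnd : pr.Nodup) {S : Finset ℕ} (hS : ∀ q ∈ S, q ∈ pr) :
    prodL pr (cdL pr S) = ∏ q ∈ S, q := by
  have h1 : ∀ (pr : List ℕ), pr.Nodup → prodL pr (cdL pr S) = ∏ q ∈ S.filter (· ∈ pr), q := by
    intro pr
    induction pr with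
    | nil => intro _; simp [prodL]
    | cons a qs ih =>
      intro hnd
      rw [List.nodup_cons] at hnd
      have e1 : (cdL (a :: qs) S) / 2 = cdL qs S := by
        rw [cdL]; split_ifs <;> omega
      have e2 : (cdL (a :: qs) S) % 2 = 1 ↔ a ∈ S := by
        rw [cdL]
        by_cases h : a ∈ S
        · rw [if_pos h]; exact ⟨fun _ => h, fun _ => by omega⟩
        · rw [if_neg h]; exact ⟨fun h2 => by omega, fun h2 => absurd h2 h⟩
      rw [prodL, e1, ih hnd.2]
      by_cases h : a ∈ S
      · rw [if_pos (e2.mpr h)]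
        have e3 : S.filter (· ∈ a :: qs) = insert a (S.filter (· ∈ qs)) := by
          ext x
          simp only [mem_filter, List.mem_cons, mem_insert]
          constructor
          · rintro ⟨h3, h4 | h4⟩
            · exact Or.inl h4
            · exact Or.inr ⟨h3, h4⟩
          · rintro (h3 | ⟨h3, h4⟩)
            · exact ⟨h3 ▸ h, Or.inl h3⟩
            · exact ⟨h3, Or.inr h4⟩
        rw [e3, prod_insert]
        simp only [mem_filter, not_and]
        exact fun _ => hnd.1
      · rw [if_neg (fun h3 => h (e2.mp h3)), one_mul]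
        congr 1
        ext x
        simp only [mem_filter, List.mem_cons]
        constructor
        · rintro ⟨h3, h4⟩; exact ⟨h3, Or.inr h4⟩
        · rintro ⟨h3, h4 | h4⟩
          · exact absurd (h4 ▸ h3) h
          · exact ⟨h3, h4⟩
  rw [h1 pr hnd]
  congr 1
  exact filter_true_of_mem hS

/-- the code of a residue -/
def code (m : ℕ) (pr : List ℕ) (x : ℕ) : ℕ :=
  let n := m / Nat.gcd x m
  if n % 2 = 0 then 0 else codeL pr n

lemma code_lt (m : ℕ) (pr : List ℕ) (x : ℕ) : code m pr x < 2 ^ pr.length := by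
  unfold code
  dsimp only
  split_ifs
  · positivity
  · exact codeL_lt _ _

variable {m : ℕ} [NeZero m]

lemma code_eq_of_order {pr : List ℕ} {a b : ZMod m} (h : addOrderOf a = addOrderOf b) :
    code m pr a.val = code m pr b.val := by
  unfold code
  rw [← addOrderOf_eq, ← addOrderOf_eq, h]

lemma supp_iff {pr : List ℕ} (hpr : ∀ q ∈ pr, q.Prime ∧ q ≠ 2)
    (hm : ∀ q, q.Prime → q ∣ m → q = 2 ∨ q ∈ pr) {S : Finset ℕ} (hS : ∀ q ∈ S, q ∈ pr)
    (hne : S.Nonempty) (h2 : 2 ∉ S) (a : ZMod m) :
    Supp S a ↔ code m pr a.val = cdL pr S := by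
  unfold Supp code
  dsimp only
  rw [← addOrderOf_eq]
  set n := addOrderOf a with hn
  have hn0 : n ≠ 0 := (addOrderOf_pos a).ne'
  have hnm : n ∣ m := addOrderOf_dvd_level a
  by_cases heven : n % 2 = 0
  · rw [if_pos heven]
    constructor
    · intro h
      exfalso
      apply h2
      rw [← h]
      exact Nat.mem_primeFactors.mpr ⟨Nat.prime_two, Nat.dvd_of_mod_eq_zero heven, hn0⟩
    · intro h
      exact absurd h.symm (cdL_ne_zero hS hne)
  · rw [if_neg heven, codeL_eq_iff]
    constructor
    · intro h q hq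
      rw [← h, Nat.mem_primeFactors]
      exact ⟨fun h3 => ⟨(hpr q hq).1, h3, hn0⟩, fun h3 => h3.2.1⟩
    · intro h
      ext q
      rw [Nat.mem_primeFactors]
      constructor
      · rintro ⟨hq, hqn, _⟩
        rcases hm q hq (hqn.trans hnm) with rfl | h3
        · exact absurd (Nat.mod_eq_zero_of_dvd hqn) heven
        · exact (h q h3).mp hqn
      · intro hq
        have h3 := hS q hq
        exact ⟨(hpr q h3).1, (h q h3).mpr hq, hn0⟩

/-- the parity mask of a list of residues -/
def pmN (m : ℕ) (pr : List ℕ) : List ℕ → ℕ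
  | [] => 0
  | x :: L => 2 ^ code m pr x ^^^ pmN m pr L

lemma pmN_append (pr : List ℕ) (A B : List ℕ) :
    pmN m pr (A ++ B) = pmN m pr A ^^^ pmN m pr B := by
  induction A with
  | nil => simp [pmN]
  | cons x A ih => rw [List.cons_append, pmN, pmN, ih, Nat.xor_assoc]

lemma pmN_lt (pr : List ℕ) (L : List ℕ) : pmN m pr L < 2 ^ 2 ^ pr.length := by
  induction L with
  | nil => simp [pmN]
  | cons x L ih =>
    rw [pmN]
    exact Nat.xor_lt_two_pow (Nat.pow_lt_pow_right (by norm_num) (code_lt _ _ _)) ih

lemma pmN_testBit (pr : List ℕ) (L : List ℕ) (c : ℕ) :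
    (pmN m pr L).testBit c = decide ((L.countP fun x => code m pr x = c) % 2 = 1) := by
  induction L with
  | nil => simp [pmN]
  | cons x L ih =>
    rw [pmN, Nat.testBit_xor, ih, List.countP_cons, Nat.testBit_two_pow]
    by_cases h : code m pr x = c
    · simp only [h, decide_true, if_true]
      rcases Nat.mod_two_eq_zero_or_one (L.countP fun x => code m pr x = c) with h1 | h1
      · have h2 : ((L.countP fun x => code m pr x = c) + 1) % 2 = 1 := by omega
        simp [h1, h2]
      · have h2 : ((L.countP fun x => code m pr x = c) + 1) % 2 = 0 := by omega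
        simp [h1, h2]
    · simp [h]

/-- the pairing of masks -/
def dot (L : ℕ) : List ℕ → ℕ → Bool
  | [], _ => false
  | c :: cs, n => (L.testBit c && n.testBit c) ^^ dot L cs n

lemma dot_xor (L : ℕ) (cs : List ℕ) (a b : ℕ) :
    dot L cs (a ^^^ b) = (dot L cs a ^^ dot L cs b) := by
  induction cs with
  | nil => simp [dot]
  | cons c cs ih =>
    rw [dot, dot, dot, ih, Nat.testBit_xor]
    cases L.testBit c <;> cases a.testBit c <;> cases b.testBit c <;> cases dot L cs a <;>
      cases dot L cs b <;> rfl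

lemma dot_zero (L : ℕ) (cs : List ℕ) : dot L cs 0 = false := by
  induction cs with
  | nil => rfl
  | cons c cs ih => rw [dot, ih]; simp

lemma dot_two_pow (L : ℕ) {cs : List ℕ} (hnd : cs.Nodup) (c : ℕ) :
    dot L cs (2 ^ c) = (decide (c ∈ cs) && L.testBit c) := by
  induction cs with
  | nil => simp [dot]
  | cons a cs ih =>
    rw [List.nodup_cons] at hnd
    rw [dot, ih hnd.2, Nat.testBit_two_pow]
    by_cases h : c = a
    · subst h
      simp [hnd.1]
    · simp [h]

lemma dot_pmN (L : ℕ) (pr : List ℕ) (A : List ℕ) :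
    dot L (List.range (2 ^ pr.length)) (pmN m pr A) =
      decide ((A.map fun x => if L.testBit (code m pr x) then 1 else 0).sum % 2 = 1) := by
  induction A with
  | nil => simp [pmN, dot_zero]
  | cons x A ih =>
    rw [pmN, dot_xor, ih, dot_two_pow L List.nodup_range, List.map_cons, List.sum_cons]
    have h1 : decide (code m pr x ∈ List.range (2 ^ pr.length)) = true := by
      rw [decide_eq_true_eq, List.mem_range]
      exact code_lt _ _ _
    rw [h1, Bool.true_and]
    set y := (A.map fun x => if L.testBit (code m pr x) then 1 else 0).sum with hy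
    cases h2 : L.testBit (code m pr x)
    · simp
    · rcases Nat.mod_two_eq_zero_or_one y with h3 | h3
      · have h4 : (1 + y) % 2 = 1 := by omega
        simp [h3, h4]
      · have h4 : (1 + y) % 2 = 0 := by omega
        simp [h3, h4]

end Pool.Agent.N993.CP
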