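import Pool.Agent.N993.CP.Entry

/-!
The table of the entries for the degrees up to 86.
-/

namespace Pool.Agent.N993.CP

open Pool.Agent.Y2.Cv

/-- degree 3 -/
def t3 : List Ent := [
  ⟨3, 2, 2, [3], [], [], 0⟩]

/-- degree 4 -/
def t4 : List Ent := [
  ⟨4, 3, 2, [], [], [], 0⟩]

/-- degree 5 -/
def t5 : List Ent := [
  ⟨5, 2, 4, [5], [], [], 0⟩,
  ⟨5, 3, 4, [5], [], [], 0⟩,
  ⟨5, 4, 2, [5], [], [], 0⟩]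

/-- degree 6 -/
def t6 : List Ent := [
  ⟨6, 5, 2, [3], [], [], 0⟩]

/-- degree 7 -/
def t7 : List Ent := [
  ⟨7, 6, 2, [7], [], [], 0⟩]

/-- degree 8 -/
def t8 : List Ent := [
  ⟨8, 3, 2, [], [], [], 0⟩,
  ⟨8, 5, 2, [], [], [], 0⟩,
  ⟨8, 7, 2, [], [], [], 0⟩]

/-- degree 9 -/
def t9 : List Ent := [
  ⟨9, 8, 2, [3], [], [], 0⟩]

/-- degree 10 -/
def t10 : List Ent := [
  ⟨10, 3, 4, [5], [], [], 0⟩,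
  ⟨10, 7, 4, [5], [], [], 0⟩,
  ⟨10, 9, 2, [5], [], [], 0⟩]

/-- degree 11 -/
def t11 : List Ent := [
  ⟨11, 10, 2, [11], [], [], 0⟩]

/-- degree 12 -/
def t12 : List Ent := [
  ⟨12, 5, 2, [3], [], [], 0⟩,
  ⟨12, 7, 2, [3], [], [.surf [2, 3, 11, 8]], 2⟩,
  ⟨12, 11, 2, [3], [], [], 0⟩]

/-- degree 13 -/
def t13 : List Ent := [
  ⟨13, 5, 4, [13], [], [], 0⟩,
  ⟨13, 8, 4, [13], [], [], 0⟩,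
  ⟨13, 12, 2, [13], [], [], 0⟩]

/-- degree 14 -/
def t14 : List Ent := [
  ⟨14, 13, 2, [7], [], [], 0⟩]

/-- degree 15 -/
def t15 : List Ent := [
  ⟨15, 2, 4, [3, 5], [(8, 1, [(1, 1)]), (1, 0, [])], [], 8⟩,
  ⟨15, 4, 2, [3, 5], [(8, 1, [(1, 1), (2, 1)]), (1, 0, [])], [.surf [2, 5, 14, 9]], 10⟩,
  ⟨15, 7, 4, [3, 5], [(8, 1, [(1, 1)]), (1, 0, [])], [.surf [5, 12, 14, 14]], 10⟩,
  ⟨15, 8, 4, [3, 5], [(8, 1, [(1, 1)]), (1, 0, [])], [], 8⟩,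
  ⟨15, 11, 2, [3, 5], [(8, 1, [(1, 1), (2, 1)]), (1, 0, [])], [.surf [2, 5, 14, 9]], 12⟩,
  ⟨15, 13, 4, [3, 5], [(8, 1, [(1, 1)]), (1, 0, [])], [.surf [5, 12, 14, 14]], 10⟩,
  ⟨15, 14, 2, [3, 5], [], [], 0⟩]

/-- degree 16 -/
def t16 : List Ent := [
  ⟨16, 3, 4, [], [], [], 0⟩,
  ⟨16, 5, 4, [], [], [], 0⟩,
  ⟨16, 7, 2, [], [], [], 0⟩,
  ⟨16, 9, 2, [], [], [], 0⟩,
  ⟨16, 11, 4, [], [], [], 0⟩,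
  ⟨16, 13, 4, [], [], [], 0⟩,
  ⟨16, 15, 2, [], [], [], 0⟩]

/-- degree 17 -/
def t17 : List Ent := [
  ⟨17, 2, 8, [17], [], [], 0⟩,
  ⟨17, 3, 16, [17], [], [], 0⟩,
  ⟨17, 4, 4, [17], [], [], 0⟩,
  ⟨17, 5, 16, [17], [], [], 0⟩,
  ⟨17, 6, 16, [17], [], [], 0⟩,
  ⟨17, 7, 16, [17], [], [], 0⟩,
  ⟨17, 8, 8, [17], [], [], 0⟩,
  ⟨17, 9, 8, [17], [], [], 0⟩,
  ⟨17, 10, 16, [17], [], [], 0⟩,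
  ⟨17, 11, 16, [17], [], [], 0⟩,
  ⟨17, 12, 16, [17], [], [], 0⟩,
  ⟨17, 13, 4, [17], [], [], 0⟩,
  ⟨17, 14, 16, [17], [], [], 0⟩,
  ⟨17, 15, 8, [17], [], [], 0⟩,
  ⟨17, 16, 2, [17], [], [], 0⟩]

/-- degree 18 -/
def t18 : List Ent := [
  ⟨18, 17, 2, [3], [], [], 0⟩]

/-- degree 19 -/
def t19 : List Ent := [
  ⟨19, 18, 2, [19], [], [], 0⟩]

/-- degree 20 -/
def t20 : List Ent := [
  ⟨20, 3, 4, [5], [], [], 0⟩,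
  ⟨20, 7, 4, [5], [], [], 0⟩,
  ⟨20, 9, 2, [5], [], [], 0⟩,
  ⟨20, 11, 2, [5], [], [.surf [2, 3, 19, 16]], 2⟩,
  ⟨20, 13, 4, [5], [], [], 0⟩,
  ⟨20, 17, 4, [5], [], [], 0⟩,
  ⟨20, 19, 2, [5], [], [], 0⟩]

/-- degree 21 -/
def t21 : List Ent := [
  ⟨21, 8, 2, [3, 7], [(12, 1, [(1, 1), (2, 1), (4, 1)]), (1, 0, [])], [.surf [2, 3, 20, 17]], 12⟩,
  ⟨21, 13, 2, [3, 7], [(2, 1, [(1, 1), (2, 1), (4, 1)]), (1, 0, [])], [.surf [2, 3, 20, 17]], 10⟩,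
  ⟨21, 20, 2, [3, 7], [], [], 0⟩]

/-- degree 22 -/
def t22 : List Ent := [
  ⟨22, 21, 2, [11], [], [], 0⟩]

/-- degree 23 -/
def t23 : List Ent := [
  ⟨23, 22, 2, [23], [], [], 0⟩]

/-- degree 24 -/
def t24 : List Ent := [
  ⟨24, 5, 2, [3], [], [], 0⟩,
  ⟨24, 7, 2, [3], [], [.surf [2, 7, 23, 16]], 2⟩,
  ⟨24, 11, 2, [3], [], [], 0⟩,
  ⟨24, 13, 2, [3], [], [.surf [2, 7, 23, 16]], 2⟩,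
  ⟨24, 17, 2, [3], [], [], 0⟩,
  ⟨24, 19, 2, [3], [], [.surf [8, 18, 23, 23]], 2⟩,
  ⟨24, 23, 2, [3], [], [], 0⟩]

/-- degree 25 -/
def t25 : List Ent := [
  ⟨25, 7, 4, [5], [], [], 0⟩,
  ⟨25, 18, 4, [5], [], [], 0⟩,
  ⟨25, 24, 2, [5], [], [], 0⟩]

/-- degree 26 -/
def t26 : List Ent := [
  ⟨26, 5, 4, [13], [], [], 0⟩,
  ⟨26, 21, 4, [13], [], [], 0⟩,
  ⟨26, 25, 2, [13], [], [], 0⟩]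

/-- degree 27 -/
def t27 : List Ent := [
  ⟨27, 26, 2, [3], [], [], 0⟩]

/-- degree 28 -/
def t28 : List Ent := [
  ⟨28, 13, 2, [7], [], [], 0⟩,
  ⟨28, 15, 2, [7], [(2, 3, [(1, 1), (3, 1), (5, 1)])], [], 2⟩,
  ⟨28, 27, 2, [7], [], [], 0⟩]

/-- degree 29 -/
def t29 : List Ent := [
  ⟨29, 12, 4, [29], [], [], 0⟩,
  ⟨29, 17, 4, [29], [], [], 0⟩,
  ⟨29, 28, 2, [29], [], [], 0⟩]

/-- degree 30 -/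
def t30 : List Ent := [
  ⟨30, 7, 4, [3, 5], [(8, 2, [(1, 1)])], [.surf [10, 24, 29, 27]], 10⟩,
  ⟨30, 11, 2, [3, 5], [(8, 2, [(1, 1), (7, 1)])], [.surf [5, 6, 29, 20]], 12⟩,
  ⟨30, 13, 4, [3, 5], [(8, 2, [(1, 1)])], [.surf [10, 24, 29, 27]], 10⟩,
  ⟨30, 17, 4, [3, 5], [(8, 2, [(1, 1)])], [], 8⟩,
  ⟨30, 19, 2, [3, 5], [(8, 2, [(1, 1), (7, 1)])], [.surf [10, 24, 29, 27]], 10⟩,
  ⟨30, 23, 4, [3, 5], [(8, 2, [(1, 1)])], [], 8⟩,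
  ⟨30, 29, 2, [3, 5], [], [], 0⟩]

/-- degree 31 -/
def t31 : List Ent := [
  ⟨31, 30, 2, [31], [], [], 0⟩]

/-- degree 32 -/
def t32 : List Ent := [
  ⟨32, 3, 8, [], [], [], 0⟩,
  ⟨32, 5, 8, [], [], [], 0⟩,
  ⟨32, 7, 4, [], [], [], 0⟩,
  ⟨32, 9, 4, [], [], [], 0⟩,
  ⟨32, 11, 8, [], [], [], 0⟩,
  ⟨32, 13, 8, [], [], [], 0⟩,
  ⟨32, 15, 2, [], [], [], 0⟩,
  ⟨32, 17, 2, [], [], [], 0⟩,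
  ⟨32, 19, 8, [], [], [], 0⟩,
  ⟨32, 21, 8, [], [], [], 0⟩,
  ⟨32, 23, 4, [], [], [], 0⟩,
  ⟨32, 25, 4, [], [], [], 0⟩,
  ⟨32, 27, 8, [], [], [], 0⟩,
  ⟨32, 29, 8, [], [], [], 0⟩,
  ⟨32, 31, 2, [], [], [], 0⟩]

/-- degree 33 -/
def t33 : List Ent := [
  ⟨33, 10, 2, [3, 11], [(10, 1, [(1, 1), (2, 1), (4, 1), (5, 1), (8, 1)]), (1, 0, [])],
    [.hodge [6, 11, 14, 15, 17, 20, 23, 26]], 10⟩,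
  ⟨33, 23, 2, [3, 11], [(4, 1, [(1, 1), (2, 1), (4, 1), (5, 1), (8, 1)]), (1, 0, [])],
    [.hodge [6, 11, 14, 15, 17, 20, 23, 26]], 12⟩,
  ⟨33, 32, 2, [3, 11], [], [], 0⟩]

/-- degree 34 -/
def t34 : List Ent := [
  ⟨34, 3, 16, [17], [], [], 0⟩,
  ⟨34, 5, 16, [17], [], [], 0⟩,
  ⟨34, 7, 16, [17], [], [], 0⟩,
  ⟨34, 9, 8, [17], [], [], 0⟩,
  ⟨34, 11, 16, [17], [], [], 0⟩,
  ⟨34, 13, 4, [17], [], [], 0⟩,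
  ⟨34, 15, 8, [17], [], [], 0⟩,
  ⟨34, 19, 8, [17], [], [], 0⟩,
  ⟨34, 21, 4, [17], [], [], 0⟩,
  ⟨34, 23, 16, [17], [], [], 0⟩,
  ⟨34, 25, 8, [17], [], [], 0⟩,
  ⟨34, 27, 16, [17], [], [], 0⟩,
  ⟨34, 29, 16, [17], [], [], 0⟩,
  ⟨34, 31, 16, [17], [], [], 0⟩,
  ⟨34, 33, 2, [17], [], [], 0⟩]

/-- degree 35 -/
def t35 : List Ent := [
  ⟨35, 6, 2, [5, 7], [(8, 1, [(1, 1), (2, 1), (3, 1), (4, 1), (8, 1), (9, 1)]), (1, 0, [])],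
    [.hodge [7, 10, 12, 17, 19, 22, 24, 29]], 10⟩,
  ⟨35, 8, 4, [5, 7], [(8, 1, [(1, 1), (2, 1), (3, 1)]), (1, 0, [])], [.hodge [7, 10, 12, 17, 19,
    22, 24, 29]], 12⟩,
  ⟨35, 13, 4, [5, 7], [(8, 1, [(1, 1), (2, 1), (3, 1)]), (1, 0, [])], [], 8⟩,
  ⟨35, 22, 4, [5, 7], [(8, 1, [(1, 1), (2, 1), (3, 1)]), (1, 0, [])], [.hodge [7, 10, 12, 17, 19,
    22, 24, 29]], 12⟩,
  ⟨35, 27, 4, [5, 7], [(8, 1, [(1, 1), (2, 1), (3, 1)]), (1, 0, [])], [], 8⟩,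
  ⟨35, 29, 2, [5, 7], [(8, 1, [(1, 1), (2, 1), (3, 1), (4, 1), (8, 1), (9, 1)]), (1, 0, [])],
    [.hodge [7, 10, 12, 17, 19, 22, 24, 29]], 12⟩,
  ⟨35, 34, 2, [5, 7], [], [], 0⟩]

/-- degree 36 -/
def t36 : List Ent := [
  ⟨36, 17, 2, [3], [], [], 0⟩,
  ⟨36, 19, 2, [3], [], [.surf [3, 8, 34, 27]], 2⟩,
  ⟨36, 35, 2, [3], [], [], 0⟩]

/-- degree 37 -/
def t37 : List Ent := [
  ⟨37, 6, 4, [37], [], [], 0⟩,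
  ⟨37, 31, 4, [37], [], [], 0⟩,
  ⟨37, 36, 2, [37], [], [], 0⟩]

/-- degree 38 -/
def t38 : List Ent := [
  ⟨38, 37, 2, [19], [], [], 0⟩]

/-- degree 39 -/
def t39 : List Ent := [
  ⟨39, 5, 4, [3, 13], [(8, 2, [(1, 1), (2, 1), (4, 1)]), (1, 0, [])], [], 8⟩,
  ⟨39, 8, 4, [3, 13], [(8, 2, [(1, 1), (2, 1), (4, 1)]), (1, 0, [])], [], 8⟩,
  ⟨39, 14, 2, [3, 13], [(4, 1, [(2, 1), (5, 1), (7, 1)]), (1, 0, [])], [.surf [4, 10, 38, 26]], 12⟩,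
  ⟨39, 25, 2, [3, 13], [(8, 2, [(1, 1), (2, 1), (4, 1), (5, 1), (7, 3), (10, 1)]), (2, 2, [(1,
    1), (2, 3), (4, 1), (5, 3), (7, 1), (10, 1)]), (1, 0, [])], [], 10⟩,
  ⟨39, 31, 4, [3, 13], [(2, 2, [(1, 1), (2, 3), (4, 1)]), (1, 0, [])], [.surf [11, 32, 38, 36]],
    10⟩,
  ⟨39, 34, 4, [3, 13], [(2, 2, [(1, 1), (2, 3), (4, 1)]), (1, 0, [])], [.surf [11, 32, 38, 36]],
    10⟩,
  ⟨39, 38, 2, [3, 13], [], [], 0⟩]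

/-- degree 40 -/
def t40 : List Ent := [
  ⟨40, 3, 4, [5], [], [], 0⟩,
  ⟨40, 7, 4, [5], [], [], 0⟩,
  ⟨40, 9, 2, [5], [], [], 0⟩,
  ⟨40, 11, 2, [5], [], [.surf [6, 16, 39, 19]], 2⟩,
  ⟨40, 13, 4, [5], [], [], 0⟩,
  ⟨40, 17, 4, [5], [], [], 0⟩,
  ⟨40, 19, 2, [5], [], [], 0⟩,
  ⟨40, 21, 2, [5], [], [.surf [6, 16, 39, 19]], 2⟩,
  ⟨40, 23, 4, [5], [], [], 0⟩,
  ⟨40, 27, 4, [5], [], [], 0⟩,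
  ⟨40, 29, 2, [5], [], [], 0⟩,
  ⟨40, 31, 2, [5], [], [.surf [6, 16, 39, 19]], 2⟩,
  ⟨40, 33, 4, [5], [], [], 0⟩,
  ⟨40, 37, 4, [5], [], [], 0⟩,
  ⟨40, 39, 2, [5], [], [], 0⟩]

/-- degree 41 -/
def t41 : List Ent := [
  ⟨41, 3, 8, [41], [], [], 0⟩,
  ⟨41, 9, 4, [41], [], [], 0⟩,
  ⟨41, 14, 8, [41], [], [], 0⟩,
  ⟨41, 27, 8, [41], [], [], 0⟩,
  ⟨41, 32, 4, [41], [], [], 0⟩,
  ⟨41, 38, 8, [41], [], [], 0⟩,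
  ⟨41, 40, 2, [41], [], [], 0⟩]

/-- degree 42 -/
def t42 : List Ent := [
  ⟨42, 13, 2, [3, 7], [(2, 2, [(1, 1), (5, 1), (11, 1)])], [.surf [10, 36, 41, 39]], 10⟩,
  ⟨42, 29, 2, [3, 7], [(12, 2, [(1, 1), (5, 1), (11, 1)])], [.surf [12, 35, 41, 38]], 12⟩,
  ⟨42, 41, 2, [3, 7], [], [], 0⟩]

/-- degree 43 -/
def t43 : List Ent := [
  ⟨43, 42, 2, [43], [], [], 0⟩]

/-- degree 44 -/
def t44 : List Ent := [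
  ⟨44, 21, 2, [11], [], [], 0⟩,
  ⟨44, 23, 2, [11], [], [.hodge [8, 11, 15, 19, 22, 23, 24, 27, 31, 40]], 2⟩,
  ⟨44, 43, 2, [11], [], [], 0⟩]

/-- degree 45 -/
def t45 : List Ent := [
  ⟨45, 8, 4, [3, 5], [(8, 1, [(1, 1), (2, 1), (4, 1)]), (1, 0, [])], [], 8⟩,
  ⟨45, 17, 4, [3, 5], [(8, 1, [(1, 1), (2, 1), (4, 1)]), (1, 0, [])], [], 8⟩,
  ⟨45, 19, 2, [3, 5], [(8, 1, [(1, 1), (2, 1), (4, 1), (8, 1), (11, 1), (13, 1)]), (1, 0, [])],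
    [.surf [6, 15, 42, 27]], 10⟩,
  ⟨45, 26, 2, [3, 5], [(8, 1, [(1, 1), (2, 1), (4, 1), (8, 1), (11, 1), (13, 1)]), (1, 0, [])],
    [.surf [6, 15, 42, 27]], 12⟩,
  ⟨45, 28, 4, [3, 5], [(8, 1, [(1, 1), (2, 1), (4, 1)]), (1, 0, [])], [.surf [15, 36, 42, 42]], 10⟩,
  ⟨45, 37, 4, [3, 5], [(8, 1, [(1, 1), (2, 1), (4, 1)]), (1, 0, [])], [.surf [15, 36, 42, 42]], 10⟩,
  ⟨45, 44, 2, [3, 5], [], [], 0⟩]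

/-- degree 46 -/
def t46 : List Ent := [
  ⟨46, 45, 2, [23], [], [], 0⟩]

/-- degree 47 -/
def t47 : List Ent := [
  ⟨47, 46, 2, [47], [], [], 0⟩]

/-- degree 48 -/
def t48 : List Ent := [
  ⟨48, 5, 4, [3], [], [], 0⟩,
  ⟨48, 7, 2, [3], [], [.surf [10, 16, 47, 23]], 2⟩,
  ⟨48, 11, 4, [3], [], [], 0⟩,
  ⟨48, 13, 4, [3], [], [.surf [16, 34, 47, 47]], 2⟩,
  ⟨48, 17, 2, [3], [], [], 0⟩,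
  ⟨48, 19, 4, [3], [], [.surf [16, 34, 47, 47]], 2⟩,
  ⟨48, 23, 2, [3], [], [], 0⟩,
  ⟨48, 25, 2, [3], [], [.surf [10, 16, 47, 23]], 2⟩,
  ⟨48, 29, 4, [3], [], [], 0⟩,
  ⟨48, 31, 2, [3], [], [.surf [10, 16, 47, 23]], 2⟩,
  ⟨48, 35, 4, [3], [], [], 0⟩,
  ⟨48, 37, 4, [3], [], [.surf [16, 34, 47, 47]], 2⟩,
  ⟨48, 41, 2, [3], [], [], 0⟩,
  ⟨48, 43, 4, [3], [], [.surf [16, 34, 47, 47]], 2⟩,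
  ⟨48, 47, 2, [3], [], [], 0⟩]

/-- degree 49 -/
def t49 : List Ent := [
  ⟨49, 48, 2, [7], [], [], 0⟩]

/-- degree 50 -/
def t50 : List Ent := [
  ⟨50, 7, 4, [5], [], [], 0⟩,
  ⟨50, 43, 4, [5], [], [], 0⟩,
  ⟨50, 49, 2, [5], [], [], 0⟩]

/-- degree 51 -/
def t51 : List Ent := [
  ⟨51, 2, 8, [3, 17], [(8, 1, [(1, 1), (5, 1)]), (1, 0, [])], [], 8⟩,
  ⟨51, 4, 4, [3, 17], [(8, 1, [(1, 1), (2, 1), (5, 1), (7, 1)]), (1, 0, [])], [.hodge [6, 15, 17,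
    20, 23, 24, 26, 29, 32, 35, 38, 41]], 10⟩,
  ⟨51, 5, 16, [3, 17], [(8, 1, [(1, 1)]), (1, 0, [])], [], 8⟩,
  ⟨51, 7, 16, [3, 17], [(8, 1, [(1, 1)]), (1, 0, [])], [.hodge [6, 15, 17, 20, 23, 24, 26, 29,
    32, 35, 38, 41]], 10⟩,
  ⟨51, 8, 8, [3, 17], [(8, 1, [(1, 1), (5, 1)]), (1, 0, [])], [], 8⟩,
  ⟨51, 10, 16, [3, 17], [(8, 1, [(1, 1)]), (1, 0, [])], [.hodge [6, 15, 17, 20, 23, 24, 26, 29,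
    32, 35, 38, 41]], 10⟩,
  ⟨51, 11, 16, [3, 17], [(8, 1, [(1, 1)]), (1, 0, [])], [], 8⟩,
  ⟨51, 13, 4, [3, 17], [(8, 1, [(1, 1), (2, 1), (5, 1), (7, 1)]), (1, 0, [])], [.hodge [6, 15,
    17, 20, 23, 24, 26, 29, 32, 35, 38, 41]], 10⟩,
  ⟨51, 14, 16, [3, 17], [(8, 1, [(1, 1)]), (1, 0, [])], [], 8⟩,
  ⟨51, 16, 2, [3, 17], [(8, 1, [(1, 1), (2, 1), (4, 1), (5, 1), (7, 1), (8, 1), (11, 1), (14,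
    1)]), (1, 0, [])], [.hodge [6, 15, 17, 20, 23, 24, 26, 29, 32, 35, 38, 41]], 10⟩,
  ⟨51, 19, 8, [3, 17], [(8, 1, [(1, 1), (5, 1)]), (1, 0, [])], [.hodge [6, 15, 17, 20, 23, 24,
    26, 29, 32, 35, 38, 41]], 10⟩,
  ⟨51, 20, 16, [3, 17], [(8, 1, [(1, 1)]), (1, 0, [])], [], 8⟩,
  ⟨51, 22, 16, [3, 17], [(8, 1, [(1, 1)]), (1, 0, [])], [.hodge [6, 15, 17, 20, 23, 24, 26, 29,
    32, 35, 38, 41]], 10⟩,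
  ⟨51, 23, 16, [3, 17], [(8, 1, [(1, 1)]), (1, 0, [])], [], 8⟩,
  ⟨51, 25, 8, [3, 17], [(8, 1, [(1, 1), (5, 1)]), (1, 0, [])], [.hodge [6, 15, 17, 20, 23, 24,
    26, 29, 32, 35, 38, 41]], 10⟩,
  ⟨51, 26, 8, [3, 17], [(8, 1, [(1, 1), (5, 1)]), (1, 0, [])], [], 8⟩,
  ⟨51, 28, 16, [3, 17], [(8, 1, [(1, 1)]), (1, 0, [])], [.hodge [6, 15, 17, 20, 23, 24, 26, 29,
    32, 35, 38, 41]], 10⟩,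
  ⟨51, 29, 16, [3, 17], [(8, 1, [(1, 1)]), (1, 0, [])], [], 8⟩,
  ⟨51, 31, 16, [3, 17], [(8, 1, [(1, 1)]), (1, 0, [])], [.hodge [6, 15, 17, 20, 23, 24, 26, 29,
    32, 35, 38, 41]], 10⟩,
  ⟨51, 32, 8, [3, 17], [(8, 1, [(1, 1), (5, 1)]), (1, 0, [])], [], 8⟩,
  ⟨51, 35, 2, [3, 17], [(8, 1, [(1, 1), (2, 1), (4, 1), (5, 1), (7, 1), (8, 1), (11, 1), (14,
    1)]), (1, 0, [])], [.hodge [6, 15, 17, 20, 23, 24, 26, 29, 32, 35, 38, 41]], 12⟩,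
  ⟨51, 37, 16, [3, 17], [(8, 1, [(1, 1)]), (1, 0, [])], [.hodge [6, 15, 17, 20, 23, 24, 26, 29,
    32, 35, 38, 41]], 10⟩,
  ⟨51, 38, 4, [3, 17], [(8, 1, [(1, 1), (2, 1), (5, 1), (7, 1)]), (1, 0, [])], [], 8⟩,
  ⟨51, 40, 16, [3, 17], [(8, 1, [(1, 1)]), (1, 0, [])], [.hodge [6, 15, 17, 20, 23, 24, 26, 29,
    32, 35, 38, 41]], 10⟩,
  ⟨51, 41, 16, [3, 17], [(8, 1, [(1, 1)]), (1, 0, [])], [], 8⟩,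
  ⟨51, 43, 8, [3, 17], [(8, 1, [(1, 1), (5, 1)]), (1, 0, [])], [.hodge [6, 15, 17, 20, 23, 24,
    26, 29, 32, 35, 38, 41]], 10⟩,
  ⟨51, 44, 16, [3, 17], [(8, 1, [(1, 1)]), (1, 0, [])], [], 8⟩,
  ⟨51, 46, 16, [3, 17], [(8, 1, [(1, 1)]), (1, 0, [])], [.hodge [6, 15, 17, 20, 23, 24, 26, 29,
    32, 35, 38, 41]], 10⟩,
  ⟨51, 47, 4, [3, 17], [(8, 1, [(1, 1), (2, 1), (5, 1), (7, 1)]), (1, 0, [])], [], 8⟩,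
  ⟨51, 49, 8, [3, 17], [(8, 1, [(1, 1), (5, 1)]), (1, 0, [])], [.hodge [6, 15, 17, 20, 23, 24,
    26, 29, 32, 35, 38, 41]], 10⟩,
  ⟨51, 50, 2, [3, 17], [], [], 0⟩]

/-- degree 52 -/
def t52 : List Ent := [
  ⟨52, 5, 4, [13], [], [], 0⟩,
  ⟨52, 21, 4, [13], [], [], 0⟩,
  ⟨52, 25, 2, [13], [], [], 0⟩,
  ⟨52, 27, 2, [13], [], [.hodge [8, 17, 21, 24, 25, 26, 29, 33, 37, 40]], 2⟩,
  ⟨52, 31, 4, [13], [], [], 0⟩,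
  ⟨52, 47, 4, [13], [], [], 0⟩,
  ⟨52, 51, 2, [13], [], [], 0⟩]

/-- degree 53 -/
def t53 : List Ent := [
  ⟨53, 23, 4, [53], [], [], 0⟩,
  ⟨53, 30, 4, [53], [], [], 0⟩,
  ⟨53, 52, 2, [53], [], [], 0⟩]

/-- degree 54 -/
def t54 : List Ent := [
  ⟨54, 53, 2, [3], [], [], 0⟩]

/-- degree 55 -/
def t55 : List Ent := [
  ⟨55, 12, 4, [5, 11], [(4, 2, [(1, 3), (2, 1), (3, 3), (4, 3), (6, 1)]), (1, 0, [])],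
    [.five ⟨![1, 2, 27, 33, 47], [(2, ![6, 1, 0, 0, 1]), (7, ![0, 4, 0, 0, 1]), (15, ![1, 0, 2,
    0, 0]), (6, ![0, 0, 0, 5, 0]), (3, ![1, 0, 0, 0, 7])], 30⟩ [4, 9, 42]], 12⟩,
  ⟨55, 21, 2, [5, 11], [(2, 1, [(1, 1), (4, 1), (6, 1), (9, 1), (14, 1)]), (1, 0, [])],
    [.five ⟨![1, 5, 8, 43, 53], [(6, ![2, 0, 0, 0, 1]), (1, ![0, 11, 0, 0, 0]), (2, ![0, 0, 3, 2,
    0]), (1, ![0, 1, 0, 5, 0]), (3, ![0, 0, 2, 1, 2])], 12⟩ [18, 38, 54]], 10⟩,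
  ⟨55, 23, 4, [5, 11], [(4, 2, [(1, 3), (2, 1), (3, 3), (4, 3), (6, 1)]), (1, 0, [])],
    [.five ⟨![1, 2, 27, 33, 47], [(2, ![6, 1, 0, 0, 1]), (7, ![0, 4, 0, 0, 1]), (15, ![1, 0, 2,
    0, 0]), (6, ![0, 0, 0, 5, 0]), (3, ![1, 0, 0, 0, 7])], 30⟩ [4, 9, 42]], 12⟩,
  ⟨55, 32, 4, [5, 11], [(8, 2, [(1, 3), (2, 3), (3, 1), (4, 3), (6, 1)]), (1, 0, [])], [], 8⟩,
  ⟨55, 34, 2, [5, 11], [(8, 2, [(1, 1), (2, 1), (3, 3), (4, 1), (6, 3), (7, 1), (9, 1), (12, 3),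
    (14, 1), (17, 1)]), (4, 2, [(1, 3), (2, 1), (3, 3), (4, 3), (6, 1), (7, 1), (9, 3), (12, 3),
    (14, 3), (17, 1)]), (1, 0, [])], [], 12⟩,
  ⟨55, 43, 4, [5, 11], [(8, 2, [(1, 3), (2, 3), (3, 1), (4, 3), (6, 1)]), (1, 0, [])], [], 8⟩,
  ⟨55, 54, 2, [5, 11], [], [], 0⟩]

/-- degree 56 -/
def t56 : List Ent := [
  ⟨56, 13, 2, [7], [], [], 0⟩,
  ⟨56, 15, 2, [7], [(2, 5, [(1, 3), (3, 1), (5, 1), (9, 3), (13, 1), (17, 1)])], [], 2⟩,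
  ⟨56, 27, 2, [7], [], [], 0⟩,
  ⟨56, 29, 2, [7], [(2, 5, [(1, 31), (3, 1), (5, 1), (9, 3), (11, 3), (13, 1)])], [], 2⟩,
  ⟨56, 41, 2, [7], [], [], 0⟩,
  ⟨56, 43, 2, [7], [(2, 5, [(1, 15), (3, 1), (5, 1), (11, 3), (15, 3), (19, 1)])], [], 2⟩,
  ⟨56, 55, 2, [7], [], [], 0⟩]

/-- degree 57 -/
def t57 : List Ent := [
  ⟨57, 20, 2, [3, 19], [(12, 1, [(1, 1), (2, 1), (4, 1), (5, 1), (7, 1), (8, 1), (10, 1), (13,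
    1), (16, 1)]), (1, 0, [])], [.hodge [3, 12, 21, 22, 25, 28, 31, 34, 37, 40, 43, 46]], 12⟩,
  ⟨57, 37, 2, [3, 19], [(2, 1, [(1, 1), (2, 1), (4, 1), (5, 1), (7, 1), (8, 1), (10, 1), (13, 1),
    (16, 1)]), (1, 0, [])], [.hodge [3, 12, 21, 22, 25, 28, 31, 34, 37, 40, 43, 46]], 10⟩,
  ⟨57, 56, 2, [3, 19], [], [], 0⟩]

/-- degree 58 -/
def t58 : List Ent := [
  ⟨58, 17, 4, [29], [], [], 0⟩,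
  ⟨58, 41, 4, [29], [], [], 0⟩,
  ⟨58, 57, 2, [29], [], [], 0⟩]

/-- degree 59 -/
def t59 : List Ent := [
  ⟨59, 58, 2, [59], [], [], 0⟩]

/-- degree 60 -/
def t60 : List Ent := [
  ⟨60, 7, 4, [3, 5], [], [.surf [20, 42, 59, 59], .surf [28, 35, 59, 58]], 10⟩,
  ⟨60, 11, 2, [3, 5], [], [.surf [2, 11, 59, 48], .surf [3, 4, 58, 55]], 12⟩,
  ⟨60, 13, 4, [3, 5], [], [.surf [20, 42, 59, 59], .surf [12, 52, 59, 57]], 10⟩,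
  ⟨60, 17, 4, [3, 5], [(8, 4, [(1, 3), (13, 1)])], [], 8⟩,
  ⟨60, 19, 2, [3, 5], [(8, 4, [(1, 1), (7, 3), (11, 3), (17, 1)])], [.surf [2, 19, 59, 40]], 10⟩,
  ⟨60, 23, 4, [3, 5], [(8, 4, [(1, 3), (7, 1)])], [], 8⟩,
  ⟨60, 29, 2, [3, 5], [], [], 0⟩,
  ⟨60, 31, 2, [3, 5], [(8, 4, [(1, 3), (7, 1), (11, 1), (13, 1)])], [.surf [2, 11, 59, 48],
    .surf [2, 19, 59, 40]], 14⟩,
  ⟨60, 37, 4, [3, 5], [], [.surf [20, 42, 59, 59], .surf [12, 52, 59, 57]], 10⟩,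
  ⟨60, 41, 2, [3, 5], [], [.surf [12, 50, 59, 59], .surf [18, 47, 59, 56]], 12⟩,
  ⟨60, 43, 4, [3, 5], [], [.surf [20, 42, 59, 59], .surf [28, 35, 59, 58]], 10⟩,
  ⟨60, 47, 4, [3, 5], [(8, 4, [(1, 3), (7, 1)])], [], 8⟩,
  ⟨60, 49, 2, [3, 5], [(8, 4, [(1, 9), (7, 3), (13, 3), (19, 1)])], [.surf [20, 42, 59, 59]], 10⟩,
  ⟨60, 53, 4, [3, 5], [(8, 4, [(1, 3), (13, 1)])], [], 8⟩,
  ⟨60, 59, 2, [3, 5], [], [], 0⟩]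

/-- degree 61 -/
def t61 : List Ent := [
  ⟨61, 11, 4, [61], [], [], 0⟩,
  ⟨61, 50, 4, [61], [], [], 0⟩,
  ⟨61, 60, 2, [61], [], [], 0⟩]

/-- degree 62 -/
def t62 : List Ent := [
  ⟨62, 61, 2, [31], [], [], 0⟩]

/-- degree 63 -/
def t63 : List Ent := [
  ⟨63, 8, 2, [3, 7], [(12, 1, [(1, 1), (2, 1), (4, 1), (5, 1), (10, 1), (11, 1), (13, 1), (19,
    1), (20, 1)]), (1, 0, [])], [.surf [6, 9, 60, 51]], 12⟩,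
  ⟨63, 55, 2, [3, 7], [(2, 1, [(1, 1), (2, 1), (4, 1), (5, 1), (10, 1), (11, 1), (13, 1), (19,
    1), (20, 1)]), (1, 0, [])], [.surf [6, 9, 60, 51]], 10⟩,
  ⟨63, 62, 2, [3, 7], [], [], 0⟩]

/-- degree 64 -/
def t64 : List Ent := [
  ⟨64, 3, 16, [], [], [], 0⟩,
  ⟨64, 5, 16, [], [], [], 0⟩,
  ⟨64, 7, 8, [], [], [], 0⟩,
  ⟨64, 9, 8, [], [], [], 0⟩,
  ⟨64, 11, 16, [], [], [], 0⟩,
  ⟨64, 13, 16, [], [], [], 0⟩,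
  ⟨64, 15, 4, [], [], [], 0⟩,
  ⟨64, 17, 4, [], [], [], 0⟩,
  ⟨64, 19, 16, [], [], [], 0⟩,
  ⟨64, 21, 16, [], [], [], 0⟩,
  ⟨64, 23, 8, [], [], [], 0⟩,
  ⟨64, 25, 8, [], [], [], 0⟩,
  ⟨64, 27, 16, [], [], [], 0⟩,
  ⟨64, 29, 16, [], [], [], 0⟩,
  ⟨64, 31, 2, [], [], [], 0⟩,
  ⟨64, 33, 2, [], [], [], 0⟩,
  ⟨64, 35, 16, [], [], [], 0⟩,
  ⟨64, 37, 16, [], [], [], 0⟩,
  ⟨64, 39, 8, [], [], [], 0⟩,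
  ⟨64, 41, 8, [], [], [], 0⟩,
  ⟨64, 43, 16, [], [], [], 0⟩,
  ⟨64, 45, 16, [], [], [], 0⟩,
  ⟨64, 47, 4, [], [], [], 0⟩,
  ⟨64, 49, 4, [], [], [], 0⟩,
  ⟨64, 51, 16, [], [], [], 0⟩,
  ⟨64, 53, 16, [], [], [], 0⟩,
  ⟨64, 55, 8, [], [], [], 0⟩,
  ⟨64, 57, 8, [], [], [], 0⟩,
  ⟨64, 59, 16, [], [], [], 0⟩,
  ⟨64, 61, 16, [], [], [], 0⟩,
  ⟨64, 63, 2, [], [], [], 0⟩]

/-- degree 65 -/
def t65 : List Ent := [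
  ⟨65, 8, 4, [5, 13], [], [], 0⟩,
  ⟨65, 12, 4, [5, 13], [(8, 1, [(2, 1), (3, 1)]), (1, 0, [])], [], 8⟩,
  ⟨65, 14, 2, [5, 13], [(8, 1, [(1, 1), (3, 1), (4, 1), (6, 1), (8, 1), (16, 1)]), (1, 0, [])],
    [.hodge [5, 15, 18, 23, 26, 28, 30, 31, 33, 36, 38, 41, 43, 46, 51, 56]], 12⟩,
  ⟨65, 18, 4, [5, 13], [], [], 0⟩,
  ⟨65, 21, 4, [5, 13], [(8, 1, [(4, 1), (7, 1)]), (1, 0, [])], [.hodge [5, 15, 18, 23, 26, 28,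
    30, 31, 33, 36, 38, 41, 43, 46, 51, 56]], 10⟩,
  ⟨65, 27, 4, [5, 13], [(8, 1, [(2, 1), (3, 1)]), (1, 0, [])], [.hodge [5, 15, 18, 23, 26, 28,
    30, 31, 33, 36, 38, 41, 43, 46, 51, 56]], 12⟩,
  ⟨65, 31, 4, [5, 13], [(8, 1, [(4, 1), (7, 1)]), (1, 0, [])], [.hodge [5, 15, 18, 23, 26, 28,
    30, 31, 33, 36, 38, 41, 43, 46, 51, 56]], 10⟩,
  ⟨65, 34, 4, [5, 13], [(8, 1, [(4, 1), (7, 1)]), (1, 0, [])], [], 8⟩,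
  ⟨65, 38, 4, [5, 13], [(8, 1, [(2, 1), (3, 1)]), (1, 0, [])], [], 8⟩,
  ⟨65, 44, 4, [5, 13], [(8, 1, [(4, 1), (7, 1)]), (1, 0, [])], [], 8⟩,
  ⟨65, 47, 4, [5, 13], [], [], 0⟩,
  ⟨65, 51, 2, [5, 13], [(8, 1, [(1, 1), (3, 1), (4, 1), (6, 1), (8, 1), (16, 1)]), (1, 0, [])],
    [.hodge [5, 15, 18, 23, 26, 28, 30, 31, 33, 36, 38, 41, 43, 46, 51, 56]], 10⟩,
  ⟨65, 53, 4, [5, 13], [(8, 1, [(2, 1), (3, 1)]), (1, 0, [])], [.hodge [5, 15, 18, 23, 26, 28,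
    30, 31, 33, 36, 38, 41, 43, 46, 51, 56]], 12⟩,
  ⟨65, 57, 4, [5, 13], [], [], 0⟩,
  ⟨65, 64, 2, [5, 13], [], [], 0⟩]

/-- degree 66 -/
def t66 : List Ent := [
  ⟨66, 23, 2, [3, 11], [(4, 2, [(1, 1), (5, 1), (7, 1), (13, 1), (19, 1)])], [.surf [4, 19, 65,
    44]], 12⟩,
  ⟨66, 43, 2, [3, 11], [(10, 2, [(1, 1), (5, 1), (7, 1), (13, 1), (19, 1)])], [.surf [4, 22, 65,
    41]], 10⟩,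
  ⟨66, 65, 2, [3, 11], [], [], 0⟩]

/-- degree 67 -/
def t67 : List Ent := [
  ⟨67, 66, 2, [67], [], [], 0⟩]

/-- degree 68 -/
def t68 : List Ent := [
  ⟨68, 3, 16, [17], [], [], 0⟩,
  ⟨68, 5, 16, [17], [], [], 0⟩,
  ⟨68, 7, 16, [17], [], [], 0⟩,
  ⟨68, 9, 8, [17], [], [], 0⟩,
  ⟨68, 11, 16, [17], [], [], 0⟩,
  ⟨68, 13, 4, [17], [], [], 0⟩,
  ⟨68, 15, 8, [17], [], [], 0⟩,
  ⟨68, 19, 8, [17], [], [], 0⟩,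
  ⟨68, 21, 4, [17], [], [], 0⟩,
  ⟨68, 23, 16, [17], [], [], 0⟩,
  ⟨68, 25, 8, [17], [], [], 0⟩,
  ⟨68, 27, 16, [17], [], [], 0⟩,
  ⟨68, 29, 16, [17], [], [], 0⟩,
  ⟨68, 31, 16, [17], [], [], 0⟩,
  ⟨68, 33, 2, [17], [], [], 0⟩,
  ⟨68, 35, 2, [17], [], [.curve [2, 13, 53] [67, 60, 9]], 2⟩,
  ⟨68, 37, 16, [17], [], [], 0⟩,
  ⟨68, 39, 16, [17], [], [], 0⟩,
  ⟨68, 41, 16, [17], [], [], 0⟩,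
  ⟨68, 43, 8, [17], [], [], 0⟩,
  ⟨68, 45, 16, [17], [], [], 0⟩,
  ⟨68, 47, 4, [17], [], [], 0⟩,
  ⟨68, 49, 8, [17], [], [], 0⟩,
  ⟨68, 53, 8, [17], [], [], 0⟩,
  ⟨68, 55, 4, [17], [], [], 0⟩,
  ⟨68, 57, 16, [17], [], [], 0⟩,
  ⟨68, 59, 8, [17], [], [], 0⟩,
  ⟨68, 61, 16, [17], [], [], 0⟩,
  ⟨68, 63, 16, [17], [], [], 0⟩,
  ⟨68, 65, 16, [17], [], [], 0⟩,
  ⟨68, 67, 2, [17], [], [], 0⟩]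

/-- degree 69 -/
def t69 : List Ent := [
  ⟨69, 22, 2, [3, 23], [(10, 1, [(1, 1), (2, 1), (4, 1), (5, 1), (7, 1), (8, 1), (10, 1), (11,
    1), (14, 1), (17, 1), (20, 1)]), (1, 0, [])], [.hodge [6, 15, 23, 24, 26, 29, 32, 33, 35, 38,
    41, 44, 47, 50, 53, 56]], 10⟩,
  ⟨69, 47, 2, [3, 23], [(4, 1, [(1, 1), (2, 1), (4, 1), (5, 1), (7, 1), (8, 1), (10, 1), (11, 1),
    (14, 1), (17, 1), (20, 1)]), (1, 0, [])], [.hodge [6, 15, 23, 24, 26, 29, 32, 33, 35, 38, 41,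
    44, 47, 50, 53, 56]], 12⟩,
  ⟨69, 68, 2, [3, 23], [], [], 0⟩]

/-- degree 70 -/
def t70 : List Ent := [
  ⟨70, 13, 4, [5, 7], [(8, 2, [(1, 1), (3, 1), (9, 1)])], [], 8⟩,
  ⟨70, 27, 4, [5, 7], [(8, 2, [(1, 1), (3, 1), (9, 1)])], [], 8⟩,
  ⟨70, 29, 2, [5, 7], [(8, 2, [(1, 1), (3, 1), (9, 1), (11, 1), (13, 1), (23, 1)])], [.hodge [14,
    20, 24, 34, 38, 44, 48, 58]], 12⟩,
  ⟨70, 41, 2, [5, 7], [(8, 2, [(1, 1), (3, 1), (9, 1), (11, 1), (13, 1), (23, 1)])], [.hodge [14,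
    20, 24, 34, 38, 44, 48, 58]], 10⟩,
  ⟨70, 43, 4, [5, 7], [(8, 2, [(1, 1), (3, 1), (9, 1)])], [.hodge [14, 20, 24, 34, 38, 44, 48,
    58]], 12⟩,
  ⟨70, 57, 4, [5, 7], [(8, 2, [(1, 1), (3, 1), (9, 1)])], [.hodge [14, 20, 24, 34, 38, 44, 48,
    58]], 12⟩,
  ⟨70, 69, 2, [5, 7], [], [], 0⟩]

/-- degree 71 -/
def t71 : List Ent := [
  ⟨71, 70, 2, [71], [], [], 0⟩]

/-- degree 72 -/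
def t72 : List Ent := [
  ⟨72, 17, 2, [3], [], [], 0⟩,
  ⟨72, 19, 2, [3], [], [.surf [6, 19, 71, 48]], 2⟩,
  ⟨72, 35, 2, [3], [], [], 0⟩,
  ⟨72, 37, 2, [3], [], [.surf [4, 15, 69, 56]], 2⟩,
  ⟨72, 53, 2, [3], [], [], 0⟩,
  ⟨72, 55, 2, [3], [], [.surf [24, 55, 71, 66]], 2⟩,
  ⟨72, 71, 2, [3], [], [], 0⟩]

/-- degree 73 -/
def t73 : List Ent := [
  ⟨73, 10, 8, [73], [], [], 0⟩,
  ⟨73, 22, 8, [73], [], [], 0⟩,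
  ⟨73, 27, 4, [73], [], [], 0⟩,
  ⟨73, 46, 4, [73], [], [], 0⟩,
  ⟨73, 51, 8, [73], [], [], 0⟩,
  ⟨73, 63, 8, [73], [], [], 0⟩,
  ⟨73, 72, 2, [73], [], [], 0⟩]

/-- degree 74 -/
def t74 : List Ent := [
  ⟨74, 31, 4, [37], [], [], 0⟩,
  ⟨74, 43, 4, [37], [], [], 0⟩,
  ⟨74, 73, 2, [37], [], [], 0⟩]

/-- degree 75 -/
def t75 : List Ent := [
  ⟨75, 7, 4, [3, 5], [(8, 1, [(1, 1), (2, 1), (4, 1), (8, 1), (13, 1)]), (1, 0, [])], [.surf [25,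
    60, 70, 70]], 10⟩,
  ⟨75, 26, 2, [3, 5], [(8, 1, [(1, 1), (2, 1), (4, 1), (7, 1), (8, 1), (11, 1), (13, 1), (16, 1),
    (19, 1), (22, 1)]), (1, 0, [])], [.surf [10, 25, 70, 45]], 12⟩,
  ⟨75, 32, 4, [3, 5], [(8, 1, [(1, 1), (2, 1), (4, 1), (8, 1), (13, 1)]), (1, 0, [])], [], 8⟩,
  ⟨75, 43, 4, [3, 5], [(8, 1, [(1, 1), (2, 1), (4, 1), (8, 1), (13, 1)]), (1, 0, [])],
    [.surf [25, 60, 70, 70]], 10⟩,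
  ⟨75, 49, 2, [3, 5], [(8, 1, [(1, 1), (2, 1), (4, 1), (7, 1), (8, 1), (11, 1), (13, 1), (16, 1),
    (19, 1), (22, 1)]), (1, 0, [])], [.surf [10, 25, 70, 45]], 10⟩,
  ⟨75, 68, 4, [3, 5], [(8, 1, [(1, 1), (2, 1), (4, 1), (8, 1), (13, 1)]), (1, 0, [])], [], 8⟩,
  ⟨75, 74, 2, [3, 5], [], [], 0⟩]

/-- degree 76 -/
def t76 : List Ent := [
  ⟨76, 37, 2, [19], [], [], 0⟩,
  ⟨76, 39, 2, [19], [], [.hodge [8, 19, 23, 24, 27, 31, 35, 38, 39, 40, 43, 47, 51, 55, 56, 72]],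
    2⟩,
  ⟨76, 75, 2, [19], [], [], 0⟩]

/-- degree 77 -/
def t77 : List Ent := [
  ⟨77, 34, 2, [7, 11], [(12, 1, [(1, 1), (2, 1), (3, 1), (4, 1), (5, 1), (10, 1), (12, 1)]), (1,
    0, [])], [.hodge [7, 18, 22, 25, 28, 29, 32, 33, 35, 36, 39, 40, 43, 46, 47, 50, 54, 57, 61,
    68]], 12⟩,
  ⟨77, 43, 2, [7, 11], [(2, 1, [(1, 1), (2, 1), (3, 1), (4, 1), (5, 1), (10, 1), (12, 1)]), (1,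
    0, [])], [.hodge [7, 18, 22, 25, 28, 29, 32, 33, 35, 36, 39, 40, 43, 46, 47, 50, 54, 57, 61,
    68]], 10⟩,
  ⟨77, 76, 2, [7, 11], [], [], 0⟩]

/-- degree 78 -/
def t78 : List Ent := [
  ⟨78, 5, 4, [3, 13], [(8, 3, [(1, 1), (7, 3), (11, 1)])], [], 8⟩,
  ⟨78, 25, 2, [3, 13], [(8, 3, [(1, 3), (5, 3), (7, 1), (11, 3), (17, 1), (23, 1)]), (2, 3, [(1,
    3), (5, 1), (7, 3), (11, 1), (17, 1), (23, 1)])], [], 10⟩,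
  ⟨78, 31, 4, [3, 13], [(2, 3, [(1, 3), (7, 3), (11, 1)])], [.surf [22, 60, 77, 75]], 10⟩,
  ⟨78, 47, 4, [3, 13], [(8, 3, [(1, 1), (7, 3), (11, 1)])], [], 8⟩,
  ⟨78, 53, 2, [3, 13], [(4, 2, [(5, 1), (7, 1), (11, 1)])], [.surf [34, 52, 77, 71]], 12⟩,
  ⟨78, 73, 4, [3, 13], [(2, 3, [(1, 3), (7, 3), (11, 1)])], [.surf [22, 60, 77, 75]], 10⟩,
  ⟨78, 77, 2, [3, 13], [], [], 0⟩]

/-- degree 79 -/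
def t79 : List Ent := [
  ⟨79, 78, 2, [79], [], [], 0⟩]

/-- degree 80 -/
def t80 : List Ent := [
  ⟨80, 3, 4, [5], [], [], 0⟩,
  ⟨80, 7, 4, [5], [], [], 0⟩,
  ⟨80, 9, 2, [5], [], [], 0⟩,
  ⟨80, 11, 4, [5], [], [.surf [12, 32, 78, 38]], 2⟩,
  ⟨80, 13, 4, [5], [], [], 0⟩,
  ⟨80, 17, 4, [5], [], [], 0⟩,
  ⟨80, 19, 4, [5], [], [], 0⟩,
  ⟨80, 21, 4, [5], [], [.surf [12, 32, 78, 38]], 2⟩,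
  ⟨80, 23, 4, [5], [], [], 0⟩,
  ⟨80, 27, 4, [5], [], [], 0⟩,
  ⟨80, 29, 4, [5], [], [], 0⟩,
  ⟨80, 31, 2, [5], [], [.surf [12, 32, 78, 38]], 2⟩,
  ⟨80, 33, 4, [5], [], [], 0⟩,
  ⟨80, 37, 4, [5], [], [], 0⟩,
  ⟨80, 39, 2, [5], [], [], 0⟩,
  ⟨80, 41, 2, [5], [], [.surf [12, 32, 78, 38]], 2⟩,
  ⟨80, 43, 4, [5], [], [], 0⟩,
  ⟨80, 47, 4, [5], [], [], 0⟩,
  ⟨80, 49, 2, [5], [], [], 0⟩,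
  ⟨80, 51, 4, [5], [], [.surf [12, 32, 78, 38]], 2⟩,
  ⟨80, 53, 4, [5], [], [], 0⟩,
  ⟨80, 57, 4, [5], [], [], 0⟩,
  ⟨80, 59, 4, [5], [], [], 0⟩,
  ⟨80, 61, 4, [5], [], [.surf [12, 32, 78, 38]], 2⟩,
  ⟨80, 63, 4, [5], [], [], 0⟩,
  ⟨80, 67, 4, [5], [], [], 0⟩,
  ⟨80, 69, 4, [5], [], [], 0⟩,
  ⟨80, 71, 2, [5], [], [.surf [12, 32, 78, 38]], 2⟩,
  ⟨80, 73, 4, [5], [], [], 0⟩,
  ⟨80, 77, 4, [5], [], [], 0⟩,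
  ⟨80, 79, 2, [5], [], [], 0⟩]

/-- degree 81 -/
def t81 : List Ent := [
  ⟨81, 80, 2, [3], [], [], 0⟩]

/-- degree 82 -/
def t82 : List Ent := [
  ⟨82, 3, 8, [41], [], [], 0⟩,
  ⟨82, 9, 4, [41], [], [], 0⟩,
  ⟨82, 27, 8, [41], [], [], 0⟩,
  ⟨82, 55, 8, [41], [], [], 0⟩,
  ⟨82, 73, 4, [41], [], [], 0⟩,
  ⟨82, 79, 8, [41], [], [], 0⟩,
  ⟨82, 81, 2, [41], [], [], 0⟩]

/-- degree 83 -/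
def t83 : List Ent := [
  ⟨83, 82, 2, [83], [], [], 0⟩]

/-- degree 84 -/
def t84 : List Ent := [
  ⟨84, 13, 2, [3, 7], [], [.surf [8, 29, 83, 48], .surf [14, 21, 77, 56]], 10⟩,
  ⟨84, 29, 2, [3, 7], [(12, 4, [(1, 13), (5, 3), (11, 1), (13, 3), (19, 3), (25, 1)])],
    [.surf [8, 36, 83, 41]], 12⟩,
  ⟨84, 41, 2, [3, 7], [], [], 0⟩,
  ⟨84, 43, 2, [3, 7], [(12, 4, [(1, 3), (5, 1), (11, 3), (13, 1), (17, 1), (19, 1)])],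
    [.surf [14, 21, 77, 56], .surf [8, 36, 83, 41]], 14⟩,
  ⟨84, 55, 2, [3, 7], [], [.surf [34, 55, 83, 80], .surf [28, 66, 81, 77]], 10⟩,
  ⟨84, 71, 2, [3, 7], [(12, 4, [(1, 1), (5, 3), (11, 1), (17, 3), (23, 1), (29, 1)])], [.surf [8,
    36, 83, 41]], 12⟩,
  ⟨84, 83, 2, [3, 7], [], [], 0⟩]

/-- degree 85 -/
def t85 : List Ent := [
  ⟨85, 2, 8, [5, 17], [(8, 1, [(1, 1), (3, 1), (7, 1), (9, 1)]), (1, 0, [])], [], 8⟩,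
  ⟨85, 3, 16, [5, 17], [(8, 1, [(1, 1), (2, 1)]), (1, 0, [])], [], 8⟩,
  ⟨85, 4, 4, [5, 17], [(8, 1, [(1, 1), (2, 1), (3, 1), (6, 1), (7, 1), (9, 1), (13, 1), (14,
    1)]), (1, 0, [])], [], 8⟩,
  ⟨85, 6, 16, [5, 17], [(8, 1, [(1, 1), (2, 1)]), (1, 0, [])], [.hodge [10, 17, 20, 22, 27, 32,
    35, 37, 39, 42, 44, 47, 49, 52, 54, 57, 59, 64, 69, 74]], 10⟩,
  ⟨85, 7, 16, [5, 17], [(8, 1, [(1, 1), (2, 1)]), (1, 0, [])], [], 8⟩,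
  ⟨85, 8, 8, [5, 17], [(8, 1, [(1, 1), (3, 1), (7, 1), (9, 1)]), (1, 0, [])], [], 8⟩,
  ⟨85, 9, 8, [5, 17], [(8, 1, [(1, 1), (2, 1), (3, 1), (6, 1)]), (1, 0, [])], [], 8⟩,
  ⟨85, 11, 16, [5, 17], [(8, 1, [(1, 1), (2, 1)]), (1, 0, [])], [.hodge [10, 17, 20, 22, 27, 32,
    35, 37, 39, 42, 44, 47, 49, 52, 54, 57, 59, 64, 69, 74]], 10⟩,
  ⟨85, 12, 16, [5, 17], [(8, 1, [(1, 1), (2, 1)]), (1, 0, [])], [], 8⟩,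
  ⟨85, 13, 4, [5, 17], [], [], 0⟩,
  ⟨85, 14, 16, [5, 17], [(8, 1, [(1, 1), (2, 1)]), (1, 0, [])], [], 8⟩,
  ⟨85, 16, 2, [5, 17], [(8, 1, [(1, 1), (2, 1), (3, 1), (4, 1), (6, 1), (7, 1), (8, 1), (9, 1),
    (12, 1), (13, 1), (14, 1), (18, 1), (19, 1), (23, 1), (24, 1), (29, 1)]), (1, 0, [])],
    [.hodge [10, 17, 20, 22, 27, 32, 35, 37, 39, 42, 44, 47, 49, 52, 54, 57, 59, 64, 69, 74]], 10⟩,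
  ⟨85, 18, 4, [5, 17], [(8, 1, [(1, 1), (2, 1), (3, 1), (4, 1), (6, 1), (7, 1), (8, 1), (12,
    1)]), (1, 0, [])], [.hodge [10, 17, 20, 22, 27, 32, 35, 37, 39, 42, 44, 47, 49, 52, 54, 57,
    59, 64, 69, 74]], 12⟩,
  ⟨85, 19, 8, [5, 17], [(8, 1, [(1, 1), (2, 1), (3, 1), (6, 1)]), (1, 0, [])], [], 8⟩,
  ⟨85, 21, 4, [5, 17], [(8, 1, [(1, 1), (2, 1), (3, 1), (6, 1), (7, 1), (9, 1), (13, 1), (14,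
    1)]), (1, 0, [])], [.hodge [10, 17, 20, 22, 27, 32, 35, 37, 39, 42, 44, 47, 49, 52, 54, 57,
    59, 64, 69, 74]], 10⟩,
  ⟨85, 22, 16, [5, 17], [(8, 1, [(1, 1), (2, 1)]), (1, 0, [])], [], 8⟩,
  ⟨85, 23, 16, [5, 17], [(8, 1, [(1, 1), (2, 1)]), (1, 0, [])], [], 8⟩,
  ⟨85, 24, 16, [5, 17], [(8, 1, [(1, 1), (2, 1)]), (1, 0, [])], [], 8⟩,
  ⟨85, 26, 8, [5, 17], [(8, 1, [(1, 1), (2, 1), (3, 1), (6, 1)]), (1, 0, [])], [.hodge [10, 17,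
    20, 22, 27, 32, 35, 37, 39, 42, 44, 47, 49, 52, 54, 57, 59, 64, 69, 74]], 10⟩,
  ⟨85, 27, 16, [5, 17], [(8, 1, [(1, 1), (2, 1)]), (1, 0, [])], [], 8⟩,
  ⟨85, 28, 16, [5, 17], [(8, 1, [(1, 1), (2, 1)]), (1, 0, [])], [], 8⟩,
  ⟨85, 29, 16, [5, 17], [(8, 1, [(1, 1), (2, 1)]), (1, 0, [])], [], 8⟩,
  ⟨85, 31, 16, [5, 17], [(8, 1, [(1, 1), (2, 1)]), (1, 0, [])], [.hodge [10, 17, 20, 22, 27, 32,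
    35, 37, 39, 42, 44, 47, 49, 52, 54, 57, 59, 64, 69, 74]], 10⟩,
  ⟨85, 32, 8, [5, 17], [(8, 1, [(1, 1), (3, 1), (7, 1), (9, 1)]), (1, 0, [])], [], 8⟩,
  ⟨85, 33, 4, [5, 17], [(8, 1, [(1, 1), (2, 1), (3, 1), (4, 1), (6, 1), (7, 1), (8, 1), (12,
    1)]), (1, 0, [])], [], 8⟩,
  ⟨85, 36, 8, [5, 17], [(8, 1, [(1, 1), (2, 1), (3, 1), (6, 1)]), (1, 0, [])], [.hodge [10, 17,
    20, 22, 27, 32, 35, 37, 39, 42, 44, 47, 49, 52, 54, 57, 59, 64, 69, 74]], 10⟩,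
  ⟨85, 37, 16, [5, 17], [(8, 1, [(1, 1), (2, 1)]), (1, 0, [])], [], 8⟩,
  ⟨85, 38, 4, [5, 17], [], [], 0⟩,
  ⟨85, 39, 16, [5, 17], [(8, 1, [(1, 1), (2, 1)]), (1, 0, [])], [], 8⟩,
  ⟨85, 41, 16, [5, 17], [(8, 1, [(1, 1), (2, 1)]), (1, 0, [])], [.hodge [10, 17, 20, 22, 27, 32,
    35, 37, 39, 42, 44, 47, 49, 52, 54, 57, 59, 64, 69, 74]], 10⟩,
  ⟨85, 42, 8, [5, 17], [(8, 1, [(1, 1), (3, 1), (7, 1), (9, 1)]), (1, 0, [])], [], 8⟩,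
  ⟨85, 43, 8, [5, 17], [(8, 1, [(1, 1), (3, 1), (7, 1), (9, 1)]), (1, 0, [])], [], 8⟩,
  ⟨85, 44, 16, [5, 17], [(8, 1, [(1, 1), (2, 1)]), (1, 0, [])], [], 8⟩,
  ⟨85, 46, 16, [5, 17], [(8, 1, [(1, 1), (2, 1)]), (1, 0, [])], [.hodge [10, 17, 20, 22, 27, 32,
    35, 37, 39, 42, 44, 47, 49, 52, 54, 57, 59, 64, 69, 74]], 10⟩,
  ⟨85, 47, 4, [5, 17], [], [], 0⟩,
  ⟨85, 48, 16, [5, 17], [(8, 1, [(1, 1), (2, 1)]), (1, 0, [])], [], 8⟩,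
  ⟨85, 49, 8, [5, 17], [(8, 1, [(1, 1), (2, 1), (3, 1), (6, 1)]), (1, 0, [])], [], 8⟩,
  ⟨85, 52, 4, [5, 17], [(8, 1, [(1, 1), (2, 1), (3, 1), (4, 1), (6, 1), (7, 1), (8, 1), (12,
    1)]), (1, 0, [])], [.hodge [10, 17, 20, 22, 27, 32, 35, 37, 39, 42, 44, 47, 49, 52, 54, 57,
    59, 64, 69, 74]], 12⟩,
  ⟨85, 53, 8, [5, 17], [(8, 1, [(1, 1), (3, 1), (7, 1), (9, 1)]), (1, 0, [])], [], 8⟩,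
  ⟨85, 54, 16, [5, 17], [(8, 1, [(1, 1), (2, 1)]), (1, 0, [])], [], 8⟩,
  ⟨85, 56, 16, [5, 17], [(8, 1, [(1, 1), (2, 1)]), (1, 0, [])], [.hodge [10, 17, 20, 22, 27, 32,
    35, 37, 39, 42, 44, 47, 49, 52, 54, 57, 59, 64, 69, 74]], 10⟩,
  ⟨85, 57, 16, [5, 17], [(8, 1, [(1, 1), (2, 1)]), (1, 0, [])], [], 8⟩,
  ⟨85, 58, 16, [5, 17], [(8, 1, [(1, 1), (2, 1)]), (1, 0, [])], [], 8⟩,
  ⟨85, 59, 8, [5, 17], [(8, 1, [(1, 1), (2, 1), (3, 1), (6, 1)]), (1, 0, [])], [], 8⟩,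
  ⟨85, 61, 16, [5, 17], [(8, 1, [(1, 1), (2, 1)]), (1, 0, [])], [.hodge [10, 17, 20, 22, 27, 32,
    35, 37, 39, 42, 44, 47, 49, 52, 54, 57, 59, 64, 69, 74]], 10⟩,
  ⟨85, 62, 16, [5, 17], [(8, 1, [(1, 1), (2, 1)]), (1, 0, [])], [], 8⟩,
  ⟨85, 63, 16, [5, 17], [(8, 1, [(1, 1), (2, 1)]), (1, 0, [])], [], 8⟩,
  ⟨85, 64, 4, [5, 17], [(8, 1, [(1, 1), (2, 1), (3, 1), (6, 1), (7, 1), (9, 1), (13, 1), (14,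
    1)]), (1, 0, [])], [], 8⟩,
  ⟨85, 66, 8, [5, 17], [(8, 1, [(1, 1), (2, 1), (3, 1), (6, 1)]), (1, 0, [])], [.hodge [10, 17,
    20, 22, 27, 32, 35, 37, 39, 42, 44, 47, 49, 52, 54, 57, 59, 64, 69, 74]], 10⟩,
  ⟨85, 67, 4, [5, 17], [(8, 1, [(1, 1), (2, 1), (3, 1), (4, 1), (6, 1), (7, 1), (8, 1), (12,
    1)]), (1, 0, [])], [], 8⟩,
  ⟨85, 69, 2, [5, 17], [(8, 1, [(1, 1), (2, 1), (3, 1), (4, 1), (6, 1), (7, 1), (8, 1), (9, 1),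
    (12, 1), (13, 1), (14, 1), (18, 1), (19, 1), (23, 1), (24, 1), (29, 1)]), (1, 0, [])],
    [.hodge [10, 17, 20, 22, 27, 32, 35, 37, 39, 42, 44, 47, 49, 52, 54, 57, 59, 64, 69, 74]], 12⟩,
  ⟨85, 71, 16, [5, 17], [(8, 1, [(1, 1), (2, 1)]), (1, 0, [])], [.hodge [10, 17, 20, 22, 27, 32,
    35, 37, 39, 42, 44, 47, 49, 52, 54, 57, 59, 64, 69, 74]], 10⟩,
  ⟨85, 72, 4, [5, 17], [], [], 0⟩,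
  ⟨85, 73, 16, [5, 17], [(8, 1, [(1, 1), (2, 1)]), (1, 0, [])], [], 8⟩,
  ⟨85, 74, 16, [5, 17], [(8, 1, [(1, 1), (2, 1)]), (1, 0, [])], [], 8⟩,
  ⟨85, 76, 8, [5, 17], [(8, 1, [(1, 1), (2, 1), (3, 1), (6, 1)]), (1, 0, [])], [.hodge [10, 17,
    20, 22, 27, 32, 35, 37, 39, 42, 44, 47, 49, 52, 54, 57, 59, 64, 69, 74]], 10⟩,
  ⟨85, 77, 8, [5, 17], [(8, 1, [(1, 1), (3, 1), (7, 1), (9, 1)]), (1, 0, [])], [], 8⟩,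
  ⟨85, 78, 16, [5, 17], [(8, 1, [(1, 1), (2, 1)]), (1, 0, [])], [], 8⟩,
  ⟨85, 79, 16, [5, 17], [(8, 1, [(1, 1), (2, 1)]), (1, 0, [])], [], 8⟩,
  ⟨85, 81, 4, [5, 17], [(8, 1, [(1, 1), (2, 1), (3, 1), (6, 1), (7, 1), (9, 1), (13, 1), (14,
    1)]), (1, 0, [])], [.hodge [10, 17, 20, 22, 27, 32, 35, 37, 39, 42, 44, 47, 49, 52, 54, 57,
    59, 64, 69, 74]], 10⟩,
  ⟨85, 82, 16, [5, 17], [(8, 1, [(1, 1), (2, 1)]), (1, 0, [])], [], 8⟩,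
  ⟨85, 83, 8, [5, 17], [(8, 1, [(1, 1), (3, 1), (7, 1), (9, 1)]), (1, 0, [])], [], 8⟩,
  ⟨85, 84, 2, [5, 17], [], [], 0⟩]

/-- degree 86 -/
def t86 : List Ent := [
  ⟨86, 85, 2, [43], [], [], 0⟩]

end Pool.Agent.N993.CP
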