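import Pool.Agent.N993.CP.Data1

/-!
The table of the entries for the degrees from 88 to 135.
-/

namespace Pool.Agent.N993.CP

open Pool.Agent.Y2.Cv

/-- degree 88 -/
def t88 : List Ent := [
  ⟨88, 21, 2, [11], [], [], 0⟩,
  ⟨88, 23, 2, [11], [], [.hodge [16, 22, 30, 38, 44, 46, 48, 54, 62, 80]], 2⟩,
  ⟨88, 43, 2, [11], [], [], 0⟩,
  ⟨88, 45, 2, [11], [], [.hodge [16, 22, 30, 38, 44, 46, 48, 54, 62, 80]], 2⟩,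
  ⟨88, 65, 2, [11], [], [], 0⟩,
  ⟨88, 67, 2, [11], [], [.hodge [16, 22, 30, 38, 44, 46, 48, 54, 62, 80]], 2⟩,
  ⟨88, 87, 2, [11], [], [], 0⟩]

/-- degree 89 -/
def t89 : List Ent := [
  ⟨89, 12, 8, [89], [], [], 0⟩,
  ⟨89, 34, 4, [89], [], [], 0⟩,
  ⟨89, 37, 8, [89], [], [], 0⟩,
  ⟨89, 52, 8, [89], [], [], 0⟩,
  ⟨89, 55, 4, [89], [], [], 0⟩,
  ⟨89, 77, 8, [89], [], [], 0⟩,
  ⟨89, 88, 2, [89], [], [], 0⟩]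

/-- degree 90 -/
def t90 : List Ent := [
  ⟨90, 17, 4, [3, 5], [(8, 2, [(1, 1), (7, 1), (13, 1)])], [], 8⟩,
  ⟨90, 19, 2, [3, 5], [(8, 2, [(1, 1), (7, 1), (11, 1), (13, 1), (17, 1), (31, 1)])], [.surf [30,
    72, 87, 81]], 10⟩,
  ⟨90, 37, 4, [3, 5], [(8, 2, [(1, 1), (7, 1), (13, 1)])], [.surf [30, 72, 87, 81]], 10⟩,
  ⟨90, 53, 4, [3, 5], [(8, 2, [(1, 1), (7, 1), (13, 1)])], [], 8⟩,
  ⟨90, 71, 2, [3, 5], [(8, 2, [(1, 1), (7, 1), (11, 1), (13, 1), (17, 1), (31, 1)])], [.surf [18,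
    80, 87, 85]], 12⟩,
  ⟨90, 73, 4, [3, 5], [(8, 2, [(1, 1), (7, 1), (13, 1)])], [.surf [30, 72, 87, 81]], 10⟩,
  ⟨90, 89, 2, [3, 5], [], [], 0⟩]

/-- degree 91 -/
def t91 : List Ent := [
  ⟨91, 8, 4, [7, 13], [(8, 1, [(2, 1), (5, 1), (9, 1)]), (1, 0, [])], [.hodge [13, 20, 26, 27,
    28, 33, 34, 35, 39, 40, 41, 42, 46, 47, 48, 53, 54, 55, 60, 61, 67, 68, 74, 81]], 10⟩,
  ⟨91, 27, 2, [7, 13], [(8, 1, [(2, 1), (5, 1), (9, 1), (12, 1), (16, 1), (19, 1)]), (1, 0, [])],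
    [.hodge [13, 20, 26, 27, 28, 33, 34, 35, 39, 40, 41, 42, 46, 47, 48, 53, 54, 55, 60, 61, 67,
    68, 74, 81]], 12⟩,
  ⟨91, 34, 4, [7, 13], [(8, 1, [(2, 1), (5, 1), (9, 1)]), (1, 0, [])], [], 8⟩,
  ⟨91, 57, 4, [7, 13], [(8, 1, [(2, 1), (5, 1), (9, 1)]), (1, 0, [])], [.hodge [13, 20, 26, 27,
    28, 33, 34, 35, 39, 40, 41, 42, 46, 47, 48, 53, 54, 55, 60, 61, 67, 68, 74, 81]], 10⟩,
  ⟨91, 64, 2, [7, 13], [(8, 1, [(2, 1), (5, 1), (9, 1), (12, 1), (16, 1), (19, 1)]), (1, 0, [])],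
    [.hodge [13, 20, 26, 27, 28, 33, 34, 35, 39, 40, 41, 42, 46, 47, 48, 53, 54, 55, 60, 61, 67,
    68, 74, 81]], 10⟩,
  ⟨91, 83, 4, [7, 13], [(8, 1, [(2, 1), (5, 1), (9, 1)]), (1, 0, [])], [], 8⟩,
  ⟨91, 90, 2, [7, 13], [], [], 0⟩]

/-- degree 92 -/
def t92 : List Ent := [
  ⟨92, 45, 2, [23], [], [], 0⟩,
  ⟨92, 47, 2, [23], [(2, 3, [(1, 1), (3, 1), (5, 1), (7, 1), (9, 1), (11, 1), (13, 1), (15, 1),
    (17, 1), (19, 1), (21, 1)])], [], 2⟩,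
  ⟨92, 91, 2, [23], [], [], 0⟩]

/-- degree 93 -/
def t93 : List Ent := [
  ⟨93, 32, 2, [3, 31], [(12, 1, [(1, 1), (2, 1), (4, 1), (5, 1), (7, 1), (8, 1), (10, 1), (11,
    1), (13, 1), (14, 1), (16, 1), (19, 1), (22, 1), (25, 1), (28, 1)]), (1, 0, [])], [.hodge [3,
    12, 21, 30, 34, 37, 39, 40, 43, 46, 49, 52, 55, 58, 61, 64, 67, 70, 73, 76]], 12⟩,
  ⟨93, 61, 2, [3, 31], [(2, 1, [(1, 1), (2, 1), (4, 1), (5, 1), (7, 1), (8, 1), (10, 1), (11, 1),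
    (13, 1), (14, 1), (16, 1), (19, 1), (22, 1), (25, 1), (28, 1)]), (1, 0, [])], [.hodge [3, 12,
    21, 30, 34, 37, 39, 40, 43, 46, 49, 52, 55, 58, 61, 64, 67, 70, 73, 76]], 10⟩,
  ⟨93, 92, 2, [3, 31], [], [], 0⟩]

/-- degree 94 -/
def t94 : List Ent := [
  ⟨94, 93, 2, [47], [], [], 0⟩]

/-- degree 96 -/
def t96 : List Ent := [
  ⟨96, 5, 8, [3], [], [], 0⟩,
  ⟨96, 7, 4, [3], [], [.surf [20, 32, 94, 46]], 2⟩,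
  ⟨96, 11, 8, [3], [], [], 0⟩,
  ⟨96, 13, 8, [3], [], [.surf [32, 68, 94, 94]], 2⟩,
  ⟨96, 17, 2, [3], [], [], 0⟩,
  ⟨96, 19, 8, [3], [], [.surf [32, 73, 95, 88]], 2⟩,
  ⟨96, 23, 4, [3], [], [], 0⟩,
  ⟨96, 25, 4, [3], [], [.surf [20, 32, 94, 46]], 2⟩,
  ⟨96, 29, 8, [3], [], [], 0⟩,
  ⟨96, 31, 2, [3], [], [.surf [20, 32, 94, 46]], 2⟩,
  ⟨96, 35, 8, [3], [], [], 0⟩,
  ⟨96, 37, 8, [3], [], [.surf [32, 68, 94, 94]], 2⟩,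
  ⟨96, 41, 4, [3], [], [], 0⟩,
  ⟨96, 43, 8, [3], [], [.surf [32, 73, 95, 88]], 2⟩,
  ⟨96, 47, 2, [3], [], [], 0⟩,
  ⟨96, 49, 2, [3], [], [.surf [20, 32, 94, 46]], 2⟩,
  ⟨96, 53, 8, [3], [], [], 0⟩,
  ⟨96, 55, 4, [3], [], [.surf [20, 32, 94, 46]], 2⟩,
  ⟨96, 59, 8, [3], [], [], 0⟩,
  ⟨96, 61, 8, [3], [], [.surf [32, 68, 94, 94]], 2⟩,
  ⟨96, 65, 2, [3], [], [], 0⟩,
  ⟨96, 67, 8, [3], [], [.surf [32, 73, 95, 88]], 2⟩,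
  ⟨96, 71, 4, [3], [], [], 0⟩,
  ⟨96, 73, 4, [3], [], [.surf [20, 32, 94, 46]], 2⟩,
  ⟨96, 77, 8, [3], [], [], 0⟩,
  ⟨96, 79, 2, [3], [], [.surf [20, 32, 94, 46]], 2⟩,
  ⟨96, 83, 8, [3], [], [], 0⟩,
  ⟨96, 85, 8, [3], [], [.surf [32, 68, 94, 94]], 2⟩,
  ⟨96, 89, 4, [3], [], [], 0⟩,
  ⟨96, 91, 8, [3], [], [.surf [32, 73, 95, 88]], 2⟩,
  ⟨96, 95, 2, [3], [], [], 0⟩]

/-- degree 97 -/
def t97 : List Ent := [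
  ⟨97, 8, 16, [97], [], [], 0⟩,
  ⟨97, 12, 16, [97], [], [], 0⟩,
  ⟨97, 18, 16, [97], [], [], 0⟩,
  ⟨97, 19, 32, [97], [], [], 0⟩,
  ⟨97, 20, 32, [97], [], [], 0⟩,
  ⟨97, 22, 4, [97], [], [], 0⟩,
  ⟨97, 27, 16, [97], [], [], 0⟩,
  ⟨97, 28, 32, [97], [], [], 0⟩,
  ⟨97, 30, 32, [97], [], [], 0⟩,
  ⟨97, 33, 8, [97], [], [], 0⟩,
  ⟨97, 34, 32, [97], [], [], 0⟩,
  ⟨97, 42, 32, [97], [], [], 0⟩,
  ⟨97, 45, 32, [97], [], [], 0⟩,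
  ⟨97, 46, 32, [97], [], [], 0⟩,
  ⟨97, 47, 8, [97], [], [], 0⟩,
  ⟨97, 50, 8, [97], [], [], 0⟩,
  ⟨97, 51, 32, [97], [], [], 0⟩,
  ⟨97, 52, 32, [97], [], [], 0⟩,
  ⟨97, 55, 32, [97], [], [], 0⟩,
  ⟨97, 63, 32, [97], [], [], 0⟩,
  ⟨97, 64, 8, [97], [], [], 0⟩,
  ⟨97, 67, 32, [97], [], [], 0⟩,
  ⟨97, 69, 32, [97], [], [], 0⟩,
  ⟨97, 70, 16, [97], [], [], 0⟩,
  ⟨97, 75, 4, [97], [], [], 0⟩,
  ⟨97, 77, 32, [97], [], [], 0⟩,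
  ⟨97, 78, 32, [97], [], [], 0⟩,
  ⟨97, 79, 16, [97], [], [], 0⟩,
  ⟨97, 85, 16, [97], [], [], 0⟩,
  ⟨97, 89, 16, [97], [], [], 0⟩,
  ⟨97, 96, 2, [97], [], [], 0⟩]

/-- degree 98 -/
def t98 : List Ent := [
  ⟨98, 97, 2, [7], [], [], 0⟩]

/-- degree 99 -/
def t99 : List Ent := [
  ⟨99, 10, 2, [3, 11], [(10, 1, [(1, 1), (2, 1), (4, 1), (5, 1), (7, 1), (8, 1), (13, 1), (14,
    1), (16, 1), (17, 1), (23, 1), (25, 1), (26, 1), (34, 1), (35, 1)]), (1, 0, [])],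
    [.hodge [18, 33, 42, 45, 51, 60, 69, 78]], 10⟩,
  ⟨99, 89, 2, [3, 11], [(4, 1, [(1, 1), (2, 1), (4, 1), (5, 1), (7, 1), (8, 1), (13, 1), (14, 1),
    (16, 1), (17, 1), (23, 1), (25, 1), (26, 1), (34, 1), (35, 1)]), (1, 0, [])], [.hodge [18,
    33, 42, 45, 51, 60, 69, 78]], 12⟩,
  ⟨99, 98, 2, [3, 11], [], [], 0⟩]

/-- degree 100 -/
def t100 : List Ent := [
  ⟨100, 7, 4, [5], [], [], 0⟩,
  ⟨100, 43, 4, [5], [], [], 0⟩,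
  ⟨100, 49, 2, [5], [], [], 0⟩,
  ⟨100, 51, 2, [5], [], [.surf [10, 15, 95, 80]], 2⟩,
  ⟨100, 57, 4, [5], [], [], 0⟩,
  ⟨100, 93, 4, [5], [], [], 0⟩,
  ⟨100, 99, 2, [5], [], [], 0⟩]

/-- degree 101 -/
def t101 : List Ent := [
  ⟨101, 10, 4, [101], [], [], 0⟩,
  ⟨101, 91, 4, [101], [], [], 0⟩,
  ⟨101, 100, 2, [101], [], [], 0⟩]

/-- degree 102 -/
def t102 : List Ent := [
  ⟨102, 5, 16, [3, 17], [(8, 2, [(1, 1)])], [], 8⟩,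
  ⟨102, 7, 16, [3, 17], [(8, 2, [(1, 1)])], [.hodge [12, 30, 34, 40, 46, 48, 52, 58, 64, 70, 76,
    82]], 10⟩,
  ⟨102, 11, 16, [3, 17], [(8, 2, [(1, 1)])], [], 8⟩,
  ⟨102, 13, 4, [3, 17], [(8, 2, [(1, 1), (5, 1), (7, 1), (19, 1)])], [.hodge [12, 30, 34, 40, 46,
    48, 52, 58, 64, 70, 76, 82]], 10⟩,
  ⟨102, 19, 8, [3, 17], [(8, 2, [(1, 1), (5, 1)])], [.hodge [12, 30, 34, 40, 46, 48, 52, 58, 64,
    70, 76, 82]], 10⟩,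
  ⟨102, 23, 16, [3, 17], [(8, 2, [(1, 1)])], [], 8⟩,
  ⟨102, 25, 8, [3, 17], [(8, 2, [(1, 1), (5, 1)])], [.hodge [12, 30, 34, 40, 46, 48, 52, 58, 64,
    70, 76, 82]], 10⟩,
  ⟨102, 29, 16, [3, 17], [(8, 2, [(1, 1)])], [], 8⟩,
  ⟨102, 31, 16, [3, 17], [(8, 2, [(1, 1)])], [.hodge [12, 30, 34, 40, 46, 48, 52, 58, 64, 70, 76,
    82]], 10⟩,
  ⟨102, 35, 2, [3, 17], [(8, 2, [(1, 1), (5, 1), (7, 1), (11, 1), (13, 1), (19, 1), (25, 1), (31,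
    1)])], [.hodge [12, 30, 34, 40, 46, 48, 52, 58, 64, 70, 76, 82]], 12⟩,
  ⟨102, 37, 16, [3, 17], [(8, 2, [(1, 1)])], [.hodge [12, 30, 34, 40, 46, 48, 52, 58, 64, 70, 76,
    82]], 10⟩,
  ⟨102, 41, 16, [3, 17], [(8, 2, [(1, 1)])], [], 8⟩,
  ⟨102, 43, 8, [3, 17], [(8, 2, [(1, 1), (5, 1)])], [.hodge [12, 30, 34, 40, 46, 48, 52, 58, 64,
    70, 76, 82]], 10⟩,
  ⟨102, 47, 4, [3, 17], [(8, 2, [(1, 1), (5, 1), (7, 1), (19, 1)])], [], 8⟩,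
  ⟨102, 49, 8, [3, 17], [(8, 2, [(1, 1), (5, 1)])], [.hodge [12, 30, 34, 40, 46, 48, 52, 58, 64,
    70, 76, 82]], 10⟩,
  ⟨102, 53, 8, [3, 17], [(8, 2, [(1, 1), (5, 1)])], [], 8⟩,
  ⟨102, 55, 4, [3, 17], [(8, 2, [(1, 1), (5, 1), (7, 1), (19, 1)])], [.hodge [12, 30, 34, 40, 46,
    48, 52, 58, 64, 70, 76, 82]], 10⟩,
  ⟨102, 59, 8, [3, 17], [(8, 2, [(1, 1), (5, 1)])], [], 8⟩,
  ⟨102, 61, 16, [3, 17], [(8, 2, [(1, 1)])], [.hodge [12, 30, 34, 40, 46, 48, 52, 58, 64, 70, 76,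
    82]], 10⟩,
  ⟨102, 65, 16, [3, 17], [(8, 2, [(1, 1)])], [], 8⟩,
  ⟨102, 67, 2, [3, 17], [(8, 2, [(1, 1), (5, 1), (7, 1), (11, 1), (13, 1), (19, 1), (25, 1), (31,
    1)])], [.hodge [12, 30, 34, 40, 46, 48, 52, 58, 64, 70, 76, 82]], 10⟩,
  ⟨102, 71, 16, [3, 17], [(8, 2, [(1, 1)])], [], 8⟩,
  ⟨102, 73, 16, [3, 17], [(8, 2, [(1, 1)])], [.hodge [12, 30, 34, 40, 46, 48, 52, 58, 64, 70, 76,
    82]], 10⟩,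
  ⟨102, 77, 8, [3, 17], [(8, 2, [(1, 1), (5, 1)])], [], 8⟩,
  ⟨102, 79, 16, [3, 17], [(8, 2, [(1, 1)])], [.hodge [12, 30, 34, 40, 46, 48, 52, 58, 64, 70, 76,
    82]], 10⟩,
  ⟨102, 83, 8, [3, 17], [(8, 2, [(1, 1), (5, 1)])], [], 8⟩,
  ⟨102, 89, 4, [3, 17], [(8, 2, [(1, 1), (5, 1), (7, 1), (19, 1)])], [], 8⟩,
  ⟨102, 91, 16, [3, 17], [(8, 2, [(1, 1)])], [.hodge [12, 30, 34, 40, 46, 48, 52, 58, 64, 70, 76,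
    82]], 10⟩,
  ⟨102, 95, 16, [3, 17], [(8, 2, [(1, 1)])], [], 8⟩,
  ⟨102, 97, 16, [3, 17], [(8, 2, [(1, 1)])], [.hodge [12, 30, 34, 40, 46, 48, 52, 58, 64, 70, 76,
    82]], 10⟩,
  ⟨102, 101, 2, [3, 17], [], [], 0⟩]

/-- degree 103 -/
def t103 : List Ent := [
  ⟨103, 102, 2, [103], [], [], 0⟩]

/-- degree 104 -/
def t104 : List Ent := [
  ⟨104, 5, 4, [13], [], [], 0⟩,
  ⟨104, 21, 4, [13], [], [], 0⟩,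
  ⟨104, 25, 2, [13], [], [], 0⟩,
  ⟨104, 27, 2, [13], [], [.hodge [16, 34, 42, 48, 50, 52, 58, 66, 74, 80]], 2⟩,
  ⟨104, 31, 4, [13], [], [], 0⟩,
  ⟨104, 47, 4, [13], [], [], 0⟩,
  ⟨104, 51, 2, [13], [], [], 0⟩,
  ⟨104, 53, 2, [13], [], [.hodge [16, 34, 42, 48, 50, 52, 58, 66, 74, 80]], 2⟩,
  ⟨104, 57, 4, [13], [], [], 0⟩,
  ⟨104, 73, 4, [13], [], [], 0⟩,
  ⟨104, 77, 2, [13], [], [], 0⟩,
  ⟨104, 79, 2, [13], [], [.hodge [16, 34, 42, 48, 50, 52, 58, 66, 74, 80]], 2⟩,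
  ⟨104, 83, 4, [13], [], [], 0⟩,
  ⟨104, 99, 4, [13], [], [], 0⟩,
  ⟨104, 103, 2, [13], [], [], 0⟩]

/-- degree 106 -/
def t106 : List Ent := [
  ⟨106, 23, 4, [53], [], [], 0⟩,
  ⟨106, 83, 4, [53], [], [], 0⟩,
  ⟨106, 105, 2, [53], [], [], 0⟩]

/-- degree 107 -/
def t107 : List Ent := [
  ⟨107, 106, 2, [107], [], [], 0⟩]

/-- degree 108 -/
def t108 : List Ent := [
  ⟨108, 53, 2, [3], [], [], 0⟩,
  ⟨108, 55, 2, [3], [], [.surf [9, 24, 102, 81]], 2⟩,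
  ⟨108, 107, 2, [3], [], [], 0⟩]

/-- degree 109 -/
def t109 : List Ent := [
  ⟨109, 33, 4, [109], [], [], 0⟩,
  ⟨109, 76, 4, [109], [], [], 0⟩,
  ⟨109, 108, 2, [109], [], [], 0⟩]

/-- degree 110 -/
def t110 : List Ent := [
  ⟨110, 21, 2, [5, 11], [(2, 2, [(3, 1), (7, 1), (13, 1), (17, 1), (23, 1)])], [.five ⟨![1, 3,
    55, 60, 101], [(3, ![6, 1, 0, 0, 1]), (7, ![0, 3, 0, 0, 1]), (12, ![0, 0, 2, 0, 0]), (2, ![0,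
    0, 0, 11, 0]), (2, ![3, 0, 0, 1, 7])], 24⟩ [23, 93, 104]], 10⟩,
  ⟨110, 23, 4, [5, 11], [(4, 3, [(1, 3), (3, 3), (7, 1), (9, 3), (17, 1)])], [.surf [22, 92, 109,
    107]], 12⟩,
  ⟨110, 43, 4, [5, 11], [(8, 3, [(1, 1), (3, 3), (7, 1), (9, 1), (17, 1)])], [], 8⟩,
  ⟨110, 67, 4, [5, 11], [(4, 3, [(1, 3), (3, 3), (7, 1), (9, 3), (17, 1)])], [.surf [22, 92, 109,
    107]], 12⟩,
  ⟨110, 87, 4, [5, 11], [(8, 3, [(1, 1), (3, 3), (7, 1), (9, 1), (17, 1)])], [], 8⟩,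
  ⟨110, 89, 2, [5, 11], [(8, 3, [(1, 3), (3, 1), (7, 3), (9, 3), (13, 3), (17, 3), (19, 1), (23,
    1), (29, 1), (39, 1)]), (4, 3, [(1, 3), (3, 3), (7, 1), (9, 3), (13, 1), (17, 1), (19, 1),
    (23, 3), (29, 1), (39, 1)])], [], 12⟩,
  ⟨110, 109, 2, [5, 11], [], [], 0⟩]

/-- degree 112 -/
def t112 : List Ent := [
  ⟨112, 13, 4, [7], [], [], 0⟩,
  ⟨112, 15, 2, [7], [(2, 7, [(1, 7), (3, 1), (5, 1), (9, 7), (11, 7), (13, 1), (17, 1), (19, 1),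
    (25, 7), (27, 1), (33, 1), (41, 1)])], [], 2⟩,
  ⟨112, 27, 4, [7], [], [], 0⟩,
  ⟨112, 29, 4, [7], [(2, 7, [(1, 63), (3, 1), (5, 1), (9, 7), (11, 7), (13, 1)])], [], 2⟩,
  ⟨112, 41, 2, [7], [], [], 0⟩,
  ⟨112, 43, 4, [7], [(2, 7, [(1, 31), (3, 1), (5, 1), (11, 7), (15, 7), (19, 1)])], [], 2⟩,
  ⟨112, 55, 2, [7], [], [], 0⟩,
  ⟨112, 57, 2, [7], [(2, 7, [(1, 231), (3, 1), (5, 1), (9, 7), (11, 7), (13, 1), (15, 7), (17,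
    1), (19, 1), (23, 7), (25, 7), (27, 1)])], [], 2⟩,
  ⟨112, 69, 4, [7], [], [], 0⟩,
  ⟨112, 71, 2, [7], [(2, 7, [(1, 55), (3, 1), (5, 1), (9, 7), (13, 1), (15, 7), (17, 1), (23, 7),
    (29, 7), (31, 1), (37, 7), (45, 1)])], [], 2⟩,
  ⟨112, 83, 4, [7], [], [], 0⟩,
  ⟨112, 85, 4, [7], [(2, 7, [(1, 63), (3, 1), (5, 1), (9, 7), (11, 7), (13, 1)])], [], 2⟩,
  ⟨112, 97, 2, [7], [], [], 0⟩,
  ⟨112, 99, 4, [7], [(2, 7, [(1, 31), (3, 1), (5, 1), (11, 7), (15, 7), (19, 1)])], [], 2⟩,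
  ⟨112, 111, 2, [7], [], [], 0⟩]

/-- degree 113 -/
def t113 : List Ent := [
  ⟨113, 15, 4, [113], [], [], 0⟩,
  ⟨113, 18, 8, [113], [], [], 0⟩,
  ⟨113, 35, 16, [113], [], [], 0⟩,
  ⟨113, 40, 16, [113], [], [], 0⟩,
  ⟨113, 42, 16, [113], [], [], 0⟩,
  ⟨113, 44, 8, [113], [], [], 0⟩,
  ⟨113, 48, 16, [113], [], [], 0⟩,
  ⟨113, 65, 16, [113], [], [], 0⟩,
  ⟨113, 69, 8, [113], [], [], 0⟩,
  ⟨113, 71, 16, [113], [], [], 0⟩,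
  ⟨113, 73, 16, [113], [], [], 0⟩,
  ⟨113, 78, 16, [113], [], [], 0⟩,
  ⟨113, 95, 8, [113], [], [], 0⟩,
  ⟨113, 98, 4, [113], [], [], 0⟩,
  ⟨113, 112, 2, [113], [], [], 0⟩]

/-- degree 114 -/
def t114 : List Ent := [
  ⟨114, 37, 2, [3, 19], [(2, 2, [(1, 1), (5, 1), (7, 1), (11, 1), (13, 1), (17, 1), (23, 1), (29,
    1), (35, 1)])], [.hodge [6, 24, 42, 44, 50, 56, 62, 68, 74, 80, 86, 92]], 10⟩,
  ⟨114, 77, 2, [3, 19], [(12, 2, [(1, 1), (5, 1), (7, 1), (11, 1), (13, 1), (17, 1), (23, 1),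
    (29, 1), (35, 1)])], [.hodge [6, 24, 42, 44, 50, 56, 62, 68, 74, 80, 86, 92]], 12⟩,
  ⟨114, 113, 2, [3, 19], [], [], 0⟩]

/-- degree 115 -/
def t115 : List Ent := [
  ⟨115, 22, 4, [5, 23], [(8, 1, [(1, 1), (2, 1), (3, 1), (4, 1), (6, 1), (7, 1), (8, 1), (9, 1),
    (11, 1), (13, 1), (18, 1)]), (1, 0, [])], [], 8⟩,
  ⟨115, 24, 2, [5, 23], [(8, 1, [(1, 1), (2, 1), (3, 1), (4, 1), (6, 1), (7, 1), (8, 1), (9, 1),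
    (11, 1), (12, 1), (13, 1), (16, 1), (17, 1), (18, 1), (21, 1), (22, 1), (26, 1), (27, 1),
    (31, 1), (32, 1), (36, 1), (41, 1)]), (1, 0, [])], [.hodge [5, 15, 28, 30, 33, 38, 40, 43,
    46, 48, 51, 53, 55, 56, 58, 61, 63, 66, 68, 71, 73, 76, 78, 81, 86, 91, 96, 101]], 12⟩,
  ⟨115, 47, 4, [5, 23], [(8, 1, [(1, 1), (2, 1), (3, 1), (4, 1), (6, 1), (7, 1), (8, 1), (9, 1),
    (11, 1), (13, 1), (18, 1)]), (1, 0, [])], [.hodge [5, 15, 28, 30, 33, 38, 40, 43, 46, 48, 51,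
    53, 55, 56, 58, 61, 63, 66, 68, 71, 73, 76, 78, 81, 86, 91, 96, 101]], 12⟩,
  ⟨115, 68, 4, [5, 23], [(8, 1, [(1, 1), (2, 1), (3, 1), (4, 1), (6, 1), (7, 1), (8, 1), (9, 1),
    (11, 1), (13, 1), (18, 1)]), (1, 0, [])], [], 8⟩,
  ⟨115, 91, 2, [5, 23], [(8, 1, [(1, 1), (2, 1), (3, 1), (4, 1), (6, 1), (7, 1), (8, 1), (9, 1),
    (11, 1), (12, 1), (13, 1), (16, 1), (17, 1), (18, 1), (21, 1), (22, 1), (26, 1), (27, 1),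
    (31, 1), (32, 1), (36, 1), (41, 1)]), (1, 0, [])], [.hodge [5, 15, 28, 30, 33, 38, 40, 43,
    46, 48, 51, 53, 55, 56, 58, 61, 63, 66, 68, 71, 73, 76, 78, 81, 86, 91, 96, 101]], 10⟩,
  ⟨115, 93, 4, [5, 23], [(8, 1, [(1, 1), (2, 1), (3, 1), (4, 1), (6, 1), (7, 1), (8, 1), (9, 1),
    (11, 1), (13, 1), (18, 1)]), (1, 0, [])], [.hodge [5, 15, 28, 30, 33, 38, 40, 43, 46, 48, 51,
    53, 55, 56, 58, 61, 63, 66, 68, 71, 73, 76, 78, 81, 86, 91, 96, 101]], 12⟩,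
  ⟨115, 114, 2, [5, 23], [], [], 0⟩]

/-- degree 117 -/
def t117 : List Ent := [
  ⟨117, 8, 4, [3, 13], [(8, 2, [(1, 1), (2, 1), (4, 1), (5, 1), (7, 3), (10, 1), (17, 3), (23,
    3), (25, 1)]), (1, 0, [])], [], 8⟩,
  ⟨117, 44, 4, [3, 13], [(8, 2, [(1, 1), (2, 1), (4, 1), (5, 1), (7, 3), (10, 1), (17, 3), (23,
    3), (25, 1)]), (1, 0, [])], [], 8⟩,
  ⟨117, 53, 2, [3, 13], [(4, 1, [(2, 1), (5, 1), (7, 1), (8, 1), (19, 1), (28, 1), (32, 1), (34,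
    1), (41, 1)]), (1, 0, [])], [.surf [12, 30, 114, 78]], 12⟩,
  ⟨117, 64, 2, [3, 13], [(8, 2, [(1, 1), (2, 1), (4, 1), (5, 1), (7, 3), (8, 1), (10, 1), (14,
    3), (16, 1), (17, 3), (19, 3), (23, 3), (25, 1), (28, 3), (32, 1), (34, 3), (41, 1), (43,
    1)]), (2, 2, [(1, 1), (2, 3), (4, 1), (5, 3), (7, 1), (8, 3), (10, 1), (14, 3), (16, 1), (17,
    3), (19, 1), (23, 3), (25, 1), (28, 1), (32, 3), (34, 1), (41, 3), (43, 1)]), (1, 0, [])],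
    [], 10⟩,
  ⟨117, 73, 4, [3, 13], [(2, 2, [(1, 1), (2, 3), (4, 1), (5, 3), (7, 1), (10, 1), (17, 3), (23,
    3), (25, 1)]), (1, 0, [])], [.surf [33, 96, 114, 108]], 10⟩,
  ⟨117, 109, 4, [3, 13], [(2, 2, [(1, 1), (2, 3), (4, 1), (5, 3), (7, 1), (10, 1), (17, 3), (23,
    3), (25, 1)]), (1, 0, [])], [.surf [33, 96, 114, 108]], 10⟩,
  ⟨117, 116, 2, [3, 13], [], [], 0⟩]

/-- degree 118 -/
def t118 : List Ent := [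
  ⟨118, 117, 2, [59], [], [], 0⟩]

/-- degree 119 -/
def t119 : List Ent := [
  ⟨119, 6, 16, [7, 17], [(8, 1, [(1, 1), (2, 1), (3, 1)]), (1, 0, [])], [], 8⟩,
  ⟨119, 8, 8, [7, 17], [(8, 1, [(1, 1), (2, 1), (3, 1), (4, 1), (5, 1), (6, 1)]), (1, 0, [])],
    [.hodge [14, 17, 21, 24, 31, 38, 41, 42, 45, 48, 52, 55, 58, 59, 62, 65, 66, 69, 72, 73, 76,
    79, 83, 86, 90, 93, 100, 107]], 10⟩,
  ⟨119, 13, 4, [7, 17], [(8, 1, [(1, 1), (2, 1), (3, 1), (4, 1), (5, 1), (6, 1), (8, 1), (10, 1),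
    (16, 1), (20, 1), (23, 1), (25, 1)]), (1, 0, [])], [], 8⟩,
  ⟨119, 15, 8, [7, 17], [(8, 1, [(1, 1), (2, 1), (3, 1), (4, 1), (5, 1), (6, 1)]), (1, 0, [])],
    [.hodge [14, 17, 21, 24, 31, 38, 41, 42, 45, 48, 52, 55, 58, 59, 62, 65, 66, 69, 72, 73, 76,
    79, 83, 86, 90, 93, 100, 107]], 10⟩,
  ⟨119, 20, 16, [7, 17], [(8, 1, [(1, 1), (2, 1), (3, 1)]), (1, 0, [])], [], 8⟩,
  ⟨119, 22, 16, [7, 17], [(8, 1, [(1, 1), (2, 1), (3, 1)]), (1, 0, [])], [.hodge [14, 17, 21, 24,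
    31, 38, 41, 42, 45, 48, 52, 55, 58, 59, 62, 65, 66, 69, 72, 73, 76, 79, 83, 86, 90, 93, 100,
    107]], 10⟩,
  ⟨119, 27, 16, [7, 17], [(8, 1, [(1, 1), (2, 1), (3, 1)]), (1, 0, [])], [], 8⟩,
  ⟨119, 29, 16, [7, 17], [(8, 1, [(1, 1), (2, 1), (3, 1)]), (1, 0, [])], [.hodge [14, 17, 21, 24,
    31, 38, 41, 42, 45, 48, 52, 55, 58, 59, 62, 65, 66, 69, 72, 73, 76, 79, 83, 86, 90, 93, 100,
    107]], 10⟩,
  ⟨119, 36, 8, [7, 17], [(8, 1, [(1, 1), (2, 1), (3, 1), (4, 1), (5, 1), (6, 1)]), (1, 0, [])],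
    [.hodge [14, 17, 21, 24, 31, 38, 41, 42, 45, 48, 52, 55, 58, 59, 62, 65, 66, 69, 72, 73, 76,
    79, 83, 86, 90, 93, 100, 107]], 10⟩,
  ⟨119, 41, 16, [7, 17], [(8, 1, [(1, 1), (2, 1), (3, 1)]), (1, 0, [])], [], 8⟩,
  ⟨119, 43, 8, [7, 17], [(8, 1, [(1, 1), (2, 1), (3, 1), (4, 1), (5, 1), (6, 1)]), (1, 0, [])],
    [.hodge [14, 17, 21, 24, 31, 38, 41, 42, 45, 48, 52, 55, 58, 59, 62, 65, 66, 69, 72, 73, 76,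
    79, 83, 86, 90, 93, 100, 107]], 10⟩,
  ⟨119, 48, 16, [7, 17], [(8, 1, [(1, 1), (2, 1), (3, 1)]), (1, 0, [])], [], 8⟩,
  ⟨119, 50, 2, [7, 17], [(8, 1, [(1, 1), (2, 1), (3, 1), (4, 1), (5, 1), (6, 1), (8, 1), (9, 1),
    (10, 1), (11, 1), (13, 1), (15, 1), (16, 1), (18, 1), (20, 1), (22, 1), (23, 1), (25, 1),
    (27, 1), (30, 1), (32, 1), (37, 1), (39, 1), (44, 1)]), (1, 0, [])], [.hodge [14, 17, 21, 24,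
    31, 38, 41, 42, 45, 48, 52, 55, 58, 59, 62, 65, 66, 69, 72, 73, 76, 79, 83, 86, 90, 93, 100,
    107]], 10⟩,
  ⟨119, 55, 4, [7, 17], [(8, 1, [(1, 1), (2, 1), (3, 1), (4, 1), (5, 1), (6, 1), (8, 1), (10, 1),
    (16, 1), (20, 1), (23, 1), (25, 1)]), (1, 0, [])], [], 8⟩,
  ⟨119, 57, 16, [7, 17], [(8, 1, [(1, 1), (2, 1), (3, 1)]), (1, 0, [])], [.hodge [14, 17, 21, 24,
    31, 38, 41, 42, 45, 48, 52, 55, 58, 59, 62, 65, 66, 69, 72, 73, 76, 79, 83, 86, 90, 93, 100,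
    107]], 10⟩,
  ⟨119, 62, 16, [7, 17], [(8, 1, [(1, 1), (2, 1), (3, 1)]), (1, 0, [])], [], 8⟩,
  ⟨119, 64, 4, [7, 17], [(8, 1, [(1, 1), (2, 1), (3, 1), (4, 1), (5, 1), (6, 1), (8, 1), (10, 1),
    (16, 1), (20, 1), (23, 1), (25, 1)]), (1, 0, [])], [.hodge [14, 17, 21, 24, 31, 38, 41, 42,
    45, 48, 52, 55, 58, 59, 62, 65, 66, 69, 72, 73, 76, 79, 83, 86, 90, 93, 100, 107]], 10⟩,
  ⟨119, 69, 2, [7, 17], [(8, 1, [(1, 1), (2, 1), (3, 1), (4, 1), (5, 1), (6, 1), (8, 1), (9, 1),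
    (10, 1), (11, 1), (13, 1), (15, 1), (16, 1), (18, 1), (20, 1), (22, 1), (23, 1), (25, 1),
    (27, 1), (30, 1), (32, 1), (37, 1), (39, 1), (44, 1)]), (1, 0, [])], [.hodge [14, 17, 21, 24,
    31, 38, 41, 42, 45, 48, 52, 55, 58, 59, 62, 65, 66, 69, 72, 73, 76, 79, 83, 86, 90, 93, 100,
    107]], 12⟩,
  ⟨119, 71, 16, [7, 17], [(8, 1, [(1, 1), (2, 1), (3, 1)]), (1, 0, [])], [.hodge [14, 17, 21, 24,
    31, 38, 41, 42, 45, 48, 52, 55, 58, 59, 62, 65, 66, 69, 72, 73, 76, 79, 83, 86, 90, 93, 100,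
    107]], 10⟩,
  ⟨119, 76, 8, [7, 17], [(8, 1, [(1, 1), (2, 1), (3, 1), (4, 1), (5, 1), (6, 1)]), (1, 0, [])],
    [], 8⟩,
  ⟨119, 78, 16, [7, 17], [(8, 1, [(1, 1), (2, 1), (3, 1)]), (1, 0, [])], [.hodge [14, 17, 21, 24,
    31, 38, 41, 42, 45, 48, 52, 55, 58, 59, 62, 65, 66, 69, 72, 73, 76, 79, 83, 86, 90, 93, 100,
    107]], 10⟩,
  ⟨119, 83, 8, [7, 17], [(8, 1, [(1, 1), (2, 1), (3, 1), (4, 1), (5, 1), (6, 1)]), (1, 0, [])],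
    [], 8⟩,
  ⟨119, 90, 16, [7, 17], [(8, 1, [(1, 1), (2, 1), (3, 1)]), (1, 0, [])], [], 8⟩,
  ⟨119, 92, 16, [7, 17], [(8, 1, [(1, 1), (2, 1), (3, 1)]), (1, 0, [])], [.hodge [14, 17, 21, 24,
    31, 38, 41, 42, 45, 48, 52, 55, 58, 59, 62, 65, 66, 69, 72, 73, 76, 79, 83, 86, 90, 93, 100,
    107]], 10⟩,
  ⟨119, 97, 16, [7, 17], [(8, 1, [(1, 1), (2, 1), (3, 1)]), (1, 0, [])], [], 8⟩,
  ⟨119, 99, 16, [7, 17], [(8, 1, [(1, 1), (2, 1), (3, 1)]), (1, 0, [])], [.hodge [14, 17, 21, 24,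
    31, 38, 41, 42, 45, 48, 52, 55, 58, 59, 62, 65, 66, 69, 72, 73, 76, 79, 83, 86, 90, 93, 100,
    107]], 10⟩,
  ⟨119, 104, 8, [7, 17], [(8, 1, [(1, 1), (2, 1), (3, 1), (4, 1), (5, 1), (6, 1)]), (1, 0, [])],
    [], 8⟩,
  ⟨119, 106, 4, [7, 17], [(8, 1, [(1, 1), (2, 1), (3, 1), (4, 1), (5, 1), (6, 1), (8, 1), (10,
    1), (16, 1), (20, 1), (23, 1), (25, 1)]), (1, 0, [])], [.hodge [14, 17, 21, 24, 31, 38, 41,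
    42, 45, 48, 52, 55, 58, 59, 62, 65, 66, 69, 72, 73, 76, 79, 83, 86, 90, 93, 100, 107]], 10⟩,
  ⟨119, 111, 8, [7, 17], [(8, 1, [(1, 1), (2, 1), (3, 1), (4, 1), (5, 1), (6, 1)]), (1, 0, [])],
    [], 8⟩,
  ⟨119, 113, 16, [7, 17], [(8, 1, [(1, 1), (2, 1), (3, 1)]), (1, 0, [])], [.hodge [14, 17, 21,
    24, 31, 38, 41, 42, 45, 48, 52, 55, 58, 59, 62, 65, 66, 69, 72, 73, 76, 79, 83, 86, 90, 93,
    100, 107]], 10⟩,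
  ⟨119, 118, 2, [7, 17], [], [], 0⟩]

/-- degree 120 -/
def t120 : List Ent := [
  ⟨120, 7, 4, [3, 5], [], [.surf [19, 104, 119, 118], .surf [40, 89, 118, 113]], 10⟩,
  ⟨120, 11, 2, [3, 5], [], [.surf [6, 11, 119, 104], .surf [24, 38, 119, 59]], 12⟩,
  ⟨120, 13, 4, [3, 5], [], [.surf [23, 104, 119, 114], .surf [4, 37, 119, 80]], 10⟩,
  ⟨120, 17, 4, [3, 5], [(8, 6, [(1, 17), (11, 7), (13, 7), (23, 1)])], [], 8⟩,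
  ⟨120, 19, 2, [3, 5], [(8, 6, [(1, 33), (7, 7), (11, 7), (17, 1), (23, 1), (29, 7), (41, 7),
    (47, 1)])], [.surf [22, 40, 119, 59]], 10⟩,
  ⟨120, 23, 4, [3, 5], [(8, 6, [(1, 1), (7, 7), (11, 7), (19, 1)])], [], 8⟩,
  ⟨120, 29, 2, [3, 5], [], [], 0⟩,
  ⟨120, 31, 2, [3, 5], [(8, 6, [(1, 7), (7, 1), (11, 1), (13, 1), (17, 7), (29, 1), (37, 1), (41,
    1)])], [.surf [10, 31, 119, 80], .surf [24, 38, 119, 59]], 14⟩,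
  ⟨120, 37, 4, [3, 5], [], [.surf [23, 104, 119, 114], .surf [4, 37, 119, 80]], 10⟩,
  ⟨120, 41, 2, [3, 5], [], [.surf [8, 19, 119, 94], .surf [24, 38, 119, 59]], 12⟩,
  ⟨120, 43, 4, [3, 5], [], [.surf [56, 67, 119, 118], .surf [40, 88, 96, 16]], 10⟩,
  ⟨120, 47, 4, [3, 5], [(8, 6, [(1, 1), (7, 7), (11, 7), (19, 1)])], [], 8⟩,
  ⟨120, 49, 2, [3, 5], [(8, 6, [(1, 55), (7, 5), (11, 5), (13, 1), (19, 3), (23, 3), (31, 7),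
    (43, 1)])], [.surf [4, 37, 119, 80]], 10⟩,
  ⟨120, 53, 4, [3, 5], [(8, 6, [(1, 21), (7, 7), (13, 3), (19, 1)])], [], 8⟩,
  ⟨120, 59, 2, [3, 5], [], [], 0⟩,
  ⟨120, 61, 2, [3, 5], [(8, 6, [(1, 71), (7, 1), (11, 1), (13, 1), (17, 7), (19, 7), (23, 7),
    (29, 1)])], [.surf [22, 40, 119, 59], .surf [24, 38, 119, 59]], 14⟩,
  ⟨120, 67, 4, [3, 5], [], [.surf [56, 67, 119, 118], .surf [40, 88, 96, 16]], 10⟩,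
  ⟨120, 71, 2, [3, 5], [], [.surf [56, 71, 119, 114], .surf [24, 38, 119, 59]], 12⟩,
  ⟨120, 73, 4, [3, 5], [], [.surf [8, 114, 119, 119], .surf [40, 82, 119, 119]], 10⟩,
  ⟨120, 77, 4, [3, 5], [(8, 6, [(1, 21), (7, 7), (13, 3), (19, 1)])], [], 8⟩,
  ⟨120, 79, 2, [3, 5], [(8, 6, [(1, 7), (7, 5), (11, 5), (13, 1), (17, 3), (19, 3), (31, 7), (37,
    1)])], [.surf [22, 40, 119, 59]], 10⟩,
  ⟨120, 83, 4, [3, 5], [(8, 6, [(1, 1), (7, 3), (11, 3), (31, 1)])], [], 8⟩,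
  ⟨120, 89, 2, [3, 5], [], [], 0⟩,
  ⟨120, 91, 2, [3, 5], [(8, 6, [(1, 39), (7, 1), (11, 1), (13, 1), (19, 7), (23, 7), (31, 7),
    (43, 1)])], [.surf [40, 91, 119, 110], .surf [24, 38, 119, 59]], 14⟩,
  ⟨120, 97, 4, [3, 5], [], [.surf [8, 114, 119, 119], .surf [40, 82, 119, 119]], 10⟩,
  ⟨120, 101, 2, [3, 5], [], [.surf [24, 101, 119, 116], .surf [56, 79, 119, 106]], 12⟩,
  ⟨120, 103, 4, [3, 5], [], [.surf [19, 104, 119, 118], .surf [40, 89, 118, 113]], 10⟩,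
  ⟨120, 107, 4, [3, 5], [(8, 6, [(1, 1), (7, 3), (11, 3), (31, 1)])], [], 8⟩,
  ⟨120, 109, 2, [3, 5], [(8, 6, [(1, 81), (7, 7), (13, 7), (17, 1), (19, 1), (29, 7), (37, 7),
    (49, 1)])], [.surf [40, 92, 119, 109]], 10⟩,
  ⟨120, 113, 4, [3, 5], [(8, 6, [(1, 17), (11, 7), (13, 7), (23, 1)])], [], 8⟩,
  ⟨120, 119, 2, [3, 5], [], [], 0⟩]

/-- degree 121 -/
def t121 : List Ent := [
  ⟨121, 120, 2, [11], [], [], 0⟩]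

/-- degree 122 -/
def t122 : List Ent := [
  ⟨122, 11, 4, [61], [], [], 0⟩,
  ⟨122, 111, 4, [61], [], [], 0⟩,
  ⟨122, 121, 2, [61], [], [], 0⟩]

/-- degree 124 -/
def t124 : List Ent := [
  ⟨124, 61, 2, [31], [], [], 0⟩,
  ⟨124, 63, 2, [31], [(2, 3, [(5, 1), (9, 1), (11, 1), (13, 1), (21, 1)])], [], 2⟩,
  ⟨124, 123, 2, [31], [], [], 0⟩]

/-- degree 125 -/
def t125 : List Ent := [
  ⟨125, 57, 4, [5], [], [], 0⟩,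
  ⟨125, 68, 4, [5], [], [], 0⟩,
  ⟨125, 124, 2, [5], [], [], 0⟩]

/-- degree 126 -/
def t126 : List Ent := [
  ⟨126, 55, 2, [3, 7], [(2, 2, [(1, 1), (5, 1), (11, 1), (13, 1), (17, 1), (19, 1), (29, 1), (31,
    1), (47, 1)])], [.surf [30, 108, 123, 117]], 10⟩,
  ⟨126, 71, 2, [3, 7], [(12, 2, [(1, 1), (5, 1), (11, 1), (13, 1), (17, 1), (19, 1), (29, 1),
    (31, 1), (47, 1)])], [.surf [36, 105, 123, 114]], 12⟩,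
  ⟨126, 125, 2, [3, 7], [], [], 0⟩]

/-- degree 127 -/
def t127 : List Ent := [
  ⟨127, 126, 2, [127], [], [], 0⟩]

/-- degree 128 -/
def t128 : List Ent := [
  ⟨128, 3, 32, [], [], [], 0⟩,
  ⟨128, 5, 32, [], [], [], 0⟩,
  ⟨128, 7, 16, [], [], [], 0⟩,
  ⟨128, 9, 16, [], [], [], 0⟩,
  ⟨128, 11, 32, [], [], [], 0⟩,
  ⟨128, 13, 32, [], [], [], 0⟩,
  ⟨128, 15, 8, [], [], [], 0⟩,
  ⟨128, 17, 8, [], [], [], 0⟩,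
  ⟨128, 19, 32, [], [], [], 0⟩,
  ⟨128, 21, 32, [], [], [], 0⟩,
  ⟨128, 23, 16, [], [], [], 0⟩,
  ⟨128, 25, 16, [], [], [], 0⟩,
  ⟨128, 27, 32, [], [], [], 0⟩,
  ⟨128, 29, 32, [], [], [], 0⟩,
  ⟨128, 31, 4, [], [], [], 0⟩,
  ⟨128, 33, 4, [], [], [], 0⟩,
  ⟨128, 35, 32, [], [], [], 0⟩,
  ⟨128, 37, 32, [], [], [], 0⟩,
  ⟨128, 39, 16, [], [], [], 0⟩,
  ⟨128, 41, 16, [], [], [], 0⟩,
  ⟨128, 43, 32, [], [], [], 0⟩,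
  ⟨128, 45, 32, [], [], [], 0⟩,
  ⟨128, 47, 8, [], [], [], 0⟩,
  ⟨128, 49, 8, [], [], [], 0⟩,
  ⟨128, 51, 32, [], [], [], 0⟩,
  ⟨128, 53, 32, [], [], [], 0⟩,
  ⟨128, 55, 16, [], [], [], 0⟩,
  ⟨128, 57, 16, [], [], [], 0⟩,
  ⟨128, 59, 32, [], [], [], 0⟩,
  ⟨128, 61, 32, [], [], [], 0⟩,
  ⟨128, 63, 2, [], [], [], 0⟩,
  ⟨128, 65, 2, [], [], [], 0⟩,
  ⟨128, 67, 32, [], [], [], 0⟩,
  ⟨128, 69, 32, [], [], [], 0⟩,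
  ⟨128, 71, 16, [], [], [], 0⟩,
  ⟨128, 73, 16, [], [], [], 0⟩,
  ⟨128, 75, 32, [], [], [], 0⟩,
  ⟨128, 77, 32, [], [], [], 0⟩,
  ⟨128, 79, 8, [], [], [], 0⟩,
  ⟨128, 81, 8, [], [], [], 0⟩,
  ⟨128, 83, 32, [], [], [], 0⟩,
  ⟨128, 85, 32, [], [], [], 0⟩,
  ⟨128, 87, 16, [], [], [], 0⟩,
  ⟨128, 89, 16, [], [], [], 0⟩,
  ⟨128, 91, 32, [], [], [], 0⟩,
  ⟨128, 93, 32, [], [], [], 0⟩,
  ⟨128, 95, 4, [], [], [], 0⟩,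
  ⟨128, 97, 4, [], [], [], 0⟩,
  ⟨128, 99, 32, [], [], [], 0⟩,
  ⟨128, 101, 32, [], [], [], 0⟩,
  ⟨128, 103, 16, [], [], [], 0⟩,
  ⟨128, 105, 16, [], [], [], 0⟩,
  ⟨128, 107, 32, [], [], [], 0⟩,
  ⟨128, 109, 32, [], [], [], 0⟩,
  ⟨128, 111, 8, [], [], [], 0⟩,
  ⟨128, 113, 8, [], [], [], 0⟩,
  ⟨128, 115, 32, [], [], [], 0⟩,
  ⟨128, 117, 32, [], [], [], 0⟩,
  ⟨128, 119, 16, [], [], [], 0⟩,
  ⟨128, 121, 16, [], [], [], 0⟩,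
  ⟨128, 123, 32, [], [], [], 0⟩,
  ⟨128, 125, 32, [], [], [], 0⟩,
  ⟨128, 127, 2, [], [], [], 0⟩]

/-- degree 129 -/
def t129 : List Ent := [
  ⟨129, 44, 2, [3, 43], [(12, 1, [(1, 1), (2, 1), (4, 1), (5, 1), (7, 1), (8, 1), (10, 1), (11,
    1), (13, 1), (14, 1), (16, 1), (17, 1), (19, 1), (20, 1), (22, 1), (25, 1), (28, 1), (31, 1),
    (34, 1), (37, 1), (40, 1)]), (1, 0, [])], [.hodge [3, 12, 21, 30, 39, 46, 48, 49, 52, 55, 57,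
    58, 61, 64, 67, 70, 73, 76, 79, 82, 85, 88, 91, 94, 97, 100, 103, 106]], 12⟩,
  ⟨129, 85, 2, [3, 43], [(2, 1, [(1, 1), (2, 1), (4, 1), (5, 1), (7, 1), (8, 1), (10, 1), (11,
    1), (13, 1), (14, 1), (16, 1), (17, 1), (19, 1), (20, 1), (22, 1), (25, 1), (28, 1), (31, 1),
    (34, 1), (37, 1), (40, 1)]), (1, 0, [])], [.hodge [3, 12, 21, 30, 39, 46, 48, 49, 52, 55, 57,
    58, 61, 64, 67, 70, 73, 76, 79, 82, 85, 88, 91, 94, 97, 100, 103, 106]], 10⟩,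
  ⟨129, 128, 2, [3, 43], [], [], 0⟩]

/-- degree 130 -/
def t130 : List Ent := [
  ⟨130, 21, 4, [5, 13], [(8, 2, [(7, 1), (9, 1)])], [.hodge [10, 30, 36, 46, 52, 56, 60, 62, 66,
    72, 76, 82, 86, 92, 102, 112]], 10⟩,
  ⟨130, 27, 4, [5, 13], [(8, 2, [(7, 1), (9, 1)])], [.hodge [10, 30, 36, 46, 52, 56, 60, 62, 66,
    72, 76, 82, 86, 92, 102, 112]], 12⟩,
  ⟨130, 31, 4, [5, 13], [(8, 2, [(7, 1), (9, 1)])], [.hodge [10, 30, 36, 46, 52, 56, 60, 62, 66,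
    72, 76, 82, 86, 92, 102, 112]], 10⟩,
  ⟨130, 47, 4, [5, 13], [], [], 0⟩,
  ⟨130, 51, 2, [5, 13], [(8, 2, [(7, 1), (9, 1), (17, 1), (19, 1)])], [.hodge [10, 30, 36, 46,
    52, 56, 60, 62, 66, 72, 76, 82, 86, 92, 102, 112]], 10⟩,
  ⟨130, 53, 4, [5, 13], [(8, 2, [(7, 1), (9, 1)])], [.hodge [10, 30, 36, 46, 52, 56, 60, 62, 66,
    72, 76, 82, 86, 92, 102, 112]], 12⟩,
  ⟨130, 57, 4, [5, 13], [], [], 0⟩,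
  ⟨130, 73, 4, [5, 13], [], [], 0⟩,
  ⟨130, 77, 4, [5, 13], [(8, 2, [(7, 1), (9, 1)])], [], 8⟩,
  ⟨130, 79, 2, [5, 13], [(8, 2, [(7, 1), (9, 1), (17, 1), (19, 1)])], [.hodge [10, 30, 36, 46,
    52, 56, 60, 62, 66, 72, 76, 82, 86, 92, 102, 112]], 12⟩,
  ⟨130, 83, 4, [5, 13], [], [], 0⟩,
  ⟨130, 99, 4, [5, 13], [(8, 2, [(7, 1), (9, 1)])], [], 8⟩,
  ⟨130, 103, 4, [5, 13], [(8, 2, [(7, 1), (9, 1)])], [], 8⟩,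
  ⟨130, 109, 4, [5, 13], [(8, 2, [(7, 1), (9, 1)])], [], 8⟩,
  ⟨130, 129, 2, [5, 13], [], [], 0⟩]

/-- degree 131 -/
def t131 : List Ent := [
  ⟨131, 130, 2, [131], [], [], 0⟩]

/-- degree 132 -/
def t132 : List Ent := [
  ⟨132, 23, 2, [3, 11], [], [.surf [8, 43, 131, 82], .curve [12, 43, 77] [131, 123, 10]], 12⟩,
  ⟨132, 43, 2, [3, 11], [], [.surf [44, 102, 129, 121], .surf [8, 44, 130, 82]], 10⟩,
  ⟨132, 65, 2, [3, 11], [], [], 0⟩,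
  ⟨132, 67, 2, [3, 11], [], [.surf [22, 33, 121, 88], .surf [8, 44, 130, 82], .hodge [24, 33, 45,
    57, 66, 69, 72, 81, 93, 120]], 14⟩,
  ⟨132, 89, 2, [3, 11], [], [.surf [8, 38, 130, 88], .hodge [24, 33, 45, 57, 66, 69, 72, 81, 93,
    120]], 12⟩,
  ⟨132, 109, 2, [3, 11], [], [.surf [22, 33, 121, 88], .surf [8, 44, 130, 82]], 10⟩,
  ⟨132, 131, 2, [3, 11], [], [], 0⟩]

/-- degree 133 -/
def t133 : List Ent := [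
  ⟨133, 20, 2, [7, 19], [(4, 1, [(2, 1), (3, 1), (5, 1), (16, 1), (17, 1), (22, 1), (24, 1), (36,
    1), (43, 1)]), (1, 0, [])], [.hodge [7, 21, 26, 33, 35, 38, 40, 45, 47, 52, 54, 56, 59, 61,
    64, 66, 68, 71, 73, 75, 78, 80, 82, 85, 87, 92, 94, 99, 101, 106, 113, 120]], 12⟩,
  ⟨133, 113, 2, [7, 19], [(10, 1, [(2, 1), (3, 1), (5, 1), (16, 1), (17, 1), (22, 1), (24, 1),
    (36, 1), (43, 1)]), (1, 0, [])], [.hodge [7, 21, 26, 33, 35, 38, 40, 45, 47, 52, 54, 56, 59,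
    61, 64, 66, 68, 71, 73, 75, 78, 80, 82, 85, 87, 92, 94, 99, 101, 106, 113, 120]], 10⟩,
  ⟨133, 132, 2, [7, 19], [], [], 0⟩]

/-- degree 134 -/
def t134 : List Ent := [
  ⟨134, 133, 2, [67], [], [], 0⟩]

/-- degree 135 -/
def t135 : List Ent := [
  ⟨135, 26, 2, [3, 5], [(8, 1, [(1, 1), (2, 1), (4, 1), (7, 1), (8, 1), (11, 1), (13, 1), (14,
    1), (17, 1), (19, 1), (22, 1), (23, 1), (28, 1), (29, 1), (34, 1), (38, 1), (44, 1), (49,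
    1)]), (1, 0, [])], [.surf [18, 45, 126, 81]], 12⟩,
  ⟨135, 28, 4, [3, 5], [(8, 1, [(1, 1), (2, 1), (4, 1), (7, 1), (8, 1), (11, 1), (13, 1), (17,
    1), (22, 1)]), (1, 0, [])], [.surf [45, 108, 126, 126]], 10⟩,
  ⟨135, 53, 4, [3, 5], [(8, 1, [(1, 1), (2, 1), (4, 1), (7, 1), (8, 1), (11, 1), (13, 1), (17,
    1), (22, 1)]), (1, 0, [])], [], 8⟩,
  ⟨135, 82, 4, [3, 5], [(8, 1, [(1, 1), (2, 1), (4, 1), (7, 1), (8, 1), (11, 1), (13, 1), (17,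
    1), (22, 1)]), (1, 0, [])], [.surf [45, 108, 126, 126]], 10⟩,
  ⟨135, 107, 4, [3, 5], [(8, 1, [(1, 1), (2, 1), (4, 1), (7, 1), (8, 1), (11, 1), (13, 1), (17,
    1), (22, 1)]), (1, 0, [])], [], 8⟩,
  ⟨135, 109, 2, [3, 5], [(8, 1, [(1, 1), (2, 1), (4, 1), (7, 1), (8, 1), (11, 1), (13, 1), (14,
    1), (17, 1), (19, 1), (22, 1), (23, 1), (28, 1), (29, 1), (34, 1), (38, 1), (44, 1), (49,
    1)]), (1, 0, [])], [.surf [18, 45, 126, 81]], 10⟩,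
  ⟨135, 134, 2, [3, 5], [], [], 0⟩]

/-- the table -/
def tab (m : ℕ) : List Ent :=
  match m with
  | 3 => t3
  | 4 => t4
  | 5 => t5
  | 6 => t6
  | 7 => t7
  | 8 => t8
  | 9 => t9
  | 10 => t10
  | 11 => t11
  | 12 => t12
  | 13 => t13
  | 14 => t14
  | 15 => t15
  | 16 => t16
  | 17 => t17
  | 18 => t18
  | 19 => t19
  | 20 => t20
  | 21 => t21
  | 22 => t22
  | 23 => t23
  | 24 => t24
  | 25 => t25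
  | 26 => t26
  | 27 => t27
  | 28 => t28
  | 29 => t29
  | 30 => t30
  | 31 => t31
  | 32 => t32
  | 33 => t33
  | 34 => t34
  | 35 => t35
  | 36 => t36
  | 37 => t37
  | 38 => t38
  | 39 => t39
  | 40 => t40
  | 41 => t41
  | 42 => t42
  | 43 => t43
  | 44 => t44
  | 45 => t45
  | 46 => t46
  | 47 => t47
  | 48 => t48
  | 49 => t49
  | 50 => t50
  | 51 => t51
  | 52 => t52
  | 53 => t53
  | 54 => t54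
  | 55 => t55
  | 56 => t56
  | 57 => t57
  | 58 => t58
  | 59 => t59
  | 60 => t60
  | 61 => t61
  | 62 => t62
  | 63 => t63
  | 64 => t64
  | 65 => t65
  | 66 => t66
  | 67 => t67
  | 68 => t68
  | 69 => t69
  | 70 => t70
  | 71 => t71
  | 72 => t72
  | 73 => t73
  | 74 => t74
  | 75 => t75
  | 76 => t76
  | 77 => t77
  | 78 => t78
  | 79 => t79
  | 80 => t80
  | 81 => t81
  | 82 => t82
  | 83 => t83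
  | 84 => t84
  | 85 => t85
  | 86 => t86
  | 88 => t88
  | 89 => t89
  | 90 => t90
  | 91 => t91
  | 92 => t92
  | 93 => t93
  | 94 => t94
  | 96 => t96
  | 97 => t97
  | 98 => t98
  | 99 => t99
  | 100 => t100
  | 101 => t101
  | 102 => t102
  | 103 => t103
  | 104 => t104
  | 106 => t106
  | 107 => t107
  | 108 => t108
  | 109 => t109
  | 110 => t110
  | 112 => t112
  | 113 => t113
  | 114 => t114
  | 115 => t115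
  | 117 => t117
  | 118 => t118
  | 119 => t119
  | 120 => t120
  | 121 => t121
  | 122 => t122
  | 124 => t124
  | 125 => t125
  | 126 => t126
  | 127 => t127
  | 128 => t128
  | 129 => t129
  | 130 => t130
  | 131 => t131
  | 132 => t132
  | 133 => t133
  | 134 => t134
  | 135 => t135
  | _ => []

/-- the degrees which are not treated -/
def excB (m : ℕ) : Bool := [87, 95, 105, 111, 116, 123].contains m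

/-- the check of a degree -/
def degB (m : ℕ) : Bool :=
  ((tab m).all fun e => (e.m == m) && entB e) &&
  ((List.range m).all fun h => decide (h ≤ 1) || ((Nat.gcd h m != 1) || ((h ^ 128 % m != 1) ||
    (tab m).any fun e => e.h == h)))

end Pool.Agent.N993.CP
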