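import Pool.Agent.N993.CP.OddOrd

/-!
Descent of relations along odd prime powers.
-/

set_option linter.unusedSectionVars false

namespace Pool.Agent.N993.CP

open Finset Pool.Agent.H916R2 Pool.Agent.H916T Pool.Agent.H916U Pool.Agent.H916Z Pool.Agent.H916Q
  Pool.Agent.H916Y Pool.Agent.N992 Pool.Agent.Y2.Cv

/-- the relations for the powers of `h` -/
def RelOn (m h o : ℕ) (s : Multiset (ZMod m)) : Prop :=
  (0 : ZMod m) ∉ s ∧ Even (Multiset.card s) ∧
    ∀ t : (ZMod m)ˣ, (s.map fun a => WW (h : ZMod m) o ((t : ZMod m) * a)).sum = 0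

lemma sum_mul_mod {q c : ℕ} (hq : 0 < q) (hc : c.Coprime q) (F : ℕ → ℤ) :
    ∑ j ∈ range q, F (c * j % q) = ∑ j ∈ range q, F j := by
  have hinj : Set.InjOn (fun j => c * j % q) (range q : Finset ℕ) := by
    intro i hi j hj h
    simp only [coe_range, Set.mem_Iio] at hi hj
    have h1 : c * i ≡ c * j [MOD q] := h
    have h2 := Nat.ModEq.cancel_left_of_coprime (by rw [Nat.gcd_comm]; exact hc) h1
    exact Nat.ModEq.eq_of_lt_of_lt h2 hi hj
  have himg : (range q).image (fun j => c * j % q) = range q := by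
    apply Finset.eq_of_subset_of_card_le
    · intro i hi
      obtain ⟨x, _, rfl⟩ := mem_image.mp hi
      exact mem_range.mpr (Nat.mod_lt _ hq)
    · rw [Finset.card_image_of_injOn hinj]
  conv_rhs => rw [← himg, Finset.sum_image hinj]

section step

variable {q m1 m : ℕ} [NeZero m1] [NeZero m]

/-- the descent of an element -/
def dsc (q m1 : ℕ) {m : ℕ} (a : ZMod m) : Multiset (ZMod m1) :=
  if q ∣ a.val then Multiset.replicate q ((a.val / q : ℕ) : ZMod m1) else {((a.val : ℕ) : ZMod m1)}

lemma iota_div (hm : q * m1 = m) {a : ZMod m} (ha : q ∣ a.val) :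
    (iota q ((a.val / q : ℕ) : ZMod m1) : ZMod m) = a := by
  rw [iota_natCast hm, Nat.mul_div_cancel' ha, ZMod.natCast_zmod_val]

lemma iota_cast (hm : q * m1 = m) (a : ZMod m) :
    (iota q ((a.val : ℕ) : ZMod m1) : ZMod m) = (q : ZMod m) * a := by
  rw [iota_natCast hm]
  push_cast
  rw [ZMod.natCast_zmod_val]

lemma dsc_supp (hq : q.Prime) (hm : q * m1 = m) (hqm : q ∣ m1) {a : ZMod m} {x : ZMod m1}
    (hx : x ∈ dsc q m1 a) : (addOrderOf x).primeFactors = (addOrderOf a).primeFactors := by
  unfold dsc at hx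
  split_ifs at hx with h
  · rw [Multiset.eq_of_mem_replicate hx]
    have h1 := addOrderOf_iota hm ((a.val / q : ℕ) : ZMod m1)
    rw [iota_div hm h] at h1
    rw [h1]
  · rw [Multiset.mem_singleton] at hx
    rw [hx]
    have h1 := addOrderOf_iota hm ((a.val : ℕ) : ZMod m1)
    rw [iota_cast hm, ← nsmul_eq_mul, addOrderOf_nsmul' a hq.ne_zero] at h1
    rw [← h1]
    set n := addOrderOf a with hn
    have hnm : n = m / Nat.gcd a.val m := by rw [hn, addOrderOf_eq]
    have hgm : Nat.gcd a.val m ∣ m := Nat.gcd_dvd_right _ _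
    have hqg : ¬ q ∣ Nat.gcd a.val m := fun h2 => h (h2.trans (Nat.gcd_dvd_left _ _))
    have hprod : n * Nat.gcd a.val m = m := by rw [hnm]; exact Nat.div_mul_cancel hgm
    have hq2 : q * q ∣ n := by
      have h3 : q * q ∣ m := by rw [← hm]; exact Nat.mul_dvd_mul_left q hqm
      have h4 : (q * q).Coprime (Nat.gcd a.val m) :=
        Nat.Coprime.mul_left ((hq.coprime_iff_not_dvd).mpr hqg) ((hq.coprime_iff_not_dvd).mpr hqg)
      rw [← hprod] at h3
      exact h4.dvd_of_dvd_mul_right h3
    obtain ⟨e, he⟩ := hq2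
    have hqn : q ∣ n := ⟨q * e, by rw [he]; ring⟩
    have h5 : Nat.gcd n q = q := Nat.gcd_eq_right hqn
    rw [h5]
    have hn0 : n ≠ 0 := (addOrderOf_pos a).ne'
    have he0 : e ≠ 0 := by rintro rfl; rw [mul_zero] at he; exact hn0 he
    have h6 : n / q = q * e := by
      rw [he, mul_assoc, Nat.mul_div_cancel_left _ hq.pos]
    rw [h6, he, mul_assoc, Nat.primeFactors_mul hq.ne_zero (Nat.mul_ne_zero hq.ne_zero he0),
      Nat.primeFactors_mul hq.ne_zero he0, hq.primeFactors]
    ext r
    simp

lemma card_dsc (a : ZMod m) : Multiset.card (dsc q m1 a) = q ∨ Multiset.card (dsc q m1 a) = 1 := by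
  unfold dsc
  split_ifs
  · left; rw [Multiset.card_replicate]
  · right; rw [Multiset.card_singleton]

lemma natCast_pow_mul (h T i : ℕ) (M : ℕ) (a : ZMod M) :
    (h : ZMod M) ^ i * ((T : ZMod M) * a) = ((h ^ i * T : ℕ) : ZMod M) * a := by
  push_cast; ring

lemma sum_dsc (hq : q.Prime) (hm : q * m1 = m) (hqm : q ∣ m1) {h : ℕ} (hh : h.Coprime m) (o T : ℕ)
    (a : ZMod m) :
    ∑ j ∈ range q, WW (h : ZMod m) o (((T + m1 * j : ℕ) : ZMod m) * a) =
      q * ((dsc q m1 a).map fun x => WW (h : ZMod m1) o ((T : ZMod m1) * x)).sum := by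
  have hqm' : q ∣ m := Dvd.intro _ hm
  have hqh : ¬ q ∣ h := by
    intro h1
    have h2 := Nat.dvd_gcd h1 hqm'
    rw [hh.gcd_eq_one] at h2
    exact hq.one_lt.ne' (Nat.dvd_one.mp h2)
  unfold dsc
  split_ifs with hd
  · -- the divisible case
    set b : ZMod m1 := ((a.val / q : ℕ) : ZMod m1) with hb
    have hab : (iota q b : ZMod m) = a := iota_div hm hd
    have h1 : ∀ j ∈ range q, WW (h : ZMod m) o (((T + m1 * j : ℕ) : ZMod m) * a) =
        q * WW (h : ZMod m1) o ((T : ZMod m1) * b) := by
      intro j _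
      have h2 : ((T + m1 * j : ℕ) : ZMod m) * a = (T : ZMod m) * a := by
        have h3 : ((m1 : ℕ) : ZMod m) * a = 0 := by
          obtain ⟨c, hc⟩ := hd
          have h4 : a = ((q * c : ℕ) : ZMod m) := by rw [← hc, ZMod.natCast_zmod_val]
          rw [h4, ← Nat.cast_mul, ZMod.natCast_eq_zero_iff, ← hm]
          exact ⟨c, by ring⟩
        push_cast
        linear_combination (j : ZMod m) * h3
      rw [h2]
      unfold WW
      rw [mul_sum]
      refine sum_congr rfl fun i _ => ?_
      rw [natCast_pow_mul, natCast_pow_mul, ← hab, ← iota_natMul hm, saw_iota hm]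
    rw [sum_congr rfl h1, sum_const, card_range, nsmul_eq_mul, Multiset.map_replicate,
      Multiset.sum_replicate, nsmul_eq_mul]
  · rw [Multiset.map_singleton, Multiset.sum_singleton]
    unfold WW
    rw [sum_comm, mul_sum]
    refine sum_congr rfl fun i _ => ?_
    set y : ZMod m := ((h ^ i * T : ℕ) : ZMod m) * a with hy
    set F : ℕ → ℤ := fun j => saw (y + (j : ZMod m) * (m1 : ZMod m)) with hF
    have hc : (h ^ i * a.val).Coprime q := by
      rw [Nat.coprime_comm, hq.coprime_iff_not_dvd]
      intro h1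
      rcases (hq.dvd_mul).mp h1 with h2 | h2
      · exact hqh (hq.dvd_of_dvd_pow h2)
      · exact hd h2
    have h1 : ∀ j ∈ range q, saw ((h : ZMod m) ^ i * (((T + m1 * j : ℕ) : ZMod m) * a)) =
        F ((h ^ i * a.val) * j % q) := by
      intro j _
      rw [hF]
      congr 1
      have h2 : ((((h ^ i * a.val) * j % q : ℕ)) : ZMod m) * (m1 : ZMod m) =
          ((((h ^ i * a.val) * j : ℕ)) : ZMod m) * (m1 : ZMod m) := by
        rw [← Nat.cast_mul, ← Nat.cast_mul, ZMod.natCast_eq_natCast_iff']
        generalize (h ^ i * a.val) * j = w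
        rw [← hm, Nat.mul_mod_mul_right, Nat.mul_mod_mul_right, Nat.mod_mod]
      rw [h2, hy]
      push_cast
      rw [ZMod.natCast_zmod_val]
      ring
    rw [sum_congr rfl h1, sum_mul_mod hq.pos hc F, hF]
    rw [saw_dist hm y, hy]
    have h3 : (q : ZMod m) * (((h ^ i * T : ℕ) : ZMod m) * a) =
        (iota q (((h ^ i * T : ℕ) : ZMod m1) * ((a.val : ℕ) : ZMod m1)) : ZMod m) := by
      rw [iota_natMul hm, iota_cast hm]; ring
    rw [h3, saw_iota hm, natCast_pow_mul]

open scoped Classical in
lemma descent_step (hq : q.Prime) (hq2 : q ≠ 2) (hm : q * m1 = m) (hqm : q ∣ m1) {h : ℕ}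
    (hh : h.Coprime m) {o : ℕ} {s : Multiset (ZMod m)} (hs : RelOn m h o s) :
    ∃ s1 : Multiset (ZMod m1), RelOn m1 h o s1 ∧
      ∀ S : Finset ℕ, (Even (s1.countP (Supp S)) ↔ Even (s.countP (Supp S))) := by
  obtain ⟨h0, hcard, hW⟩ := hs
  have hqodd : Odd q := hq.odd_of_ne_two hq2
  set s1 : Multiset (ZMod m1) := s.bind (dsc q m1) with hs1
  have hcount' : ∀ (S : Finset ℕ) (s : Multiset (ZMod m)),
      (Even ((s.bind (dsc q m1)).countP (Supp S)) ↔ Even (s.countP (Supp S))) := by
    intro S s
    induction s using Multiset.induction_on with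
    | empty => simp
    | cons a s ih =>
      rw [Multiset.cons_bind, Multiset.countP_add, Multiset.countP_cons]
      have h1 : Even ((dsc q m1 a).countP (Supp S)) ↔ Even (if Supp S a then 1 else 0) := by
        by_cases hSa : Supp S a
        · rw [if_pos hSa]
          have h2 : (dsc q m1 a).countP (Supp S) = Multiset.card (dsc q m1 a) := by
            rw [Multiset.countP_eq_card]
            intro x hx
            unfold Supp at hSa ⊢
            rw [dsc_supp hq hm hqm hx, hSa]
          rw [h2]
          rcases card_dsc (q := q) (m1 := m1) a with h3 | h3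
          · rw [h3]
            constructor
            · intro h4; exact absurd hqodd (Nat.not_odd_iff_even.mpr h4)
            · intro h4; exact absurd h4 (by decide)
          · rw [h3]
        · rw [if_neg hSa]
          have h2 : (dsc q m1 a).countP (Supp S) = 0 := by
            rw [Multiset.countP_eq_zero]
            intro x hx h3
            apply hSa
            unfold Supp at h3 ⊢
            rw [← h3, dsc_supp hq hm hqm hx]
          rw [h2]
      rw [Nat.even_add, Nat.even_add, ih, h1]
      tauto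
  have hcount : ∀ S : Finset ℕ, (Even (s1.countP (Supp S)) ↔ Even (s.countP (Supp S))) :=
    fun S => hcount' S s
  refine ⟨s1, ⟨?_, ?_, ?_⟩, hcount⟩
  · rw [hs1, Multiset.mem_bind]
    rintro ⟨a, ha, hx⟩
    have ha0 : a ≠ 0 := fun h => h0 (h ▸ ha)
    unfold dsc at hx
    split_ifs at hx with hd
    · have h1 := Multiset.eq_of_mem_replicate hx
      have h2 := iota_div hm hd
      rw [← h1, iota_zero] at h2
      exact ha0 h2.symm
    · rw [Multiset.mem_singleton] at hx
      have h2 : m1 ∣ a.val := by rw [← ZMod.natCast_eq_zero_iff]; exact hx.symm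
      exact hd (hqm.trans h2)
  · have h1 : ∀ s : Multiset (ZMod m), Even (Multiset.card (s.bind (dsc q m1))) ↔
        Even (Multiset.card s) := by
      intro s
      induction s using Multiset.induction_on with
      | empty => simp
      | cons a s ih =>
        rw [Multiset.cons_bind, Multiset.card_add, Multiset.card_cons, Nat.even_add, Nat.even_add,
          ih]
        rcases card_dsc (q := q) (m1 := m1) a with h3 | h3
        · rw [h3]
          have h4 : ¬ Even q := Nat.not_even_iff_odd.mpr hqodd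
          have h5 : ¬ Even 1 := by decide
          tauto
        · rw [h3]; tauto
    exact (h1 s).mpr hcard
  · intro t
    set T := (t : ZMod m1).val with hT
    have hTc : (T : ZMod m1) = (t : ZMod m1) := by rw [hT, ZMod.natCast_zmod_val]
    have hTcop : T.Coprime m1 := ZMod.val_coe_unit_coprime t
    have hcop : ∀ j : ℕ, (T + m1 * j).Coprime m := by
      intro j
      have h1 : (T + m1 * j).Coprime m1 := by
        rw [Nat.coprime_add_mul_left_left]; exact hTcop
      rw [← hm]
      exact Nat.Coprime.mul_right (Nat.Coprime.coprime_dvd_right hqm h1) h1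
    have h1 : ∑ j ∈ range q, (s.map fun a => WW (h : ZMod m) o
        (((T + m1 * j : ℕ) : ZMod m) * a)).sum = 0 := by
      apply sum_eq_zero
      intro j _
      have h2 := hW (ZMod.unitOfCoprime _ (hcop j))
      rw [ZMod.coe_unitOfCoprime] at h2
      exact h2
    have h2 : ∀ s : Multiset (ZMod m), ∑ j ∈ range q, (s.map fun a => WW (h : ZMod m) o
        (((T + m1 * j : ℕ) : ZMod m) * a)).sum =
        q * ((s.bind (dsc q m1)).map fun x => WW (h : ZMod m1) o ((T : ZMod m1) * x)).sum := by
      intro s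
      induction s using Multiset.induction_on with
      | empty => simp
      | cons a s ih =>
        rw [Multiset.cons_bind, Multiset.map_add, Multiset.sum_add, mul_add, ← ih,
          ← sum_dsc hq hm hqm hh o T a, ← sum_add_distrib]
        exact sum_congr rfl fun j _ => by rw [Multiset.map_cons, Multiset.sum_cons]
    rw [h2 s] at h1
    rw [← hTc, hs1]
    exact (mul_eq_zero.mp h1).resolve_left (by exact_mod_cast hq.ne_zero)

end step

open scoped Classical in
theorem descent {m0 : ℕ} [NeZero m0] {h o : ℕ} : ∀ (k : ℕ) (m : ℕ) [NeZero m], k * m0 = m →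
    (∀ q : ℕ, q.Prime → q ∣ k → q ≠ 2 ∧ q ∣ m0) → h.Coprime m →
    ∀ s : Multiset (ZMod m), RelOn m h o s → ∃ s0 : Multiset (ZMod m0), RelOn m0 h o s0 ∧
      ∀ S : Finset ℕ, (Even (s0.countP (Supp S)) ↔ Even (s.countP (Supp S))) := by
  intro k
  induction k using Nat.strong_induction_on with
  | _ k ih =>
    intro m _ hkm hk hh s hs
    by_cases hk1 : k = 1
    · subst hk1
      rw [one_mul] at hkm
      subst hkm
      exact ⟨s, hs, fun _ => Iff.rfl⟩
    · have hk0 : k ≠ 0 := by
        rintro rfl
        rw [zero_mul] at hkm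
        exact NeZero.ne m hkm.symm
      obtain ⟨q, hq, hqk⟩ := Nat.exists_prime_and_dvd hk1
      obtain ⟨k', rfl⟩ := hqk
      have hk'0 : k' ≠ 0 := by rintro rfl; exact hk0 (mul_zero _)
      have hz : NeZero (k' * m0) := ⟨Nat.mul_ne_zero hk'0 (NeZero.ne m0)⟩
      have hm : q * (k' * m0) = m := by rw [← hkm]; ring
      have hqm0 := hk q hq (Dvd.intro _ rfl)
      obtain ⟨s1, hs1, hc1⟩ := descent_step (m1 := k' * m0) hq hqm0.1 hm (hqm0.2.mul_left k') hh hs
      have hlt : k' < q * k' := by
        have := hq.two_le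
        have h1 : 0 < k' := Nat.pos_of_ne_zero hk'0
        nlinarith
      obtain ⟨s0, hs0, hc0⟩ := ih k' hlt (k' * m0) rfl
        (fun r hr hrk => hk r hr (hrk.mul_left q))
        (Nat.Coprime.coprime_dvd_right (Dvd.intro_left _ hm) hh) s1 hs1
      exact ⟨s0, hs0, fun S => (hc0 S).trans (hc1 S)⟩

end Pool.Agent.N993.CP
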