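import Pool.Agent.N993.CP.Check
import Pool.Agent.N993.CP.Desc

/-!
Entries of the table: for a degree `m` and a residue `h` the parity relations and the characters of
the base with odd parities.
-/

set_option linter.unusedSectionVars false

namespace Pool.Agent.N993.CP

open Finset Pool.Agent.H916R2 Pool.Agent.H916T Pool.Agent.H916U Pool.Agent.H916Z Pool.Agent.H916Q
  Pool.Agent.H916Y Pool.Agent.N992 Pool.Agent.Y2.Cv

/-- members of the base -/
inductive Kl where
  | surf (L : List ℕ)
  | curve (L₁ L₂ : List ℕ)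
  | five (f : Five) (L₂ : List ℕ)
  | hodge (L : List ℕ)

/-- the entries -/
def Kl.list : Kl → List ℕ
  | .surf L => L
  | .curve L₁ L₂ => L₁ ++ L₂
  | .five f L₂ => f.list ++ L₂
  | .hodge L => L

/-- the check -/
def Kl.ok (m h o : ℕ) : Kl → Bool
  | .surf L => (L.length == 4) && tateB m h o L
  | .curve L₁ L₂ => (L₁.length == 3) && ((L₂.length == 3) && ((L₁.sum % m == 0) &&
      ((L₂.sum % m == 0) && tateB m h o (L₁ ++ L₂))))
  | .five f L₂ => (fiveB m f) && ((L₂.length == 3) && ((f.list.sum % m == 0) &&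
      ((L₂.sum % m == 0) && tateB m h o (f.list ++ L₂))))
  | .hodge L => (L.length != 0) && hodgeL m L

/-- an entry of the table -/
structure Ent where
  m : ℕ
  h : ℕ
  o : ℕ
  pr : List ℕ
  duals : List (ℕ × ℕ × List (ℕ × ℕ))
  kills : List Kl
  nd : ℕ

/-- sublists -/
def subs {α : Type} : List α → List (List α)
  | [] => [[]]
  | a :: l => subs l ++ (subs l).map (a :: ·)

lemma mem_subs {α : Type} {l sub : List α} (h : sub ∈ subs l) : ∀ a ∈ sub, a ∈ l := by
  induction l generalizing sub with
  | nil =>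
    simp only [subs, List.mem_singleton] at h
    rw [h]; simp
  | cons b l ih =>
    simp only [subs, List.mem_append, List.mem_map] at h
    rcases h with h | ⟨x, hx, rfl⟩
    · exact fun a ha => List.mem_cons_of_mem _ (ih h a ha)
    · intro a ha
      rcases List.mem_cons.mp ha with rfl | ha
      · exact List.mem_cons_self
      · exact List.mem_cons_of_mem _ (ih hx a ha)

/-- the mask of a list of members of the base -/
def mask (m : ℕ) (pr : List ℕ) : List Kl → ℕ
  | [] => 0
  | k :: ks => pmN m pr k.list ^^^ mask m pr ks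

/-- the concatenation -/
def flat : List Kl → List ℕ
  | [] => []
  | k :: ks => k.list ++ flat ks

lemma mask_eq {m : ℕ} [NeZero m] (pr : List ℕ) (ks : List Kl) :
    mask m pr ks = pmN m pr (flat ks) := by
  induction ks with
  | nil => rfl
  | cons k ks ih => rw [mask, flat, pmN_append, ih]

/-- the odd primes up to 131 -/
def oddPrimes : List ℕ :=
  [3, 5, 7, 11, 13, 17, 19, 23, 29, 31, 37, 41, 43, 47, 53, 59, 61, 67, 71, 73, 79, 83, 89, 97, 101,
    103, 107, 109, 113, 127, 131]

lemma oddPrimes_prime : ∀ q ∈ oddPrimes, q.Prime ∧ q ≠ 2 := by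
  intro q hq
  simp only [oddPrimes, List.mem_cons, List.not_mem_nil, or_false] at hq
  rcases hq with rfl | rfl | rfl | rfl | rfl | rfl | rfl | rfl | rfl | rfl | rfl | rfl | rfl | rfl |
    rfl | rfl | rfl | rfl | rfl | rfl | rfl | rfl | rfl | rfl | rfl | rfl | rfl | rfl | rfl | rfl |
    rfl <;> norm_num

/-- the parity check -/
def parB (e : Ent) : Bool :=
  (List.range (2 ^ 2 ^ e.pr.length)).all fun n =>
    dot (2 ^ 2 ^ e.pr.length - 1) (List.range (2 ^ e.pr.length)) n ||
    ((e.duals.any fun d => dot d.1 (List.range (2 ^ e.pr.length)) n) ||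
    ((subs e.kills).any fun sub => ((mask e.m e.pr sub ^^^ n) &&& e.nd) == 0))

/-- the check of an entry -/
def entB (e : Ent) : Bool :=
  (e.h ^ e.o % e.m == 1 % e.m) && ((Nat.gcd e.h e.m == 1) && ((e.o != 0) &&
  ((e.pr.all fun q => oddPrimes.contains q) && ((decide e.pr.Nodup) &&
  (((2 * e.pr.prod) ^ 7 % e.m == 0) && ((e.pr.all fun q => e.m % q == 0) &&
  ((e.duals.all fun d => dualB e.m e.h e.o e.pr d) && ((e.kills.all fun k => k.ok e.m e.h e.o) &&
  (((List.range (2 ^ e.pr.length)).all fun c => (c == 0) || (e.nd.testBit c ||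
    (List.range e.o).any fun j => (e.h ^ j + 1) % prodL e.pr c == 0)) &&
  parB e)))))))))

variable {m : ℕ} [NeZero m]

lemma Kl.ok_lt {h o : ℕ} (hh : h.Coprime m) {k : Kl} (hk : k.ok m h o = true) :
    ∀ a ∈ k.list, 0 < a ∧ a < m := by
  cases k with
  | surf L =>
    simp only [Kl.ok, Bool.and_eq_true] at hk
    exact (tateB_sound hh hk.2).1
  | curve L₁ L₂ =>
    simp only [Kl.ok, Bool.and_eq_true] at hk
    exact (tateB_sound hh hk.2.2.2.2).1
  | five f L₂ =>
    simp only [Kl.ok, Bool.and_eq_true] at hk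
    exact (tateB_sound hh hk.2.2.2.2).1
  | hodge L =>
    simp only [Kl.ok, Bool.and_eq_true, hodgeL, List.all_eq_true, decide_eq_true_eq] at hk
    exact hk.2.1

lemma list3 {L : List ℕ} (h : L.length = 3) : ∃ a b c, L = [a, b, c] := by
  match L, h with
  | [a, b, c], _ => exact ⟨a, b, c, rfl⟩

lemma ms_append (A B : List ℕ) : ms m (A ++ B) = ms m A + ms m B := by
  unfold ms
  rw [List.map_append, Multiset.coe_add]

theorem Kl.ok_sound {p : ℕ} (hpm : p.Coprime m) (hm : MutualSquares m ∨ ThreePrimes m ∨ m ≤ 86)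
    {h o : ℕ} (hh : h.Coprime m) (ho : o ≠ 0) {n1 n2 : ℕ} (hn : n1 * n2 ≠ 0)
    (hf : (p : ZMod m) ^ (n1 * n2) = 1) (hco : n1.Coprime n2)
    (hph : (p : ZMod m) ^ n2 = (h : ZMod m)) (hho : (h : ZMod m) ^ o = 1)
    {k : Kl} (hk : k.ok m h o = true) : KB p m (ms m k.list) := by
  have hhn1 : (h : ZMod m) ^ n1 = 1 := by rw [← hph, ← pow_mul, mul_comm n2 n1]; exact hf
  obtain ⟨c, hc⟩ := orderOf_dvd_of_pow_eq_one hho
  obtain ⟨d, hd⟩ := orderOf_dvd_of_pow_eq_one hhn1
  have hc0 : (c : ℤ) ≠ 0 := by
    intro h0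
    have h1 : c = 0 := by exact_mod_cast h0
    rw [h1, mul_zero] at hc
    exact ho hc
  have key : ∀ L : List ℕ, tateB m h o L = true → IsTate p m (ms m L) := by
    intro L hL
    obtain ⟨_, h0, he, hs, hW⟩ := tateB_sound hh hL
    refine isTate_of_WW hpm hn hf hco h0 he hs ?_
    intro t
    rw [hph]
    have h1 := hW t
    rw [hc, mul_comm _ c] at h1
    have h2 : ∀ c : ℕ, ((ms m L).map fun a => WW (h : ZMod m) (c * orderOf (h : ZMod m))
        ((t : ZMod m) * a)).sum =
        c * ((ms m L).map fun a => WW (h : ZMod m) (orderOf (h : ZMod m))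
          ((t : ZMod m) * a)).sum := by
      intro c
      rw [← Multiset.sum_map_mul_left]
      congr 1
      exact Multiset.map_congr rfl fun a _ => WW_mul (pow_orderOf_eq_one _) c _
    rw [h2] at h1
    rw [hd, mul_comm _ d, h2, (mul_eq_zero.mp h1).resolve_left hc0, mul_zero]
  cases k with
  | surf L =>
    simp only [Kl.ok, Bool.and_eq_true, beq_iff_eq] at hk
    refine KB.of_surface ⟨key L hk.2, ?_⟩
    change Multiset.card (ms m L) = 4
    unfold ms
    rw [Multiset.coe_card, List.length_map]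
    exact hk.1
  | curve L₁ L₂ =>
    simp only [Kl.ok, Bool.and_eq_true, beq_iff_eq] at hk
    obtain ⟨h1, h2, h3, h4, h5⟩ := hk
    have hlt := (tateB_sound hh h5).1
    refine KB.of_curve ⟨key _ h5, ms m L₁, ms m L₂, ?_, ?_, ms_append _ _⟩
    · obtain ⟨a, b, c, rfl⟩ := list3 h1
      exact three_sound (fun x hx => hlt x (List.mem_append_left _ hx)) h3
    · obtain ⟨a, b, c, rfl⟩ := list3 h2
      exact three_sound (fun x hx => hlt x (List.mem_append_right _ hx)) h4
  | five f L₂ =>
    simp only [Kl.ok, Bool.and_eq_true, beq_iff_eq] at hk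
    obtain ⟨h1, h2, h3, h4, h5⟩ := hk
    have hlt := (tateB_sound hh h5).1
    refine KB.of_curve ⟨key _ h5, ms m f.list, ms m L₂, ?_, ?_, ms_append _ _⟩
    · exact fiveB_sound h1 (fun x hx => hlt x (List.mem_append_left _ hx)) h3
    · obtain ⟨a, b, c, rfl⟩ := list3 h2
      exact three_sound (fun x hx => hlt x (List.mem_append_right _ hx)) h4
  | hodge L =>
    simp only [Kl.ok, Bool.and_eq_true, bne_iff_ne, ne_eq] at hk
    refine KB.of_hodge hpm hm (hodgeL_sound hk.2) ?_
    intro h0
    have h1 := congrArg Multiset.card h0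
    change Multiset.card (ms m L) = _ at h1
    unfold ms at h1
    rw [Multiset.coe_card, List.length_map, Multiset.card_zero] at h1
    exact hk.1 h1

lemma ms_val (s : Multiset (ZMod m)) : ms m (s.toList.map ZMod.val) = s := by
  unfold ms
  rw [List.map_map]
  have h1 : ((fun n : ℕ => (n : ZMod m)) ∘ ZMod.val) = id := by
    funext a
    simp
  rw [h1, List.map_id, Multiset.coe_toList]

open scoped Classical in
lemma countP_ms {pr : List ℕ} (hpr : ∀ q ∈ pr, q.Prime ∧ q ≠ 2)
    (hm : ∀ q, q.Prime → q ∣ m → q = 2 ∨ q ∈ pr) {S : Finset ℕ} (hS : ∀ q ∈ S, q ∈ pr)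
    (hne : S.Nonempty) (h2 : 2 ∉ S) (L : List ℕ) (hL : ∀ a ∈ L, 0 < a ∧ a < m) :
    (ms m L).countP (Supp S) = L.countP fun x => code m pr x = cdL pr S := by
  induction L with
  | nil => simp [ms]
  | cons x L ih =>
    have h3 : ms m (x :: L) = (x : ZMod m) ::ₘ ms m L := by
      unfold ms; rw [List.map_cons, Multiset.cons_coe]
    rw [h3, Multiset.countP_cons, List.countP_cons, ih fun a ha => hL a (List.mem_cons_of_mem _ ha)]
    have h4 := supp_iff hpr hm hS hne h2 (x : ZMod m)
    have h5 : (x : ZMod m).val = x := by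
      rw [ZMod.val_natCast, Nat.mod_eq_of_lt (hL x List.mem_cons_self).2]
    rw [h5] at h4
    by_cases h6 : Supp S (x : ZMod m)
    · rw [if_pos h6, if_pos (by simpa using h4.mp h6)]
    · rw [if_neg h6, if_neg (by simpa using fun h => h6 (h4.mpr h))]

lemma ms_flat (ks : List Kl) :
    ms m (flat ks) = (Multiset.ofList (ks.map fun k => ms m k.list)).sum := by
  induction ks with
  | nil => simp [flat, ms]
  | cons k ks ih =>
    rw [flat, ms_append, ih, List.map_cons, ← Multiset.cons_coe, Multiset.sum_cons]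

open scoped Classical in
theorem ent_sound {p : ℕ} {e : Ent} (hem : e.m = m) (hpm : p.Coprime m)
    (hm : MutualSquares m ∨ ThreePrimes m ∨ m ≤ 86) (he : entB e = true) {n1 n2 : ℕ}
    (hn : n1 * n2 ≠ 0) (hf : (p : ZMod m) ^ (n1 * n2) = 1) (hco : n1.Coprime n2)
    (hph : (p : ZMod m) ^ n2 = (e.h : ZMod m)) {h1 : ℕ} (hh1 : (h1 : ZMod m) = (e.h : ZMod m))
    {s : Multiset (ZMod m)} (hs : RelOn m h1 n1 s) :
    ∃ l : Multiset (Multiset (ZMod m)), (∀ x ∈ l, KB p m x) ∧
      ∀ S : Finset ℕ, S.Nonempty → 2 ∉ S → ¬ Dead p S →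
        Even ((s + l.sum).countP (Supp S)) := by
  simp only [entB, parB, hem, Bool.and_eq_true, beq_iff_eq, bne_iff_ne, ne_eq, List.all_eq_true,
    decide_eq_true_eq, List.mem_range, Bool.or_eq_true, List.any_eq_true,
    List.contains_iff_mem] at he
  obtain ⟨hho, hh, ho, hpr0, hnd, hrad, hprm, hdual, hkill, hdead, hpar⟩ := he
  have hpr : ∀ q ∈ e.pr, q.Prime ∧ q ≠ 2 := fun q hq => oddPrimes_prime q (hpr0 q hq)
  have hprimes : ∀ q, q.Prime → q ∣ m → q = 2 ∨ q ∈ e.pr := by
    intro q hq hqm
    have h1 : q ∣ (2 * e.pr.prod) ^ 7 := hqm.trans (Nat.dvd_of_mod_eq_zero hrad)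
    have h2 := hq.dvd_of_dvd_pow h1
    rcases (hq.dvd_mul).mp h2 with h3 | h3
    · left; exact (Nat.prime_dvd_prime_iff_eq hq Nat.prime_two).mp h3
    · right
      obtain ⟨r, hr, hqr⟩ := (hq.prime.dvd_prod_iff).mp h3
      rw [(Nat.prime_dvd_prime_iff_eq hq (hpr r hr).1).mp hqr]
      exact hr
  have hheo : (e.h : ZMod m) ^ e.o = 1 := by
    have h1 : ((e.h ^ e.o : ℕ) : ZMod m) = ((1 : ℕ) : ZMod m) :=
      (ZMod.natCast_eq_natCast_iff' _ _ _).mpr hho
    push_cast at h1
    exact h1
  have hhn1 : (e.h : ZMod m) ^ n1 = 1 := by rw [← hph, ← pow_mul, mul_comm n2 n1]; exact hf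
  have hn1 : n1 ≠ 0 := fun h => hn (by rw [h, zero_mul])
  -- the relations
  obtain ⟨h0', hcard, hW⟩ := hs
  have hTS : ∀ t : (ZMod m)ˣ,
      (s.map fun a => WW (e.h : ZMod m) e.o ((t : ZMod m) * a)).sum = 0 := by
    intro t
    obtain ⟨c, hc⟩ := orderOf_dvd_of_pow_eq_one hheo
    obtain ⟨d, hd⟩ := orderOf_dvd_of_pow_eq_one hhn1
    have hd0 : (d : ℤ) ≠ 0 := by
      intro h0
      have h1 : d = 0 := by exact_mod_cast h0
      rw [h1, mul_zero] at hd
      exact hn1 hd
    have h2 : ∀ c : ℕ, (s.map fun a => WW (e.h : ZMod m) (c * orderOf (e.h : ZMod m))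
        ((t : ZMod m) * a)).sum =
        c * (s.map fun a => WW (e.h : ZMod m) (orderOf (e.h : ZMod m))
          ((t : ZMod m) * a)).sum := by
      intro c
      rw [← Multiset.sum_map_mul_left]
      congr 1
      exact Multiset.map_congr rfl fun a _ => WW_mul (pow_orderOf_eq_one _) c _
    have h3 := hW t
    rw [hh1, hd, mul_comm _ d, h2] at h3
    rw [hc, mul_comm _ c, h2, (mul_eq_zero.mp h3).resolve_left hd0, mul_zero]
  have hD : ∀ d ∈ e.duals,
      Even (s.map fun a => if d.1.testBit (code m e.pr a.val) then 1 else 0).sum :=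
    fun d hd => dual_sound hh e.pr (hdual d hd) h0' hTS
  -- the list of `s`
  set L0 := s.toList.map ZMod.val with hL0
  have hmsL0 : ms m L0 = s := ms_val s
  have hL0lt : ∀ a ∈ L0, 0 < a ∧ a < m := by
    intro x hx
    obtain ⟨a, ha, rfl⟩ := List.mem_map.mp hx
    rw [Multiset.mem_toList] at ha
    have ha0 : a ≠ 0 := fun h => h0' (h ▸ ha)
    exact ⟨Nat.pos_of_ne_zero fun h => ha0 ((ZMod.val_eq_zero a).mp h), ZMod.val_lt a⟩
  have hsumL0 : ∀ L : ℕ, (L0.map fun x => if L.testBit (code m e.pr x) then 1 else 0).sum =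
      (s.map fun a => if L.testBit (code m e.pr a.val) then 1 else 0).sum := by
    intro L
    rw [hL0, List.map_map]
    conv_rhs => rw [← Multiset.coe_toList s]
    rw [Multiset.map_coe, Multiset.sum_coe]
    rfl
  set n := pmN m e.pr L0 with hndef
  have hnlt : n < 2 ^ 2 ^ e.pr.length := pmN_lt _ _
  rcases hpar n hnlt with h1 | ⟨d, hd, h1⟩ | ⟨sub, hsub, hX⟩
  · exfalso
    rw [hndef, dot_pmN, hsumL0, decide_eq_true_eq] at h1
    have h2 : (s.map fun a => if (2 ^ 2 ^ e.pr.length - 1).testBit (code m e.pr a.val) then 1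
        else 0).sum = Multiset.card s := by
      have h3 : (s.map fun a => if (2 ^ 2 ^ e.pr.length - 1).testBit (code m e.pr a.val) then 1
          else 0) = s.map fun _ => 1 := by
        refine Multiset.map_congr rfl fun a _ => ?_
        rw [Nat.testBit_two_pow_sub_one, if_pos]
        rw [decide_eq_true_eq]
        exact code_lt _ _ _
      rw [h3]
      simp
    rw [h2] at h1
    have h3 := Nat.even_iff.mp hcard
    omega
  · exfalso
    rw [hndef, dot_pmN, hsumL0, decide_eq_true_eq] at h1
    have h3 := Nat.even_iff.mp (hD d hd)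
    omega
  · have hsubk : ∀ k ∈ sub, k ∈ e.kills := mem_subs hsub
    refine ⟨Multiset.ofList (sub.map fun k => ms m k.list), ?_, ?_⟩
    · intro x hx
      rw [Multiset.mem_coe, List.mem_map] at hx
      obtain ⟨k, hk, rfl⟩ := hx
      exact Kl.ok_sound hpm hm hh ho hn hf hco hph hheo (hkill k (hsubk k hk))
    · intro S hSne h2S hSD
      rw [← ms_flat]
      have hss : s + ms m (flat sub) = ms m (L0 ++ flat sub) := by
        rw [ms_append, hmsL0]
      rw [hss]
      by_cases hSm : ∀ q ∈ S, q ∈ e.pr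
      · have hlt : ∀ a ∈ L0 ++ flat sub, 0 < a ∧ a < m := by
          intro a ha
          rcases List.mem_append.mp ha with h | h
          · exact hL0lt a h
          · have h3 : ∀ ks : List Kl, (∀ k ∈ ks, k ∈ e.kills) → ∀ a ∈ flat ks, 0 < a ∧ a < m := by
              intro ks
              induction ks with
              | nil => intro _ a ha; simp [flat] at ha
              | cons k ks ih =>
                intro hks a ha
                rcases List.mem_append.mp ha with h | h
                · exact Kl.ok_lt hh (hkill k (hks k List.mem_cons_self)) a h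
                · exact ih (fun k hk => hks k (List.mem_cons_of_mem _ hk)) a h
            exact h3 sub hsubk a h
        rw [countP_ms hpr hprimes hSm hSne h2S _ hlt]
        -- the bit
        have hbit : e.nd.testBit (cdL e.pr S) = true := by
          rcases hdead (cdL e.pr S) (cdL_lt _ _) with h | h | ⟨j, _, hj⟩
          · exact absurd h (cdL_ne_zero hSm hSne)
          · exact h
          · exfalso
            apply hSD
            refine ⟨n2 * j, ?_⟩
            rw [prodL_cdL hnd hSm] at hj
            have hdm : (∏ q ∈ S, q) ∣ m := by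
              have h3 : S ⊆ m.primeFactors := by
                intro q hq
                exact Nat.mem_primeFactors.mpr ⟨(hpr q (hSm q hq)).1,
                  Nat.dvd_of_mod_eq_zero (hprm q (hSm q hq)), NeZero.ne m⟩
              exact (Finset.prod_dvd_prod_of_subset _ _ _ h3).trans (Nat.prod_primeFactors_dvd m)
            have h4 : (p ^ n2) ≡ e.h [MOD m] := by
              rw [← ZMod.natCast_eq_natCast_iff]
              push_cast
              exact hph
            have h5 : (p ^ n2) ^ j + 1 ≡ e.h ^ j + 1 [MOD (∏ q ∈ S, q)] :=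
              ((h4.of_dvd hdm).pow j).add_right 1
            rw [pow_mul]
            exact (Nat.modEq_zero_iff_dvd).mp (h5.trans (Nat.modEq_zero_iff_dvd.mpr
              (Nat.dvd_of_mod_eq_zero hj)))
        have h6 : (pmN m e.pr (L0 ++ flat sub)).testBit (cdL e.pr S) = false := by
          rw [pmN_append, ← mask_eq, ← hndef, Nat.xor_comm]
          have h7 := congrArg (fun x : ℕ => x.testBit (cdL e.pr S)) hX
          simp only [Nat.testBit_land, Nat.zero_testBit, hbit, Bool.and_true] at h7
          exact h7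
        rw [pmN_testBit, decide_eq_false_iff_not] at h6
        rw [Nat.even_iff]
        omega
      · push Not at hSm
        obtain ⟨q, hqS, hq⟩ := hSm
        have h3 : Multiset.countP (Supp S) (ms m (L0 ++ flat sub)) = 0 := by
          rw [Multiset.countP_eq_zero]
          intro a _ ha
          have h4 : q ∈ (addOrderOf a).primeFactors := by
            unfold Supp at ha; rw [ha]; exact hqS
          have h5 := Nat.mem_primeFactors.mp h4
          rcases hprimes q h5.1 (h5.2.1.trans (addOrderOf_dvd_level a)) with h6 | h6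
          · rw [h6] at hqS; exact h2S hqS
          · exact hq h6
        rw [h3]
        exact Even.zero

end Pool.Agent.N993.CP
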