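import Pool.Agent.N993.CP.Final
import Pool.Agent.N214.HB.Gauss
import Pool.Agent.N992.Jac

/-!
Products of Jacobi sums which are powers of `q` up to roots of unity: the Tate classes on the abelian
varieties of Fermat type over finite fields.
-/

set_option linter.unusedSectionVars false

namespace Pool.Agent.N993.CP

open Finset Pool.Agent.H916T Pool.Agent.N992

variable {k : Type} [Field k] [Fintype k] {p m : ℕ} [Fact p.Prime] [CharP k p] [NeZero m]

lemma coprime_of_dvd_card (hmk : m ∣ Fintype.card k - 1) : p.Coprime m := by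
  obtain ⟨F, hpr, hcard⟩ := FiniteField.card k p
  rw [Nat.Prime.coprime_iff_not_dvd hpr]
  intro h1
  have h2 : p ∣ Fintype.card k - 1 := h1.trans hmk
  have h3 : p ∣ Fintype.card k := by
    rw [hcard]
    exact dvd_pow_self p F.pos.ne'
  have hQ1 : 1 < Fintype.card k := Fintype.one_lt_card
  have h10 : p ∣ 1 := (Nat.dvd_sub_iff_right hQ1.le h3).1 h2
  exact hpr.one_lt.ne' (Nat.dvd_one.1 h10)

omit [CharP k p] [Fact p.Prime] in
lemma gauss_sq {θ : MulChar k ℂ} (hθ : orderOf θ = m) {ψ : AddChar k ℂ} (hψ : ψ.IsPrimitive)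
    {x : ZMod m × ZMod m × ZMod m} (hx : CurveLine m x) :
    (gaussSum (θ ^ x.1.val) ψ * gaussSum (θ ^ x.2.1.val) ψ * gaussSum (θ ^ x.2.2.val) ψ) ^ 2 =
      ((Fintype.card k : ℂ) * jacobiSum (θ ^ x.1.val) (θ ^ x.2.1.val)) ^ 2 := by
  obtain ⟨h1, h2, h3, h4⟩ := hx
  set χ : MulChar k ℂ := θ ^ x.1.val * θ ^ x.2.1.val with hχ
  have hm1 : θ ^ m = 1 := by rw [← hθ]; exact pow_orderOf_eq_one θ
  have hprod : χ * θ ^ x.2.2.val = 1 := by
    rw [hχ, ← pow_add, ← pow_add]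
    apply orderOf_dvd_iff_pow_eq_one.mp
    rw [hθ, ← ZMod.natCast_eq_zero_iff]
    push_cast
    simp only [ZMod.natCast_zmod_val]
    exact h4
  have hinv : θ ^ x.2.2.val = χ⁻¹ := by
    rw [eq_comm, inv_eq_iff_mul_eq_one]
    exact hprod
  have hne : χ ≠ 1 := by
    intro h
    rw [h, one_mul] at hprod
    have h5 := orderOf_dvd_of_pow_eq_one hprod
    rw [hθ] at h5
    have h6 := Nat.eq_zero_of_dvd_of_lt h5 (ZMod.val_lt _)
    exact h3 ((ZMod.val_eq_zero _).1 h6)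
  have e1 : gaussSum χ ψ * jacobiSum (θ ^ x.1.val) (θ ^ x.2.1.val) =
      gaussSum (θ ^ x.1.val) ψ * gaussSum (θ ^ x.2.1.val) ψ := jacobiSum_mul_nontrivial hne ψ
  have e2 : gaussSum χ ψ * gaussSum χ⁻¹ ψ⁻¹ = (Fintype.card k : ℂ) :=
    gaussSum_mul_gaussSum_eq_card hne hψ
  have e3 : χ⁻¹ (-1) * gaussSum χ⁻¹ ψ⁻¹ = gaussSum χ⁻¹ ψ := mul_gaussSum_inv_eq_gaussSum _ _
  have e4 : (χ⁻¹ (-1)) ^ 2 = 1 := by
    rw [← map_pow, neg_one_sq, map_one]
  rw [← e1, hinv, ← e3]
  calc (gaussSum χ ψ * jacobiSum (θ ^ x.1.val) (θ ^ x.2.1.val) *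
        (χ⁻¹ (-1) * gaussSum χ⁻¹ ψ⁻¹)) ^ 2
      = (χ⁻¹ (-1)) ^ 2 * ((gaussSum χ ψ * gaussSum χ⁻¹ ψ⁻¹) *
          jacobiSum (θ ^ x.1.val) (θ ^ x.2.1.val)) ^ 2 := by ring
    _ = _ := by rw [e4, e2, one_mul]

omit [CharP k p] [Fact p.Prime] in
lemma gauss_prod {θ : MulChar k ℂ} (hθ : orderOf θ = m) {ψ : AddChar k ℂ} (hψ : ψ.IsPrimitive)
    (L : Multiset (ZMod m × ZMod m × ZMod m)) (hL : ∀ x ∈ L, CurveLine m x) :
    (((L.bind fun x => {x.1, x.2.1, x.2.2}).map fun a => gaussSum (θ ^ a.val) ψ).prod) ^ 2 =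
      ((Fintype.card k : ℂ) ^ Multiset.card L *
        (L.map fun x => jacobiSum (θ ^ x.1.val) (θ ^ x.2.1.val)).prod) ^ 2 := by
  induction L using Multiset.induction_on with
  | empty => simp
  | cons x L ih =>
    have h1 := ih fun y hy => hL y (Multiset.mem_cons_of_mem hy)
    have h2 := gauss_sq hθ hψ (hL x (Multiset.mem_cons_self _ _))
    rw [Multiset.cons_bind, Multiset.map_add, Multiset.prod_add, mul_pow, h1]
    have h3 : ((({x.1, x.2.1, x.2.2} : Multiset (ZMod m)).map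
        fun a => gaussSum (θ ^ a.val) ψ).prod) ^ 2 =
        ((Fintype.card k : ℂ) * jacobiSum (θ ^ x.1.val) (θ ^ x.2.1.val)) ^ 2 := by
      rw [← h2]
      simp only [Multiset.insert_eq_cons, Multiset.map_cons, Multiset.map_singleton,
        Multiset.prod_cons, Multiset.prod_singleton]
      ring
    rw [h3, Multiset.map_cons, Multiset.prod_cons, Multiset.card_cons]
    ring

/-- Tate classes on the abelian varieties of Fermat type. -/
theorem isTate_jacobian (hmk : m ∣ Fintype.card k - 1) (θ : MulChar k ℂ) (hθ : orderOf θ = m)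
    (L : Multiset (ZMod m × ZMod m × ZMod m)) (hL : ∀ x ∈ L, CurveLine m x) (i : ℕ)
    (hcard : Multiset.card L = 2 * i) (e : ℕ) (he : 0 < e)
    (h : ((L.map fun x => jacobiSum (θ ^ x.1.val) (θ ^ x.2.1.val)).prod) ^ e =
      ((Fintype.card k : ℂ) ^ i) ^ e) :
    IsTate p m (L.bind fun x => {x.1, x.2.1, x.2.2}) := by
  obtain ⟨ψ, hψ⟩ : ∃ ψ : AddChar k ℂ, ψ.IsPrimitive :=
    ⟨_, AddChar.FiniteField.primitiveChar_to_Complex_isPrimitive k⟩
  have hψ1 : ψ ≠ 1 := by
    intro h1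
    apply hψ one_ne_zero
    rw [h1]
    ext x
    simp
  have hcard3 : Multiset.card (L.bind fun x => ({x.1, x.2.1, x.2.2} : Multiset (ZMod m))) =
      2 * (3 * i) := by
    rw [Multiset.card_bind]
    have : (L.map (Multiset.card ∘ fun x => ({x.1, x.2.1, x.2.2} : Multiset (ZMod m)))) =
        L.map fun _ => 3 := Multiset.map_congr rfl fun x _ => by simp
    rw [this, Multiset.map_const', Multiset.sum_replicate, smul_eq_mul, hcard]
    ring
  refine Pool.Agent.N214.HB.isTate_of_gauss (k := k) hmk θ hθ ψ hψ1 _ ?_ ?_ (3 * i) hcard3 (2 * e)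
    (by omega) ?_
  · rw [Multiset.mem_bind]
    rintro ⟨x, hx, h0⟩
    obtain ⟨h1, h2, h3, _⟩ := hL x hx
    simp only [Multiset.insert_eq_cons, Multiset.mem_cons, Multiset.mem_singleton] at h0
    rcases h0 with h0 | h0 | h0
    · exact h1 h0.symm
    · exact h2 h0.symm
    · exact h3 h0.symm
  · rw [Multiset.sum_bind]
    apply Multiset.sum_eq_zero
    intro y hy
    obtain ⟨x, hx, rfl⟩ := Multiset.mem_map.mp hy
    have := (hL x hx).2.2.2
    simp only [Multiset.insert_eq_cons, Multiset.sum_cons, Multiset.sum_singleton]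
    rw [← this]; ring
  · rw [pow_mul, gauss_prod hθ hψ L hL, ← pow_mul, mul_comm 2 e, pow_mul, mul_pow _ _ e, h, hcard]
    ring

theorem jacobian (hmk : m ∣ Fintype.card k - 1) (hm : SmallDegree m) (θ : MulChar k ℂ)
    (hθ : orderOf θ = m) (L : Multiset (ZMod m × ZMod m × ZMod m)) (hL : ∀ x ∈ L, CurveLine m x)
    (i : ℕ) (hi : 0 < i) (hcard : Multiset.card L = 2 * i) (e : ℕ) (he : 0 < e)
    (h : ((L.map fun x => jacobiSum (θ ^ x.1.val) (θ ^ x.2.1.val)).prod) ^ e =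
      ((Fintype.card k : ℂ) ^ i) ^ e) :
    ∃ N : ℕ, 0 < N ∧ p.Coprime N ∧
      Generated (N * m) (CBase p (N * m))
        ((L.bind fun x => {x.1, x.2.1, x.2.2}).map
          fun a => ((N * a.val : ℕ) : ZMod (N * m))) := by
  refine final p m Fact.out (coprime_of_dvd_card hmk) (Or.inl hm) _
    (isTate_jacobian hmk θ hθ L hL i hcard e he h) ?_
  intro h1
  have h2 := congrArg Multiset.card h1
  rw [Multiset.card_bind, Multiset.card_zero] at h2
  have h3 : (L.map (Multiset.card ∘ fun x => ({x.1, x.2.1, x.2.2} : Multiset (ZMod m)))) =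
      L.map fun _ => 3 := Multiset.map_congr rfl fun x _ => by simp
  rw [h3, Multiset.map_const', Multiset.sum_replicate, smul_eq_mul] at h2
  omega

end Pool.Agent.N993.CP
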