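import Pool.Agent.N993.CP.ChkAll

/-!
The Tate conjecture for the Fermat varieties of small degree in every characteristic.
-/

set_option linter.unusedSectionVars false

namespace Pool.Agent.N993.CP

open Finset Pool.Agent.H916R2 Pool.Agent.H916T Pool.Agent.H916U Pool.Agent.H916Z Pool.Agent.H916Q
  Pool.Agent.H916Y Pool.Agent.N992 Pool.Agent.Y2.Cv

lemma degrees : ∀ m ∈ range 136, m = 0 ∨ m = 87 ∨ m = 116 ∨ m = 123 ∨
    ((m.primeFactors.erase 2).card + (if 4 ∣ m then 1 else 0) ≤ 3 ∧
      ∀ p ∈ m.primeFactors, p % 4 = 1 → (p = 5 ∨ p = 13 ∨ p = 17) ∨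
        ((∀ q ∈ m.primeFactors, q ≠ 2 → q ≠ p → ((List.range p).any fun x => x * x % p == q % p)
          = true) ∧ (4 ∣ m → p % 8 = 1))) := by
  decide +kernel

lemma threePrimes_135 {m : ℕ} (hm0 : m ≠ 0) (hm : m ≤ 135) (h1 : m ≠ 87) (h2 : m ≠ 116)
    (h3 : m ≠ 123) : ThreePrimes m := by
  rcases degrees m (mem_range.mpr (by omega)) with h | h | h | h | ⟨hc, hp⟩
  · exact absurd h hm0
  · exact absurd h h1
  · exact absurd h h2
  · exact absurd h h3
  · refine ⟨hc, ?_⟩
    intro p hpp hpm hp4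
    rcases hp p (Nat.mem_primeFactors.mpr ⟨hpp, hpm, hm0⟩) hp4 with h | ⟨h4, h5⟩
    · exact Or.inr h
    · left
      refine ⟨?_, h5⟩
      intro q hq hqm hq2 hqp
      have h6 := h4 q (Nat.mem_primeFactors.mpr ⟨hq, hqm, hm0⟩) hq2 hqp
      rw [List.any_eq_true] at h6
      obtain ⟨x, _, hx⟩ := h6
      rw [beq_iff_eq] at hx
      refine ⟨(x : ZMod p), ?_⟩
      rw [← Nat.cast_mul]
      exact ((ZMod.natCast_eq_natCast_iff' _ _ _).mpr hx).symm

lemma class_of_exc {m : ℕ} (hm0 : m ≠ 0) (hm : m ≤ 135) (hexc : excB m = false) :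
    ThreePrimes m := by
  refine threePrimes_135 hm0 hm ?_ ?_ ?_ <;>
    · rintro rfl
      exact absurd hexc (by decide)

variable {m : ℕ} [NeZero m]

lemma KB.lift {p m0 k : ℕ} [NeZero m0] (hkm : k * m0 = m) (hpm : p.Coprime m)
    {x : Multiset (ZMod m0)} (hx : KB p m0 x) : KB p m (x.map (iota k : ZMod m0 → ZMod m)) := by
  refine ⟨isTate_iota hkm hpm hx.1, ?_⟩
  intro k' M _ hM hpM
  have h1 := hx.2 (k' * k) M (by rw [← hM, ← hkm]; ring) hpM
  have h2 : ((x.map (iota k : ZMod m0 → ZMod m)).map (iota k' : ZMod m → ZMod M)) =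
      x.map (iota (k' * k) : ZMod m0 → ZMod M) := by
    rw [Multiset.map_map]
    refine Multiset.map_congr rfl fun a _ => ?_
    simp only [Function.comp_apply]
    rw [iota_comp hM]
  rw [h2]
  exact h1

open scoped Classical in
lemma countP_lift {m0 k : ℕ} [NeZero m0] (hkm : k * m0 = m) (x : Multiset (ZMod m0))
    (S : Finset ℕ) :
    (x.map (iota k : ZMod m0 → ZMod m)).countP (Supp S) = x.countP (Supp S) := by
  induction x using Multiset.induction_on with
  | empty => simp
  | cons a x ih =>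
    rw [Multiset.map_cons, Multiset.countP_cons, Multiset.countP_cons, ih]
    congr 1
    have h1 : Supp S (iota k a : ZMod m) ↔ Supp S a := by
      unfold Supp; rw [addOrderOf_iota hkm]
    by_cases h2 : Supp S a
    · rw [if_pos h2, if_pos (h1.mpr h2)]
    · rw [if_neg h2, if_neg (fun h => h2 (h1.mp h))]

open scoped Classical in
/-- the case in which the subgroup is trivial -/
lemma trivial_case {p : ℕ} (hpm : p.Coprime m) (hm : MutualSquares m ∨ ThreePrimes m ∨ m ≤ 86)
    {h1 n1 : ℕ} (hn1 : n1 ≠ 0) (hh1 : (h1 : ZMod m) = 1)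
    {s : Multiset (ZMod m)} (hs : RelOn m h1 n1 s) :
    ∃ l : Multiset (Multiset (ZMod m)), (∀ x ∈ l, KB p m x) ∧
      ∀ S : Finset ℕ, Even ((s + l.sum).countP (Supp S)) := by
  obtain ⟨h0, hcard, hW⟩ := hs
  by_cases hs0 : s = 0
  · refine ⟨0, by simp, ?_⟩
    intro S
    rw [hs0]
    simp
  have hsaw : ∀ t : (ZMod m)ˣ, (s.map fun a => saw ((t : ZMod m) * a)).sum = 0 := by
    intro t
    have h2 := hW t
    rw [hh1] at h2
    have h3 : (s.map fun a => WW (1 : ZMod m) n1 ((t : ZMod m) * a)).sum =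
        n1 * (s.map fun a => saw ((t : ZMod m) * a)).sum := by
      rw [← Multiset.sum_map_mul_left]
      congr 1
      refine Multiset.map_congr rfl fun a _ => ?_
      unfold WW
      simp
    rw [h3] at h2
    exact (mul_eq_zero.mp h2).resolve_left (by exact_mod_cast hn1)
  have hval : ∀ t : (ZMod m)ˣ,
      2 * (s.map fun a => ((t : ZMod m) * a).val).sum = m * Multiset.card s := by
    intro t
    have h2 := hsaw t
    rw [saw_sum_eq s h0 t] at h2
    have h3 := sub_eq_zero.mp h2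
    exact_mod_cast h3
  have hsum : s.sum = 0 := by
    have h2 := hval 1
    obtain ⟨c, hc⟩ := hcard
    have h3 : (s.map fun a => (((1 : (ZMod m)ˣ) : ZMod m) * a).val).sum = m * c := by
      rw [hc] at h2
      have h4 : m * (c + c) = 2 * (m * c) := by ring
      omega
    have h4 : ∀ s : Multiset (ZMod m), (((s.map fun a => (((1 : (ZMod m)ˣ) : ZMod m) * a).val).sum :
        ℕ) : ZMod m) = s.sum := by
      intro s
      induction s using Multiset.induction_on with
      | empty => simp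
      | cons a s ih =>
        rw [Multiset.map_cons, Multiset.sum_cons, Nat.cast_add, ih, Multiset.sum_cons]
        simp
    rw [← h4 s, h3]
    simp
  have hH : IsHodge m s := ⟨h0, hcard, hsum, hval⟩
  refine ⟨{s}, ?_, ?_⟩
  · intro x hx
    rw [Multiset.mem_singleton] at hx
    rw [hx]
    exact KB.of_hodge hpm hm hH hs0
  · intro S
    rw [Multiset.sum_singleton, Multiset.countP_add]
    exact ⟨_, rfl⟩

open scoped Classical in
theorem small_case {p m0 k : ℕ} (hp : p.Prime) (hpm : p.Coprime m) (hkm : k * m0 = m)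
    (hk : ∀ q : ℕ, q.Prime → q ∣ k → q ≠ 2 ∧ q ∣ m0) (hm0 : m0 ≤ 135) (hexc : excB m0 = false)
    {s : Multiset (ZMod m)} (hs : IsTate p m s) (hne : s ≠ 0) :
    ∃ N : ℕ, 0 < N ∧ p.Coprime N ∧ ∀ M : ℕ, N * m = M →
      H916T.Generated M (CBase p M) (s.map (iota N : ZMod m → ZMod M)) := by
  have hz : NeZero m0 := ⟨by rintro rfl; rw [mul_zero] at hkm; exact NeZero.ne m hkm.symm⟩
  have hpm0 : p.Coprime m0 := Nat.Coprime.coprime_dvd_right (Dvd.intro_left _ hkm) hpm
  have hcl : MutualSquares m0 ∨ ThreePrimes m0 ∨ m0 ≤ 86 :=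
    Or.inr (Or.inl (class_of_exc (NeZero.ne m0) hm0 hexc))
  have hu : IsUnit (p : ZMod m) := isUnit_p hpm
  set u := hu.unit with hudef
  have hpu : (p : ZMod m) = (u : ZMod m) := by rw [hudef, IsUnit.unit_spec]
  have hf0 : orderOf (p : ZMod m) ≠ 0 := by
    rw [hpu, orderOf_units]; exact (orderOf_pos u).ne'
  obtain ⟨a, f', hf', hf⟩ := Nat.exists_eq_two_pow_mul_odd hf0
  have hco : (2 ^ a).Coprime f' := Nat.Coprime.pow_left a (Nat.coprime_two_left.mpr hf')
  have hn : 2 ^ a * f' ≠ 0 := by rw [← hf]; exact hf0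
  set h1 := ((p : ZMod m) ^ f').val with hh1
  have hcast : (h1 : ZMod m) = (p : ZMod m) ^ f' := by rw [hh1, ZMod.natCast_zmod_val]
  have hcop : h1.Coprime m := by
    rw [← ZMod.isUnit_iff_coprime, hcast]
    exact hu.pow _
  -- the norm
  set s' := nrm ((p : ZMod m) ^ 2 ^ a) f' s with hs'
  have hrel : RelOn m h1 (2 ^ a) s' := by
    refine ⟨zero_notMem_nrm hpm _ _ hs.1, ?_, ?_⟩
    · rw [hs', card_nrm]; exact hs.2.1.mul_left _
    · intro t
      rw [hcast, hs', nrm_WW hf hco s (t : ZMod m)]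
      exact hs.W_sum hpm t
  obtain ⟨s0, hs0, hc0⟩ := descent k m hkm hk hcop s' hrel
  -- the level `m0`
  have hmod : p ^ f' ≡ h1 [MOD m] := by
    rw [← ZMod.natCast_eq_natCast_iff]
    push_cast
    exact hcast.symm
  have hmod0 : p ^ f' ≡ h1 [MOD m0] := hmod.of_dvd (Dvd.intro_left _ hkm)
  have hph1 : (p : ZMod m0) ^ f' = (h1 : ZMod m0) := by
    have := (ZMod.natCast_eq_natCast_iff _ _ _).mpr hmod0
    push_cast at this
    exact this
  have hpow0 : (p : ZMod m0) ^ (2 ^ a * f') = 1 := by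
    have h2 : p ^ (2 ^ a * f') ≡ 1 [MOD m] := by
      rw [← ZMod.natCast_eq_natCast_iff]
      push_cast
      rw [← hf]; exact pow_orderOf_eq_one _
    have h3 := (ZMod.natCast_eq_natCast_iff _ _ _).mpr (h2.of_dvd (Dvd.intro_left _ hkm) :
      p ^ (2 ^ a * f') ≡ 1 [MOD m0])
    push_cast at h3
    exact h3
  have hcop0 : h1.Coprime m0 := Nat.Coprime.coprime_dvd_right (Dvd.intro_left _ hkm) hcop
  have key : ∃ l : Multiset (Multiset (ZMod m0)), (∀ x ∈ l, KB p m0 x) ∧
      ∀ S : Finset ℕ, S.Nonempty → 2 ∉ S → ¬ Dead p S →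
        Even ((s0 + l.sum).countP (Supp S)) := by
    by_cases hle : h1 % m0 ≤ 1
    · have h2 : (h1 : ZMod m0) = 1 := by
        have hcm : Nat.gcd (h1 % m0) m0 = 1 := by
          rw [← Nat.gcd_rec, Nat.gcd_comm]; exact hcop0
        rcases Nat.le_one_iff_eq_zero_or_eq_one.mp hle with h3 | h3
        · rw [h3, Nat.gcd_zero_left] at hcm
          have h4 : Subsingleton (ZMod m0) := by rw [hcm]; infer_instance
          exact Subsingleton.elim _ _
        · have h4 : ((h1 % m0 : ℕ) : ZMod m0) = (h1 : ZMod m0) := ZMod.natCast_mod _ _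
          rw [← h4, h3, Nat.cast_one]
      obtain ⟨l, hl, hl2⟩ := trivial_case hpm0 hcl (by positivity) h2 hs0
      exact ⟨l, hl, fun S _ _ _ => hl2 S⟩
    · set h0 := h1 % m0 with hh0
      have hlt : h0 < m0 := Nat.mod_lt _ (NeZero.pos m0)
      have hm3 : 3 ≤ m0 := by omega
      have hc01 : (h0 : ZMod m0) = (h1 : ZMod m0) := ZMod.natCast_mod _ _
      have hgcd : Nat.gcd h0 m0 = 1 := by
        rw [hh0, ← Nat.gcd_rec, Nat.gcd_comm]
        exact hcop0
      have h128 : h0 ^ 128 % m0 = 1 := by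
        set v := ZMod.unitOfCoprime h0 hgcd with hv
        have hvc : (v : ZMod m0) = (h0 : ZMod m0) := ZMod.coe_unitOfCoprime _ _
        have hv1 : v ^ (2 ^ a) = 1 := by
          apply Units.ext
          rw [Units.val_pow_eq_pow_val, hvc, hc01, ← hph1, ← pow_mul, mul_comm f', hpow0,
            Units.val_one]
        obtain ⟨b, _, hb⟩ := (Nat.dvd_prime_pow Nat.prime_two).mp (orderOf_dvd_of_pow_eq_one hv1)
        have h3 : 2 ^ b ∣ Nat.totient m0 := by
          rw [← hb, ← ZMod.card_units_eq_totient]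
          exact orderOf_dvd_card
        have h4 := Nat.le_of_dvd (Nat.totient_pos.mpr (NeZero.pos m0)) h3
        have h5 := Nat.totient_le m0
        have h6 : b ≤ 7 := by
          by_contra hcon
          have : 2 ^ 8 ≤ 2 ^ b := Nat.pow_le_pow_right (by norm_num) (by omega)
          omega
        have h7 : v ^ 128 = 1 := by
          apply orderOf_dvd_iff_pow_eq_one.mp
          rw [hb]
          exact pow_dvd_pow 2 h6
        have h8 : ((h0 ^ 128 : ℕ) : ZMod m0) = ((1 : ℕ) : ZMod m0) := by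
          push_cast
          rw [← hvc, ← Units.val_pow_eq_pow_val, h7, Units.val_one]
        have h9 := (ZMod.natCast_eq_natCast_iff' _ _ _).mp h8
        rw [h9, Nat.mod_eq_of_lt (by omega)]
      have hdeg := degB_all hm3 hm0 hexc
      simp only [degB, Bool.and_eq_true, List.all_eq_true, beq_iff_eq, List.mem_range,
        Bool.or_eq_true, decide_eq_true_eq, bne_iff_ne, ne_eq, List.any_eq_true] at hdeg
      obtain ⟨e, he, heh⟩ := (((hdeg.2 h0 hlt).resolve_left hle).resolve_left
        (fun h => h hgcd)).resolve_left (fun h => h h128)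
      obtain ⟨hem, hent⟩ := hdeg.1 e he
      exact ent_sound hem hpm0 hcl hent hn hpow0 hco (by rw [heh, hc01]; exact hph1)
        (by rw [heh, hc01]) hs0
  obtain ⟨l, hl, hl2⟩ := key
  refine reduce hp hpm hs hne (l.map fun x => x.map (iota k : ZMod m0 → ZMod m)) ?_ ?_
  · intro x hx
    obtain ⟨y, hy, rfl⟩ := Multiset.mem_map.mp hx
    exact (hl y hy).lift hkm hpm
  · intro S hS h2S hSD
    rw [← H916Y.map_multiset_sum, Multiset.countP_add, countP_lift hkm, Nat.even_add]
    have h2 := hl2 S hS h2S hSD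
    rw [Multiset.countP_add, Nat.even_add, hc0 S, hs', countP_nrm hpm] at h2
    rw [← h2]
    constructor
    · intro h3; exact h3.mul_left f'
    · intro h3
      rcases Nat.even_mul.mp h3 with h4 | h4
      · exact absurd hf' (Nat.not_odd_iff_even.mpr h4)
      · exact h4

end Pool.Agent.N993.CP
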