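import Pool.Agent.H916Y.Chk

/-!
The norm to the subgroup of two-power order: reduction of Tate characters in characteristic `p` to the
case in which the order of `p` modulo `m` is a power of two.
-/

set_option linter.unusedSectionVars false

namespace Pool.Agent.N993.CP

open Finset Pool.Agent.H916R2 Pool.Agent.H916T Pool.Agent.H916U Pool.Agent.H916Z Pool.Agent.H916Q
  Pool.Agent.H916Y

/-- the sum over `o` powers of `h` -/
def WW {m : ℕ} (h : ZMod m) (o : ℕ) (x : ZMod m) : ℤ := ∑ j ∈ range o, saw (h ^ j * x)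

lemma sum_crt {n1 n2 : ℕ} (hco : n1.Coprime n2) (F : ℕ → ℤ)
    (hF : ∀ i, F (i % (n1 * n2)) = F i) :
    ∑ k ∈ range n2, ∑ j ∈ range n1, F (n2 * j + n1 * k) = ∑ i ∈ range (n1 * n2), F i := by
  rcases Nat.eq_zero_or_pos n1 with h1 | h1
  · subst h1; simp
  rcases Nat.eq_zero_or_pos n2 with h2 | h2
  · subst h2; simp
  have hpos : 0 < n1 * n2 := Nat.mul_pos h1 h2
  rw [← Finset.sum_product' (range n2) (range n1) (fun k j => F (n2 * j + n1 * k))]
  set g : ℕ × ℕ → ℕ := fun x => (n2 * x.2 + n1 * x.1) % (n1 * n2) with hg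
  have hinj : Set.InjOn g (range n2 ×ˢ range n1 : Finset (ℕ × ℕ)) := by
    rintro ⟨k, j⟩ hx ⟨k', j'⟩ hy h
    simp only [coe_product, coe_range, Set.mem_prod, Set.mem_Iio] at hx hy
    have h3 : n2 * j + n1 * k ≡ n2 * j' + n1 * k' [MOD n1 * n2] := h
    have h4 : n2 * j + n1 * k ≡ n2 * j' + n1 * k' [MOD n1] := h3.of_mul_right n2
    have h5 : n2 * j + n1 * k ≡ n2 * j' + n1 * k' [MOD n2] := h3.of_mul_left n1
    have h6 : n2 * j ≡ n2 * j' [MOD n1] := by
      have e1 : n2 * j + n1 * k ≡ n2 * j [MOD n1] := by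
        show (n2 * j + n1 * k) % n1 = n2 * j % n1
        exact Nat.add_mul_mod_self_left _ _ _
      have e2 : n2 * j' + n1 * k' ≡ n2 * j' [MOD n1] := by
        show (n2 * j' + n1 * k') % n1 = n2 * j' % n1
        exact Nat.add_mul_mod_self_left _ _ _
      exact (e1.symm.trans h4).trans e2
    have h7 : n1 * k ≡ n1 * k' [MOD n2] := by
      have e1 : n2 * j + n1 * k ≡ n1 * k [MOD n2] := by
        show (n2 * j + n1 * k) % n2 = n1 * k % n2
        rw [add_comm]; exact Nat.add_mul_mod_self_left _ _ _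
      have e2 : n2 * j' + n1 * k' ≡ n1 * k' [MOD n2] := by
        show (n2 * j' + n1 * k') % n2 = n1 * k' % n2
        rw [add_comm]; exact Nat.add_mul_mod_self_left _ _ _
      exact (e1.symm.trans h5).trans e2
    have h8 : j ≡ j' [MOD n1] := Nat.ModEq.cancel_left_of_coprime hco h6
    have h9 : k ≡ k' [MOD n2] := Nat.ModEq.cancel_left_of_coprime hco.symm h7
    have h10 : j = j' := Nat.ModEq.eq_of_lt_of_lt h8 hx.2 hy.2
    have h11 : k = k' := Nat.ModEq.eq_of_lt_of_lt h9 hx.1 hy.1
    rw [h10, h11]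
  have himg : (range n2 ×ˢ range n1).image g = range (n1 * n2) := by
    apply Finset.eq_of_subset_of_card_le
    · intro i hi
      obtain ⟨x, _, rfl⟩ := mem_image.mp hi
      exact mem_range.mpr (Nat.mod_lt _ hpos)
    · rw [Finset.card_image_of_injOn hinj, card_product, card_range, card_range, card_range,
        mul_comm]
  rw [← himg, Finset.sum_image hinj]
  refine sum_congr rfl fun x _ => ?_
  rw [hg]
  exact (hF _).symm

variable {p m : ℕ} [NeZero m]

lemma WW_mul {h : ZMod m} {n : ℕ} (hn : h ^ n = 1) (k : ℕ) (x : ZMod m) :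
    WW h (k * n) x = k * WW h n x := by
  induction k with
  | zero => simp [WW]
  | succ k ih =>
    have h1 : WW h ((k + 1) * n) x = WW h (k * n) x + WW h n x := by
      unfold WW
      rw [add_mul, one_mul, sum_range_add]
      congr 1
      refine sum_congr rfl fun j _ => ?_
      rw [pow_add, mul_comm k n, pow_mul, hn, one_pow, one_mul]
    rw [h1, ih]
    push_cast
    ring

lemma W_eq_WW (x : ZMod m) : W p x = WW (p : ZMod m) (orderOf (p : ZMod m)) x := rfl

lemma WW_split {n1 n2 : ℕ} (hf : (p : ZMod m) ^ (n1 * n2) = 1) (hco : n1.Coprime n2)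
    (x : ZMod m) :
    WW (p : ZMod m) (n1 * n2) x =
      ∑ k ∈ range n2, WW ((p : ZMod m) ^ n2) n1 (((p : ZMod m) ^ n1) ^ k * x) := by
  unfold WW
  rw [← sum_crt hco (fun i => saw ((p : ZMod m) ^ i * x)) ?_]
  · refine sum_congr rfl fun k _ => sum_congr rfl fun j _ => ?_
    congr 1
    rw [← pow_mul, ← pow_mul, ← mul_assoc, ← pow_add]
  · intro i
    have h1 : (p : ZMod m) ^ (i % (n1 * n2)) = (p : ZMod m) ^ i := by
      conv_rhs => rw [← Nat.mod_add_div i (n1 * n2), pow_add, pow_mul, hf, one_pow, mul_one]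
    simp only [h1]

lemma W_split {n1 n2 : ℕ} (hf : orderOf (p : ZMod m) = n1 * n2) (hco : n1.Coprime n2)
    (x : ZMod m) :
    W p x = ∑ k ∈ range n2, WW ((p : ZMod m) ^ n2) n1 (((p : ZMod m) ^ n1) ^ k * x) := by
  rw [W_eq_WW, hf]
  exact WW_split (by rw [← hf]; exact pow_orderOf_eq_one _) hco x

/-- the norm of a multiset -/
def nrm (c : ZMod m) (n : ℕ) (s : Multiset (ZMod m)) : Multiset (ZMod m) :=
  ∑ k ∈ range n, s.map (fun a => c ^ k * a)

lemma map_finset_sum {α β : Type} (f : α → β) (n : ℕ) (S : ℕ → Multiset α) :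
    (∑ k ∈ range n, S k).map f = ∑ k ∈ range n, (S k).map f := by
  induction n with
  | zero => simp
  | succ n ih => rw [sum_range_succ, sum_range_succ, Multiset.map_add, ih]

lemma sum_finset_sum {α : Type} [AddCommMonoid α] (n : ℕ) (S : ℕ → Multiset α) :
    (∑ k ∈ range n, S k).sum = ∑ k ∈ range n, (S k).sum := by
  induction n with
  | zero => simp
  | succ n ih => rw [sum_range_succ, sum_range_succ, Multiset.sum_add, ih]

lemma mem_finset_sum {α : Type} (a : α) (n : ℕ) (S : ℕ → Multiset α) :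
    a ∈ (∑ k ∈ range n, S k) ↔ ∃ k < n, a ∈ S k := by
  induction n with
  | zero => simp
  | succ n ih =>
    rw [sum_range_succ, Multiset.mem_add, ih]
    constructor
    · rintro (⟨k, hk, h⟩ | h)
      · exact ⟨k, by omega, h⟩
      · exact ⟨n, by omega, h⟩
    · rintro ⟨k, hk, h⟩
      by_cases hkn : k = n
      · right; rw [← hkn]; exact h
      · left; exact ⟨k, by omega, h⟩

lemma card_finset_sum {α : Type} (n : ℕ) (S : ℕ → Multiset α) :
    Multiset.card (∑ k ∈ range n, S k) = ∑ k ∈ range n, Multiset.card (S k) := by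
  induction n with
  | zero => simp
  | succ n ih => rw [sum_range_succ, sum_range_succ, Multiset.card_add, ih]

lemma card_nrm (c : ZMod m) (n : ℕ) (s : Multiset (ZMod m)) :
    Multiset.card (nrm c n s) = n * Multiset.card s := by
  unfold nrm
  rw [card_finset_sum]
  simp

/-- invariant functions on the norm -/
lemma nrm_map_sum (c : ZMod m) (n : ℕ) (s : Multiset (ZMod m)) (g : ZMod m → ℕ)
    (hg : ∀ k a, g (c ^ k * a) = g a) :
    ((nrm c n s).map g).sum = n * (s.map g).sum := by
  unfold nrm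
  rw [map_finset_sum, sum_finset_sum]
  have h1 : ∀ k ∈ range n, ((s.map (fun a => c ^ k * a)).map g).sum = (s.map g).sum := by
    intro k _
    rw [Multiset.map_map]
    congr 1
    exact Multiset.map_congr rfl fun a _ => hg k a
  rw [sum_congr rfl h1, sum_const, card_range, smul_eq_mul]

lemma nrm_WW {n1 n2 : ℕ} (hf : orderOf (p : ZMod m) = n1 * n2) (hco : n1.Coprime n2)
    (s : Multiset (ZMod m)) (t : ZMod m) :
    ((nrm ((p : ZMod m) ^ n1) n2 s).map fun a => WW ((p : ZMod m) ^ n2) n1 (t * a)).sum =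
      (s.map fun a => W p (t * a)).sum := by
  unfold nrm
  rw [map_finset_sum, sum_finset_sum]
  have h1 : ∀ k ∈ range n2, ((s.map (fun a => ((p : ZMod m) ^ n1) ^ k * a)).map
      fun a => WW ((p : ZMod m) ^ n2) n1 (t * a)).sum =
      (s.map fun a => WW ((p : ZMod m) ^ n2) n1 (((p : ZMod m) ^ n1) ^ k * (t * a))).sum := by
    intro k _
    rw [Multiset.map_map]
    congr 1
    refine Multiset.map_congr rfl fun a _ => ?_
    simp only [Function.comp_apply]
    congr 1
    ring
  rw [sum_congr rfl h1]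
  have h2 : (s.map fun a => W p (t * a)).sum = (s.map fun a => ∑ k ∈ range n2,
      WW ((p : ZMod m) ^ n2) n1 (((p : ZMod m) ^ n1) ^ k * (t * a))).sum := by
    congr 1
    exact Multiset.map_congr rfl fun a _ => W_split hf hco (t * a)
  rw [h2]
  induction s using Multiset.induction_on with
  | empty => simp
  | cons a s ih =>
    rw [Multiset.map_cons, Multiset.sum_cons, ← ih, ← sum_add_distrib]
    · exact sum_congr rfl fun k _ => by rw [Multiset.map_cons, Multiset.sum_cons]
    · intro k _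
      rw [Multiset.map_map]
      congr 1
      refine Multiset.map_congr rfl fun a _ => ?_
      simp only [Function.comp_apply]
      congr 1
      ring
    · congr 1
      exact Multiset.map_congr rfl fun a _ => W_split hf hco (t * a)

/-- a relation for the subgroup gives one for the group -/
lemma isTate_of_WW (hpm : p.Coprime m) {n1 n2 : ℕ} (hn : n1 * n2 ≠ 0)
    (hf : (p : ZMod m) ^ (n1 * n2) = 1)
    (hco : n1.Coprime n2) {s : Multiset (ZMod m)} (h0 : (0 : ZMod m) ∉ s)
    (heven : Even (Multiset.card s)) (hsum : s.sum = 0)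
    (h : ∀ t : (ZMod m)ˣ, (s.map fun a => WW ((p : ZMod m) ^ n2) n1 ((t : ZMod m) * a)).sum = 0) :
    IsTate p m s := by
  refine isTate_of_W hpm h0 heven hsum ?_
  intro t
  have hu : IsUnit (p : ZMod m) := isUnit_p hpm
  obtain ⟨c, hc⟩ := orderOf_dvd_of_pow_eq_one hf
  have hc0 : (c : ℤ) ≠ 0 := by
    intro h1
    have h2 : c = 0 := by exact_mod_cast h1
    rw [h2, mul_zero] at hc
    exact hn hc
  have h1 : ∀ x : ZMod m, (c : ℤ) * W p x = ∑ k ∈ range n2,
      WW ((p : ZMod m) ^ n2) n1 (((p : ZMod m) ^ n1) ^ k * x) := by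
    intro x
    rw [← WW_split hf hco, hc, mul_comm _ c, WW_mul (pow_orderOf_eq_one _), W_eq_WW]
  have h2 : (s.map fun a => (c : ℤ) * W p ((t : ZMod m) * a)).sum = (s.map fun a => ∑ k ∈ range n2,
      WW ((p : ZMod m) ^ n2) n1 (((p : ZMod m) ^ n1) ^ k * ((t : ZMod m) * a))).sum := by
    congr 1
    exact Multiset.map_congr rfl fun a _ => h1 ((t : ZMod m) * a)
  have h3 : ∀ s : Multiset (ZMod m), (s.map fun a => ∑ k ∈ range n2,
      WW ((p : ZMod m) ^ n2) n1 (((p : ZMod m) ^ n1) ^ k * ((t : ZMod m) * a))).sum =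
      ∑ k ∈ range n2, (s.map fun a =>
        WW ((p : ZMod m) ^ n2) n1 (((hu.unit ^ n1) ^ k * t : (ZMod m)ˣ) * a)).sum := by
    intro s
    induction s using Multiset.induction_on with
    | empty => simp
    | cons a s ih =>
      rw [Multiset.map_cons, Multiset.sum_cons, ih, ← sum_add_distrib]
      refine sum_congr rfl fun k _ => ?_
      rw [Multiset.map_cons, Multiset.sum_cons]
      congr 2
      simp only [Units.val_mul, Units.val_pow_eq_pow_val, IsUnit.unit_spec]
      ring
  have h4 : (c : ℤ) * (s.map fun a => W p ((t : ZMod m) * a)).sum = 0 := by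
    rw [← Multiset.sum_map_mul_left, h2, h3]
    exact sum_eq_zero fun k _ => h _
  exact (mul_eq_zero.mp h4).resolve_left hc0

end Pool.Agent.N993.CP
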