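import Pool.Agent.N993.CP.Base

/-!
The odd order case.
-/

set_option linter.unusedSectionVars false

namespace Pool.Agent.N993.CP

open Finset Pool.Agent.H916R2 Pool.Agent.H916T Pool.Agent.H916U Pool.Agent.H916Z Pool.Agent.H916Q
  Pool.Agent.H916Y Pool.Agent.N992 Pool.Agent.Y2.Cv

variable {p m : ℕ} [NeZero m]

lemma addOrderOf_unit (u : (ZMod m)ˣ) (a : ZMod m) : addOrderOf ((u : ZMod m) * a) = addOrderOf a := by
  apply Nat.dvd_antisymm
  · apply addOrderOf_dvd_of_nsmul_eq_zero
    rw [nsmul_eq_mul, mul_left_comm, ← nsmul_eq_mul, addOrderOf_nsmul_eq_zero, mul_zero]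
  · apply addOrderOf_dvd_of_nsmul_eq_zero
    have h1 : addOrderOf ((u : ZMod m) * a) • ((u : ZMod m) * a) = 0 := addOrderOf_nsmul_eq_zero _
    rw [nsmul_eq_mul, mul_left_comm, ← nsmul_eq_mul] at h1
    exact (u.isUnit.mul_right_eq_zero).mp h1

lemma addOrderOf_pow_mul (hpm : p.Coprime m) (n k : ℕ) (a : ZMod m) :
    addOrderOf (((p : ZMod m) ^ n) ^ k * a) = addOrderOf a := by
  have hu : IsUnit (p : ZMod m) := isUnit_p hpm
  have h1 := addOrderOf_unit ((hu.unit ^ n) ^ k) a
  simp only [Units.val_pow_eq_pow_val, IsUnit.unit_spec] at h1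
  exact h1

open scoped Classical in
lemma countP_nrm (hpm : p.Coprime m) (n1 n2 : ℕ) (s : Multiset (ZMod m)) (S : Finset ℕ) :
    (nrm ((p : ZMod m) ^ n1) n2 s).countP (Supp S) = n2 * s.countP (Supp S) := by
  have h1 : ∀ s : Multiset (ZMod m), s.countP (Supp S) =
      (s.map fun a => if Supp S a then 1 else 0).sum := by
    intro s
    induction s using Multiset.induction_on with
    | empty => simp
    | cons a s ih =>
      rw [Multiset.countP_cons, Multiset.map_cons, Multiset.sum_cons, ih, add_comm]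
  rw [h1, h1]
  apply nrm_map_sum
  intro k a
  have h2 : Supp S (((p : ZMod m) ^ n1) ^ k * a) ↔ Supp S a := by
    unfold Supp
    rw [addOrderOf_pow_mul hpm]
  by_cases h3 : Supp S a
  · rw [if_pos h3, if_pos (h2.mpr h3)]
  · rw [if_neg h3, if_neg (fun h => h3 (h2.mp h))]

lemma sum_nrm_zero (c : ZMod m) (n : ℕ) {s : Multiset (ZMod m)} (hs : s.sum = 0) :
    (nrm c n s).sum = 0 := by
  unfold nrm
  rw [sum_finset_sum]
  apply sum_eq_zero
  intro k _
  rw [Multiset.sum_map_mul_left, Multiset.map_id', hs, mul_zero]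

lemma zero_notMem_nrm (hpm : p.Coprime m) (n1 n2 : ℕ) {s : Multiset (ZMod m)} (hs : (0 : ZMod m) ∉ s) :
    (0 : ZMod m) ∉ nrm ((p : ZMod m) ^ n1) n2 s := by
  unfold nrm
  rw [mem_finset_sum]
  rintro ⟨k, _, h⟩
  obtain ⟨a, ha, h0⟩ := Multiset.mem_map.mp h
  have hu : IsUnit (((p : ZMod m) ^ n1) ^ k) := ((isUnit_p hpm).pow _).pow _
  rw [hu.mul_right_eq_zero] at h0
  exact hs (h0 ▸ ha)

open scoped Classical in
theorem odd_case (hp : p.Prime) (hpm : p.Coprime m)
    (hm : MutualSquares m ∨ ThreePrimes m ∨ m ≤ 86) (hodd : Odd (orderOf (p : ZMod m)))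
    {s : Multiset (ZMod m)} (hs : IsTate p m s) (hne : s ≠ 0) :
    ∃ N : ℕ, 0 < N ∧ p.Coprime N ∧ ∀ M : ℕ, N * m = M →
      H916T.Generated M (CBase p M) (s.map (iota N : ZMod m → ZMod M)) := by
  set f := orderOf (p : ZMod m) with hf
  have hf1 : orderOf (p : ZMod m) = 1 * f := by rw [one_mul]
  set s' := nrm ((p : ZMod m) ^ 1) f s with hs'
  have h0 : (0 : ZMod m) ∉ s' := zero_notMem_nrm hpm 1 f hs.1
  have hcard : Multiset.card s' = f * Multiset.card s := card_nrm _ _ _
  have hH : IsHodge m s' := by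
    refine ⟨h0, ?_, sum_nrm_zero _ _ hs.2.2.1, ?_⟩
    · rw [hcard]; exact hs.2.1.mul_left f
    · intro t
      have h1 := nrm_WW hf1 (Nat.coprime_one_left f) s (t : ZMod m)
      rw [hs.W_sum hpm t] at h1
      have h2 : (s'.map fun a => WW ((p : ZMod m) ^ f) 1 ((t : ZMod m) * a)) =
          s'.map fun a => saw ((t : ZMod m) * a) := by
        refine Multiset.map_congr rfl fun a _ => ?_
        unfold WW
        rw [sum_range_one, pow_zero, one_mul]
      rw [← hs', h2, saw_sum_eq s' h0 t] at h1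
      have h3 := sub_eq_zero.mp h1
      exact_mod_cast h3
  have hfpos : 0 < f := hodd.pos
  have hne' : s' ≠ 0 := by
    intro h
    have h2 := congrArg Multiset.card h
    rw [hcard, Multiset.card_zero] at h2
    rcases Nat.mul_eq_zero.mp h2 with h3 | h3
    · omega
    · exact hne (Multiset.card_eq_zero.mp h3)
  refine reduce hp hpm hs hne {s'} ?_ ?_
  · intro x hx
    rw [Multiset.mem_singleton] at hx
    rw [hx]
    exact KB.of_hodge hpm hm hH hne'
  · intro S _ _ _
    rw [Multiset.sum_singleton, Multiset.countP_add, hs', countP_nrm hpm]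
    have h1 : Multiset.countP (Supp S) s + f * Multiset.countP (Supp S) s =
        (1 + f) * Multiset.countP (Supp S) s := by ring
    rw [h1]
    exact (odd_one.add_odd hodd).mul_right _

end Pool.Agent.N993.CP
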